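import Pool.Agent.Lib.MP_d48993_lc.AE.Ind2.Dfs

/-!
# Module IND2: computability of the construction
-/

set_option autoImplicit false

namespace Pool.Agent.Lib.MP_d48993_lc.Ind2

open MP_8c048d_lc (pre join RecF Cop UR length_pre pre_take pre_congr)
open Encodable (encode)
open Denumerable (ofNat)

/-! ## General facts -/

section general

variable {α β : Type} [Primcodable α] [Primcodable β]

theorem comp_pre0 : Computable (fun k : ℕ => pre (fun _ => 0) k) := by
  have h : Primrec₂ (fun (_ : ℕ) (_ : ℕ) => 0) := Primrec.const 0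
  exact (Primrec.list_map (Primrec.list_range) h).to_comp

/-- A functional which does not depend on the oracle is computable. -/
theorem comp_of_recF {φ : α → (ℕ → ℕ) → β} (h : RecF φ) {f : α → β} (e : ∀ a F, φ a F = f a) :
    Computable f := by
  obtain ⟨q, hq, h1, h2⟩ := h
  have h4 : Computable₂ (fun (a : α) (k : ℕ) => q (a, pre (fun _ => 0) k)) :=
    hq.comp (Computable.fst.pair (comp_pre0.comp Computable.snd))
  refine (Partrec.rfindOpt h4).of_eq fun a => ?_
  have h5 : (Nat.rfindOpt fun k => q (a, pre (fun _ => 0) k)).Dom := by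
    rw [Nat.rfindOpt_dom]
    obtain ⟨k, hk⟩ := h2 a (fun _ => 0)
    exact ⟨k, _, hk⟩
  have h6 := Part.get_mem h5
  obtain ⟨k, hk⟩ := Nat.rfindOpt_spec h6
  have h7 := h1 a (fun _ => 0) k _ hk
  rw [← Part.some_get h5, ← h7, e]
  rfl

theorem comp_map {f : ℕ → ℕ} (hf : Computable f) : Computable (fun τ : List ℕ => τ.map f) := by
  have h1 : RecF (fun (p : List ℕ × ℕ) (_ : ℕ → ℕ) => f (p.1.getD p.2 0)) :=
    RecF.of_computable (hf.comp ((Primrec.list_getD 0).to_comp.comp Computable.fst Computable.snd))
  have h2 := (RecF.pre' (Ψ := fun (τ : List ℕ) _ i => f (τ.getD i 0)) h1).comp₁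
    (f := fun τ : List ℕ => (τ, τ.length)) (Computable.id.pair Computable.list_length)
  refine comp_of_recF h2 fun τ F => ?_
  simp only [MP_8c048d_lc.pre]
  apply List.ext_getElem
  · simp
  · intro i h3 h4
    simp only [List.getElem_map, List.getElem_range]
    rw [List.length_map] at h4
    rw [List.getD_eq_getElem _ _ h4]

end general

/-- `List.contains`. -/
theorem prim_contains : Primrec₂ (fun (U : List ℕ) (j : ℕ) => U.contains j) := by
  obtain ⟨_, h⟩ := (Primrec.eq (α := ℕ)).exists_mem_list
  refine h.of_eq fun p => ?_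
  rw [Bool.eq_iff_iff, decide_eq_true_eq, List.contains_iff_mem]
  constructor
  · rintro ⟨a, ha, rfl⟩; exact ha
  · intro ha; exact ⟨_, ha, rfl⟩

theorem prim_filter : Primrec₂ (fun (U : List ℕ) (j : ℕ) => U.filter (fun i => decide (i < j))) :=
  PrimrecRel.listFilter (R := fun i j : ℕ => i < j) Primrec.nat_lt

theorem prim_mvo : Primrec₂ mvo := by
  have h1 : Primrec₂ (fun (x : (List (List ℕ) × List ℕ) × Mv) (s : List ℕ) =>
      (some (x.1.1 ++ [s], x.1.2) : Option (List (List ℕ) × List ℕ))) := by
    refine Primrec.option_some.comp (Primrec.pair ?_ ?_)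
    · exact Primrec.list_concat.comp (Primrec.fst.comp (Primrec.fst.comp Primrec.fst)) Primrec.snd
    · exact Primrec.snd.comp (Primrec.fst.comp Primrec.fst)
  have h2 : Primrec₂ (fun (x : (List (List ℕ) × List ℕ) × Mv) (j : ℕ) =>
      if x.1.2.contains j = true then (none : Option (List (List ℕ) × List ℕ))
      else some (x.1.1.take j, j :: x.1.2.filter (fun i => decide (i < j)))) := by
    have e1 : Primrec (fun y : ((List (List ℕ) × List ℕ) × Mv) × ℕ => y.1.1.2) :=
      Primrec.snd.comp (Primrec.fst.comp Primrec.fst)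
    have e2 : Primrec (fun y : ((List (List ℕ) × List ℕ) × Mv) × ℕ => y.1.1.1) :=
      Primrec.fst.comp (Primrec.fst.comp Primrec.fst)
    refine Primrec.ite (c := fun y : ((List (List ℕ) × List ℕ) × Mv) × ℕ =>
      y.1.1.2.contains y.2 = true) ?_ (Primrec.const none) ?_
    · exact Primrec.eq.comp (prim_contains.comp e1 Primrec.snd) (Primrec.const true)
    · exact Primrec.option_some.comp (Primrec.pair (Primrec.list_take.comp Primrec.snd e2)
        (Primrec.list_cons.comp Primrec.snd (prim_filter.comp e1 Primrec.snd)))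
  have h3 : Primrec₂ (fun (x : (List (List ℕ) × List ℕ) × Mv) (y : List ℕ ⊕ ℕ) =>
      (Sum.casesOn y (fun s => some (x.1.1 ++ [s], x.1.2)) (fun j =>
        if x.1.2.contains j = true then none
        else some (x.1.1.take j, j :: x.1.2.filter (fun i => decide (i < j)))) :
        Option (List (List ℕ) × List ℕ))) := by
    refine Primrec.sumCasesOn (α := ((List (List ℕ) × List ℕ) × Mv) × (List ℕ ⊕ ℕ))
      (f := fun z => z.2) (g := fun z s => some (z.1.1.1 ++ [s], z.1.1.2))
      (h := fun z j => if z.1.1.2.contains j = true then none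
        else some (z.1.1.1.take j, j :: z.1.1.2.filter (fun i => decide (i < j))))
      Primrec.snd ?_ ?_
    · exact h1.comp (Primrec.fst.comp Primrec.fst) Primrec.snd
    · exact h2.comp (Primrec.fst.comp Primrec.fst) Primrec.snd
  have h4 := Primrec.option_casesOn (α := (List (List ℕ) × List ℕ) × Mv) (o := fun x => x.2)
    (f := fun x => some x.1) Primrec.snd (Primrec.option_some.comp Primrec.fst) h3
  refine h4.of_eq fun x => ?_
  obtain ⟨p, m⟩ := x
  rcases m with _ | s | j
  · rfl
  · rfl
  · rfl

theorem prim_run : Primrec run := by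
  have h : Primrec₂ (fun (_ : List Mv) (x : Option (List (List ℕ) × List ℕ) × Mv) =>
      x.1.bind fun p => mvo p x.2) := by
    refine Primrec.option_bind (Primrec.fst.comp Primrec.snd) ?_
    exact prim_mvo.comp Primrec.snd (Primrec.snd.comp (Primrec.snd.comp Primrec.fst))
  exact Primrec.list_foldl (α := List Mv) (f := fun w => w)
    (g := fun _ => (some ([], []) : Option (List (List ℕ) × List ℕ))) Primrec.id
    (Primrec.const _) h

theorem prim_okm : Primrec₂ (fun (m : Mv) (u : ℕ) => okm u m) := by
  have h3 : Primrec₂ (fun (x : Mv × ℕ) (y : List ℕ ⊕ ℕ) =>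
      (Sum.casesOn y (fun _ => true) (fun j => decide (x.2 < j)) : Bool)) := by
    refine Primrec.sumCasesOn (α := (Mv × ℕ) × (List ℕ ⊕ ℕ)) (f := fun z => z.2)
      (g := fun _ _ => true) (h := fun z j => decide (z.1.2 < j)) Primrec.snd
      (Primrec.const true).to₂ ?_
    have := PrimrecRel.decide Primrec.nat_lt
    exact this.comp (Primrec.snd.comp (Primrec.fst.comp Primrec.fst)) Primrec.snd
  have h4 := Primrec.option_casesOn (α := Mv × ℕ) (o := fun x => x.1)
    (f := fun _ => true) Primrec.fst (Primrec.const true) h3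
  refine h4.of_eq fun x => ?_
  obtain ⟨m, u⟩ := x
  rcases m with _ | s | j
  · rfl
  · rfl
  · rfl

theorem prim_all : Primrec₂ (fun (w : List Mv) (u : ℕ) => w.all (okm u)) := by
  have h1 : PrimrecRel (fun (m : Mv) (u : ℕ) => okm u m = true) :=
    Primrec.eq.comp prim_okm (Primrec.const true)
  obtain ⟨_, h⟩ := h1.forall_mem_list
  refine h.of_eq fun p => ?_
  rw [Bool.eq_iff_iff, decide_eq_true_eq, List.all_eq_true]

/-- `ex`. -/
theorem prim_ex : Primrec (fun x : ℕ × ℕ × List Mv => ex x.1 x.2.1 x.2.2) := by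
  have e0 : Primrec (fun y : (ℕ × ℕ × List Mv) × List Mv =>
      y.2 ++ [(some (Sum.inr y.1.2.1) : Mv)]) :=
    Primrec.list_concat.comp Primrec.snd (Primrec.option_some.comp
      (Primrec.sumInr.comp (Primrec.fst.comp (Primrec.snd.comp Primrec.fst))))
  have h1 : Primrec₂ (fun (x : ℕ × ℕ × List Mv) (w : List Mv) =>
      if (w.all (okm x.2.1) && (run (x.2.2 ++ (w ++ [some (Sum.inr x.2.1)]))).isSome) = true
      then w ++ [some (Sum.inr x.2.1)] else []) := by
    refine Primrec.ite (c := fun y : (ℕ × ℕ × List Mv) × List Mv =>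
      (y.2.all (okm y.1.2.1) && (run (y.1.2.2 ++ (y.2 ++ [some (Sum.inr y.1.2.1)]))).isSome) = true)
      ?_ e0 (Primrec.const [])
    refine Primrec.eq.comp (Primrec.and.comp ?_ ?_) (Primrec.const true)
    · exact prim_all.comp Primrec.snd (Primrec.fst.comp (Primrec.snd.comp Primrec.fst))
    · exact Primrec.option_isSome.comp (prim_run.comp (Primrec.list_append.comp
        (Primrec.snd.comp (Primrec.snd.comp Primrec.fst)) e0))
  have h2 := Primrec.option_casesOn (α := ℕ × ℕ × List Mv)
    (o := fun x => ofNat (Option (List Mv)) x.1) (f := fun _ => ([] : List Mv))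
    ((Primrec.ofNat (Option (List Mv))).comp Primrec.fst) (Primrec.const []) h1
  refine h2.of_eq fun x => ?_
  unfold ex
  cases ofNat (Option (List Mv)) x.1 <;> rfl

section layer

variable {γ : List ℕ → ℕ} {vis cmd : ℕ → ℕ}

theorem comp_ex {α : Type} [Primcodable α] {c u : α → ℕ} {s : α → List Mv} (hc : Computable c)
    (hu : Computable u) (hs : Computable s) : Computable (fun a => ex (c a) (u a) (s a)) :=
  prim_ex.to_comp.comp (hc.pair (hu.pair hs))

theorem prim_rep : Primrec (fun k : ℕ => List.replicate k (none : Mv)) := by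
  have h := Primrec.list_map (Primrec.list_range) ((Primrec.const (none : Mv)).to₂ (α := ℕ) (β := ℕ))
  refine h.of_eq fun k => ?_
  rw [List.map_const', List.length_range]

theorem comp_stp (hγ : Computable γ) (hc : Computable cmd) :
    Computable (fun x : List ℕ × ℕ × ℕ × List Mv => stp γ cmd x.1 x.2) := by
  have h1 : Computable (fun x : List ℕ × ℕ × ℕ × List Mv => x.1) := Computable.fst
  have h2 : Computable (fun x : List ℕ × ℕ × ℕ × List Mv => x.2.1) :=
    Computable.fst.comp Computable.snd
  have h3 : Computable (fun x : List ℕ × ℕ × ℕ × List Mv => x.2.2.1) :=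
    Computable.fst.comp (Computable.snd.comp Computable.snd)
  have h4 : Computable (fun x : List ℕ × ℕ × ℕ × List Mv => x.2.2.2) :=
    Computable.snd.comp (Computable.snd.comp Computable.snd)
  have h5 : Computable (fun x : List ℕ × ℕ × ℕ × List Mv =>
      x.2.2.2 ++ ex (cmd (x.1.getD x.2.1 0)) x.2.2.1 x.2.2.2) :=
    Primrec.list_append.to_comp.comp h4 (comp_ex (hc.comp
      ((Primrec.list_getD 0).to_comp.comp h1 h2)) h3 h4)
  have h6 : Computable (fun x : List ℕ × ℕ × ℕ × List Mv => (x.1.length, x.2.2.1 + 1,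
      (x.2.2.2 ++ ex (cmd (x.1.getD x.2.1 0)) x.2.2.1 x.2.2.2) ++
        (List.replicate (x.1.length -
          (x.2.2.2 ++ ex (cmd (x.1.getD x.2.1 0)) x.2.2.1 x.2.2.2).length) (none : Mv) ++
          [(some (Sum.inl x.1) : Mv)]))) := by
    refine (Computable.list_length.comp h1).pair ((Computable.succ.comp h3).pair ?_)
    refine Primrec.list_append.to_comp.comp h5 ?_
    refine Computable.list_concat.comp (prim_rep.to_comp.comp
      (Primrec.nat_sub.to_comp.comp (Computable.list_length.comp h1)
        (Computable.list_length.comp h5))) ?_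
    exact Computable.option_some.comp (Computable.sumInl.comp h1)
  have h7 : Computable (fun x : List ℕ × ℕ × ℕ × List Mv => decide (x.2.2.1 < γ x.1)) :=
    (PrimrecRel.decide Primrec.nat_lt).to_comp.comp h3 (hγ.comp h1)
  refine (Computable.cond h7 h6 Computable.snd).of_eq fun x => ?_
  unfold stp
  by_cases h : x.2.2.1 < γ x.1
  · rw [if_pos h, decide_eq_true h]; rfl
  · rw [if_neg h, decide_eq_false h]; rfl

/-- The states are computed by functionals. -/
theorem recF_stt (hγ : Computable γ) (hc : Computable cmd) :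
    RecF (fun (n : ℕ) F => stt γ cmd F n) := by
  have h1 : RecF (fun (x : Unit × ℕ × ℕ × ℕ × List Mv) F =>
      stp γ cmd (pre F (x.2.1 + 1)) x.2.2) := by
    refine RecF.comp (comp_stp hγ hc) (RecF.pair ?_ (RecF.of_computable
      (Computable.snd.comp Computable.snd)))
    exact RecF.pre.comp₁ (f := fun x : Unit × ℕ × ℕ × ℕ × List Mv => x.2.1 + 1)
      (Computable.succ.comp (Computable.fst.comp Computable.snd))
  have h2 := RecF.natRec (g := fun (_ : Unit) (_ : ℕ → ℕ) => ((0, 0, []) : ℕ × ℕ × List Mv))
    (RecF.of_computable (Computable.const _)) h1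
  have h3 := h2.comp₁ (f := fun n : ℕ => ((), n)) ((Computable.const ()).pair Computable.id)
  refine h3.congr fun n F => ?_
  induction n with
  | zero => rfl
  | succ n ih => 
    show stp γ cmd (pre F (n + 1)) _ = stp γ cmd (pre F (n + 1)) _
    exact congrArg _ ih

theorem recF_txt (hγ : Computable γ) (hc : Computable cmd) :
    RecF (fun (n : ℕ) F => txt γ cmd F n) := by
  have h1 := recF_stt hγ hc
  have h2 : RecF (fun (n : ℕ) F => (F (stt γ cmd F n).1)) :=
    RecF.app (RecF.comp Computable.fst h1)
  have h3 : Computable (fun x : (ℕ × ℕ) × ℕ × ℕ × List Mv =>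
      if x.2.1 < x.1.1 then x.2.2.2 ++ ex (cmd x.1.2) x.2.2.1 x.2.2.2 else x.2.2.2) := by
    have e1 : Computable (fun x : (ℕ × ℕ) × ℕ × ℕ × List Mv => x.2.2.2) :=
      Computable.snd.comp (Computable.snd.comp Computable.snd)
    have e2 : Computable (fun x : (ℕ × ℕ) × ℕ × ℕ × List Mv => x.2.2.1) :=
      Computable.fst.comp (Computable.snd.comp Computable.snd)
    have e3 : Computable (fun x : (ℕ × ℕ) × ℕ × ℕ × List Mv => decide (x.2.1 < x.1.1)) :=
      (PrimrecRel.decide Primrec.nat_lt).to_comp.comp (Computable.fst.comp Computable.snd)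
        (Computable.fst.comp Computable.fst)
    refine (Computable.cond e3 (Primrec.list_append.to_comp.comp e1 (comp_ex (hc.comp
      (Computable.snd.comp Computable.fst)) e2 e1)) e1).of_eq fun x => ?_
    by_cases h : x.2.1 < x.1.1
    · rw [if_pos h, decide_eq_true h]; rfl
    · rw [if_neg h, decide_eq_false h]; rfl
  have h4 := RecF.comp h3 (((RecF.of_computable Computable.id).pair h2).pair h1)
  refine h4.congr fun n F => ?_
  rfl

theorem recF_XX (hγ : Computable γ) (hv : Computable vis) (hc : Computable cmd) :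
    RecF (fun (p : ℕ) F => XX γ vis cmd F p) := by
  have h1 : RecF (fun (p : ℕ) F => txt γ cmd F (p + 1)) :=
    (recF_txt hγ hc).comp₁ (f := fun p : ℕ => p + 1) Computable.succ
  have h2 : RecF (fun (p : ℕ) (F : ℕ → ℕ) => F p) := RecF.at Computable.id
  have h3 : Computable (fun x : (ℕ × ℕ) × List Mv =>
      Nat.pair (vis x.1.2) (encode (x.2.getD x.1.1 none))) := by
    refine Primrec₂.natPair.to_comp.comp (hv.comp (Computable.snd.comp Computable.fst)) ?_
    exact Computable.encode.comp ((Primrec.list_getD (none : Mv)).to_comp.comp Computable.snd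
      (Computable.fst.comp Computable.fst))
  have h4 := RecF.comp h3 (((RecF.of_computable Computable.id).pair h2).pair h1)
  refine h4.congr fun n F => ?_
  rfl

theorem comp_sttfn (hγ : Computable γ) (hc : Computable cmd) :
    Computable (fun τ : List ℕ => stt γ cmd (fn τ) τ.length) := by
  have h1 := (recF_stt hγ hc).subst (α := List ℕ) (ψ := fun τ _ => τ.length)
    (RecF.of_computable Computable.list_length) (Ψ := fun τ _ => fn τ)
    (RecF.of_computable ((Primrec.list_getD 0).to_comp.comp Computable.fst Computable.snd))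
  exact comp_of_recF h1 fun a F => rfl

theorem comp_mvs : Computable mvs := by
  have h : Primrec₂ (fun (_ : List ℕ) (y : ℕ) => ofNat Mv y.unpair.2) :=
    (Primrec.ofNat Mv).comp (Primrec.snd.comp (Primrec.unpair.comp Primrec.snd))
  exact (Primrec.list_map (f := fun w : List ℕ => w) Primrec.id h).to_comp

theorem comp_lst : Computable lst := by
  have h1 : Primrec₂ (fun (_ : List Mv × Mv) (y : List ℕ ⊕ ℕ) =>
      (Sum.casesOn y (fun τ => τ) (fun _ => []) : List ℕ)) := by
    refine Primrec.sumCasesOn (α := (List Mv × Mv) × (List ℕ ⊕ ℕ)) (f := fun z => z.2)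
      (g := fun _ τ => τ) (h := fun _ _ => []) Primrec.snd Primrec.snd (Primrec.const [])
  have h2 : Primrec₂ (fun (_ : List Mv) (m : Mv) =>
      (Option.casesOn m [] (fun y => (Sum.casesOn y (fun τ => τ) (fun _ => []) : List ℕ)) :
        List ℕ)) :=
    Primrec.option_casesOn (α := List Mv × Mv) (o := fun x => x.2) (f := fun _ => [])
      Primrec.snd (Primrec.const []) h1
  have h3 := Primrec.option_casesOn (α := List Mv) (o := fun w => w.reverse.head?)
    (f := fun _ => ([] : List ℕ)) (Primrec.list_head?.comp Primrec.list_reverse)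
    (Primrec.const []) h2
  refine (h3.to_comp.comp comp_mvs).of_eq fun σ => ?_
  unfold lst
  rw [List.getLast?_eq_head?_reverse]
  rcases (mvs σ).reverse.head? with _ | _ | s | j <;> rfl

theorem comp_gm2 (hγ : Computable γ) (hv : Computable vis) (hc : Computable cmd) :
    Computable (gm2 γ vis cmd) := by
  have h1 : Computable (fun σ : List ℕ => stt γ cmd (fn (lst σ)) (lst σ).length) :=
    (comp_sttfn hγ hc).comp comp_lst
  have h2 : ComputablePred (fun σ : List ℕ =>
      (stt γ cmd (fn (lst σ)) (lst σ).length).1 = (lst σ).length ∧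
      (stt γ cmd (fn (lst σ)) (lst σ).length).2.2 = mvs σ ∧
      (σ.take (lst σ).length).map (fun y => y.unpair.1) = (lst σ).map vis) := by
    refine MP_8c048d_lc.e3_cp_and ?_ (MP_8c048d_lc.e3_cp_and ?_ ?_)
    · exact MP_8c048d_lc.e3_cp_eq (Computable.fst.comp h1) (Computable.list_length.comp comp_lst)
    · exact MP_8c048d_lc.e3_cp_eq (Computable.snd.comp (Computable.snd.comp h1)) comp_mvs
    · refine MP_8c048d_lc.e3_cp_eq ?_ ((comp_map hv).comp comp_lst)
      refine (comp_map (f := fun y => y.unpair.1) (Computable.fst.comp Computable.unpair)).comp ?_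
      exact Primrec.list_take.to_comp.comp (Computable.list_length.comp comp_lst) Computable.id
  obtain ⟨f, hf, e⟩ := MP_8c048d_lc.e3_cp_iff.1 h2
  refine (Computable.cond hf (Computable.fst.comp (Computable.snd.comp h1))
    (Computable.const 0)).of_eq fun σ => ?_
  unfold gm2 gmv
  by_cases h : f σ = true
  · rw [if_pos ((e σ).2 h), h]; rfl
  · rw [if_neg (fun h' => h ((e σ).1 h'))]
    rw [Bool.not_eq_true] at h
    rw [h]
    rfl

end layer

theorem comp_vl : Computable vl :=
  ((Primrec.ofNat (List ℕ)).comp (Primrec.fst.comp Primrec.unpair)).to_comp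

theorem comp_vsf (k : ℕ) : Computable (vsf k) :=
  Computable.encode.comp (Primrec.list_take.to_comp.comp (Computable.const (k + 1)) comp_vl)

theorem comp_cmf (k : ℕ) : Computable (cmf k) :=
  Computable.snd.comp (Computable.unpair.comp
    ((Primrec.list_getD 0).to_comp.comp comp_vl (Computable.const (k + 1))))

theorem comp_cer {γ : List ℕ → ℕ} (hγ : Computable γ) (K j : ℕ) : Computable (cer γ K j) := by
  induction j with
  | zero => exact hγ
  | succ j ih => exact comp_gm2 ih (comp_vsf _) (comp_cmf _)

theorem recF_lay {γ : List ℕ → ℕ} (hγ : Computable γ) (K j : ℕ) :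
    RecF (fun (p : ℕ) F => lay γ K j F p) := by
  induction j with
  | zero => exact RecF.at Computable.id
  | succ j ih =>
    have h1 := recF_XX (comp_cer hγ K j) (comp_vsf (K - (j + 1))) (comp_cmf (K - (j + 1)))
    have h2 := h1.subst (α := ℕ) (ψ := fun p _ => p) (RecF.of_computable Computable.id)
      (Ψ := fun _ F => lay γ K j F) (ih.comp₁ (f := fun x : ℕ × ℕ => x.2) Computable.snd)
    exact h2

/-- CMP. -/
theorem cmp : StCMP :=
  ⟨fun _ _ hγ hc => recF_stt hγ hc, fun _ _ _ hγ hv hc => ⟨recF_XX hγ hv hc, comp_gm2 hγ hv hc⟩,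
    fun k => ⟨comp_vsf k, comp_cmf k⟩, prim_run.to_comp,
    fun _ K j hγ => ⟨comp_cer hγ K j, recF_lay hγ K j⟩⟩

end Pool.Agent.Lib.MP_d48993_lc.Ind2
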