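import Pool.Agent.Lib.MP_d48993_lc.AE.Ind2.Lay

/-!
# Module IND2 (finding 4156), CRT: the certificate of a layer
-/

set_option autoImplicit false

namespace Pool.Agent.Lib.MP_d48993_lc.Ind2

open MP_8c048d_lc (pre join RecF Cop UR length_pre pre_take pre_congr)
open Encodable (encode)
open Denumerable (ofNat)

/-! ## Infinite legal texts -/

theorem mvo_none (L : List (List ℕ)) (U : List ℕ) : mvo (L, U) none = some (L, U) := rfl

theorem mvo_inl (L : List (List ℕ)) (U s : List ℕ) :
    mvo (L, U) (some (Sum.inl s)) = some (L ++ [s], U) := rfl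

theorem mvo_inr {L L' : List (List ℕ)} {U U' : List ℕ} {j : ℕ}
    (h : mvo (L, U) (some (Sum.inr j)) = some (L', U')) :
    j ∉ U ∧ L' = L.take j ∧ U' = j :: U.filter (fun i => decide (i < j)) := by
  have h1 : mvo (L, U) (some (Sum.inr j)) = if U.contains j then none
    else some (L.take j, j :: U.filter (fun i => decide (i < j))) := rfl
  rw [h1] at h
  split_ifs at h with hc
  · rw [Option.some.injEq, Prod.mk.injEq] at h
    exact ⟨fun hj => hc (List.contains_iff_mem.2 hj), h.1.symm, h.2.symm⟩

/-- One step of a legal text. -/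
theorem run_step {w : List Mv} {m : Mv} (h : (run (w ++ [m])).isSome = true) :
    ∃ L U, run w = some (L, U) ∧ run (w ++ [m]) = mvo (L, U) m := by
  obtain ⟨⟨L, U⟩, h1⟩ := Option.isSome_iff_exists.1 (run_prefix (List.prefix_append w [m]) h)
  refine ⟨L, U, h1, ?_⟩
  rw [run_append, h1, runs_cons, runs_nil]
  rfl

section text

variable {m : ℕ → Mv} (hm : ∀ p, (run ((List.range p).map m)).isSome = true)

include hm

theorem text_step (p : ℕ) : ∃ L U L' U', run ((List.range p).map m) = some (L, U) ∧
    run ((List.range (p + 1)).map m) = some (L', U') ∧ mvo (L, U) (m p) = some (L', U') := by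
  have h1 := hm (p + 1)
  rw [List.range_succ, List.map_append, List.map_singleton] at h1
  obtain ⟨L, U, h2, h3⟩ := run_step h1
  rw [h3] at h1
  obtain ⟨⟨L', U'⟩, h4⟩ := Option.isSome_iff_exists.1 h1
  refine ⟨L, U, L', U', h2, ?_, h4⟩
  rw [List.range_succ, List.map_append, List.map_singleton, h3, h4]

/-- FACT 1: every reopening occurs finitely often. -/
theorem fact1 (j : ℕ) : ∃ N, ∀ p ≥ N, ∀ i ≤ j, m p ≠ some (Sum.inr i) := by
  induction j using Nat.strong_induction_on with
  | _ j ih =>
    -- beyond `N` no `R i`, `i < j`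
    obtain ⟨N, hN⟩ : ∃ N, ∀ p ≥ N, ∀ i < j, m p ≠ some (Sum.inr i) := by
      rcases Nat.eq_zero_or_pos j with rfl | hj
      · exact ⟨0, fun p _ i hi => absurd hi (Nat.not_lt_zero i)⟩
      · obtain ⟨N, hN⟩ := ih (j - 1) (by omega)
        exact ⟨N, fun p hp i hi => hN p hp i (by omega)⟩
    by_cases hex : ∃ q ≥ N, m q = some (Sum.inr j)
    · obtain ⟨q, hq, hmq⟩ := hex
      -- `j` stays used
      have key : ∀ p ≥ q + 1, ∃ L U, run ((List.range p).map m) = some (L, U) ∧ j ∈ U := by
        intro p hp
        induction p, hp using Nat.le_induction with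
        | base =>
          obtain ⟨L, U, L', U', h1, h2, h3⟩ := text_step hm q
          refine ⟨L', U', h2, ?_⟩
          rw [hmq] at h3
          rw [(mvo_inr h3).2.2]
          exact List.mem_cons_self
        | succ p hp ih2 =>
          obtain ⟨L0, U0, h4, h5⟩ := ih2
          obtain ⟨L, U, L', U', h1, h2, h3⟩ := text_step hm p
          rw [h1, Option.some.injEq, Prod.mk.injEq] at h4
          obtain ⟨rfl, rfl⟩ := h4
          refine ⟨L', U', h2, ?_⟩
          match hp' : m p, h3 with
          | none, h3 =>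
            rw [mvo_none, Option.some.injEq, Prod.mk.injEq] at h3
            rw [← h3.2]; exact h5
          | some (Sum.inl s), h3 =>
            rw [mvo_inl, Option.some.injEq, Prod.mk.injEq] at h3
            rw [← h3.2]; exact h5
          | some (Sum.inr i), h3 =>
            have hi : ¬ i < j := fun hi => hN p (by omega) i hi hp'
            obtain ⟨hc, -, h6⟩ := mvo_inr h3
            have hij : i ≠ j := by
              rintro rfl
              exact hc h5
            rw [h6]
            refine List.mem_cons_of_mem _ (List.mem_filter.2 ⟨h5, ?_⟩)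
            simp only [decide_eq_true_eq]
            omega
      refine ⟨q + 1, fun p hp i hi hpi => ?_⟩
      rcases Nat.lt_or_eq_of_le hi with h | rfl
      · exact hN p (by omega) i h hpi
      · obtain ⟨L0, U0, h4, h5⟩ := key p hp
        obtain ⟨L, U, L', U', h1, h2, h3⟩ := text_step hm p
        rw [h1, Option.some.injEq, Prod.mk.injEq] at h4
        obtain ⟨rfl, rfl⟩ := h4
        rw [hpi] at h3
        exact (mvo_inr h3).1 h5
    · push Not at hex
      refine ⟨N, fun p hp i hi hpi => ?_⟩
      rcases Nat.lt_or_eq_of_le hi with h | rfl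
      · exact hN p hp i h hpi
      · exact hex p hp hpi

/-- The first levels are constant beyond some place, provided that they are closed infinitely
often. -/
theorem levels (j : ℕ) (hinf : ∀ N, ∃ p ≥ N, ∃ L U, run ((List.range p).map m) = some (L, U) ∧
      j ≤ L.length) :
    ∃ N S, S.length = j ∧ ∀ p ≥ N, ∃ L U, run ((List.range p).map m) = some (L, U) ∧
      L.take j = S := by
  rcases Nat.eq_zero_or_pos j with rfl | hj
  · refine ⟨0, [], rfl, fun p _ => ?_⟩
    obtain ⟨⟨L, U⟩, h⟩ := Option.isSome_iff_exists.1 (hm p)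
    exact ⟨L, U, h, rfl⟩
  obtain ⟨N, hN⟩ := fact1 hm (j - 1)
  obtain ⟨p0, hp0, L, U, h1, h2⟩ := hinf N
  refine ⟨p0, L.take j, by rw [List.length_take]; omega, fun p hp => ?_⟩
  -- the length stays at least `j`
  suffices h : ∃ L' U', run ((List.range p).map m) = some (L', U') ∧ L'.take j = L.take j ∧
      j ≤ L'.length by
    obtain ⟨L', U', h3, h4, -⟩ := h
    exact ⟨L', U', h3, h4⟩
  induction p, hp using Nat.le_induction with
  | base => exact ⟨L, U, h1, rfl, h2⟩
  | succ p hp ih =>
    obtain ⟨L1, U1, h3, h4, h5⟩ := ih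
    obtain ⟨L2, U2, L', U', h6, h7, h8⟩ := text_step hm p
    rw [h6, Option.some.injEq, Prod.mk.injEq] at h3
    obtain ⟨rfl, rfl⟩ := h3
    refine ⟨L', U', h7, ?_⟩
    match hp' : m p, h8 with
    | none, h8 =>
      rw [mvo_none, Option.some.injEq, Prod.mk.injEq] at h8
      rw [← h8.1]; exact ⟨h4, h5⟩
    | some (Sum.inl s), h8 =>
      rw [mvo_inl, Option.some.injEq, Prod.mk.injEq] at h8
      rw [← h8.1]
      refine ⟨?_, by simp; omega⟩
      rw [List.take_append_of_le_length h5, h4]
    | some (Sum.inr i), h8 =>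
      have hi : ¬ i ≤ j - 1 := fun hi => hN p (by omega) i hi hp'
      obtain ⟨-, h9, -⟩ := mvo_inr h8
      rw [h9]
      refine ⟨?_, by rw [List.length_take]; omega⟩
      rw [List.take_take, min_eq_left (by omega), h4]

end text

/-! ## The certificate -/

section cert

variable (γ : List ℕ → ℕ) (vis cmd : ℕ → ℕ)

theorem mvs_pre (Y : ℕ → ℕ) (p : ℕ) :
    mvs (pre Y p) = (List.range p).map fun q => ofNat Mv (Y q).unpair.2 := by
  unfold mvs pre
  rw [List.map_map]
  rfl

theorem fn_pre (F : ℕ → ℕ) (n i : ℕ) (h : i < n) : fn (pre F n) i = F i := getD_pre h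

/-- The certificate is unbounded along the layer. -/
theorem crt_ub {F : ℕ → ℕ} (hF : Ub γ F) : Ub (gm2 γ vis cmd) (XX γ vis cmd F) := by
  intro i
  have hL := lay_facts γ cmd
  obtain ⟨n, h1, h2⟩ := hL.inf F hF (i + 1)
  obtain ⟨h3, h4, -⟩ := hL.last F n (by omega)
  have hm : mvs (pre (XX γ vis cmd F) (stt γ cmd F n).2.2.length) = (stt γ cmd F n).2.2 := by
    rw [mvs_pre]
    apply List.ext_getElem (by simp)
    intro q hq hq'
    rw [List.getElem_map, List.getElem_range]
    unfold XX
    rw [Nat.unpair_pair, Denumerable.ofNat_encode, hL.rrm F n q hq', List.getD_eq_getElem _ _ hq']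
  refine ⟨(stt γ cmd F n).2.2.length, ?_⟩
  rw [h1] at h3 h4
  have hlst : lst (pre (XX γ vis cmd F) (stt γ cmd F n).2.2.length) = pre F n := by
    unfold lst
    rw [hm, h4]
  have hst : stt γ cmd (fn (pre F n)) n = stt γ cmd F n :=
    (hL.loc _ _ n (fun i hi => fn_pre F n i hi)).1
  unfold gm2 gmv
  rw [hlst, length_pre, hst, hm, if_pos]
  · omega
  · refine ⟨h1, rfl, ?_⟩
    rw [pre_take, min_eq_left h3.le]
    unfold pre
    rw [List.map_map, List.map_map]
    apply List.map_congr_left
    intro q _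
    simp [XX]

/-- Along no other real the certificate is unbounded. -/
theorem crt_eq {F Y : ℕ → ℕ} (hF : ∀ X, Ub γ X → X = F) (hY : Ub (gm2 γ vis cmd) Y) :
    Y = XX γ vis cmd F := by
  have hL := lay_facts γ cmd
  -- the strings
  have hex : ∀ i, ∃ p, ∃ τ : List ℕ, i + 1 ≤ (stt γ cmd (fn τ) τ.length).2.1 ∧
      (stt γ cmd (fn τ) τ.length).1 = τ.length ∧
      (stt γ cmd (fn τ) τ.length).2.2 = (List.range p).map (fun q => ofNat Mv (Y q).unpair.2) ∧
      ((pre Y p).take τ.length).map (fun y => y.unpair.1) = τ.map vis := by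
    intro i
    obtain ⟨p, hp⟩ := hY (i + 1)
    refine ⟨p, lst (pre Y p), ?_⟩
    unfold gm2 gmv at hp
    split_ifs at hp with h
    · exact ⟨hp, h.1, by rw [h.2.1, mvs_pre], h.2.2⟩
    · omega
  choose P T h1 h2 h3 h4 using hex
  have hlen : ∀ i, i + 1 ≤ (T i).length := by
    intro i
    have := (hL.le (fn (T i)) (T i).length).2
    have := h1 i
    have := h2 i
    omega
  have hP : ∀ i, (T i).length < P i := by
    intro i
    have h5 := (hL.last (fn (T i)) (T i).length (by have := h1 i; omega)).1
    rw [h3 i, h2 i] at h5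
    simpa using h5
  -- the text is legal
  have hm : ∀ p, (run ((List.range p).map fun q => ofNat Mv (Y q).unpair.2)).isSome = true := by
    intro p
    obtain ⟨L, U, h5, -⟩ := hL.inv (fn (T p)) (T p).length
    rw [h3 p] at h5
    refine run_prefix (w := (List.range (P p)).map fun q => ofNat Mv (Y q).unpair.2) ?_ (by
      rw [h5]; rfl)
    have h6 : p ≤ P p := by have := hP p; have := hlen p; omega
    exact (List.IsPrefix.map (fun q => ofNat Mv (Y q).unpair.2)
      (by
        rw [List.prefix_iff_eq_take]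
        simp [List.take_range, h6]))
  -- the levels of the texts
  have hlev : ∀ i, ∃ L U, run ((List.range (P i)).map fun q => ofNat Mv (Y q).unpair.2) =
      some (L, U) ∧ i + 1 ≤ L.length ∧ ∀ j, ∀ h : j < L.length, ∃ a ≤ (T i).length,
        L[j] = pre (fn (T i)) a ∧
        stt γ cmd (fn (T i)) a = (a, j + 1, (stt γ cmd (fn (T i)) a).2.2) := by
    intro i
    obtain ⟨L, U, h5, h6, -, h7⟩ := hL.inv (fn (T i)) (T i).length
    rw [h3 i] at h5
    exact ⟨L, U, h5, by have := h1 i; omega, h7⟩
  -- the limits of the levels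
  have hlim : ∀ j, ∃ N S, S.length = j ∧ ∀ p ≥ N, ∃ L U,
      run ((List.range p).map fun q => ofNat Mv (Y q).unpair.2) = some (L, U) ∧
      L.take j = S := by
    intro j
    apply levels hm
    intro N
    obtain ⟨L, U, h5, h6, -⟩ := hlev (N + j)
    exact ⟨P (N + j), by have := hP (N + j); have := hlen (N + j); omega, L, U, h5, by omega⟩
  choose N S hS hNS using hlim
  -- the facts about the strings for large `i`
  obtain ⟨σ, hσ⟩ : ∃ σ : ℕ → List ℕ, ∀ j, ∃ i0, ∀ i ≥ i0, (σ j).length ≤ (T i).length ∧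
      σ j = pre (fn (T i)) (σ j).length ∧ stt γ cmd (fn (T i)) (σ j).length =
        ((σ j).length, j + 1, (stt γ cmd (fn (T i)) (σ j).length).2.2) := by
    refine ⟨fun j => (S (j + 1)).getD j [], fun j => ⟨N (j + 1) + j, fun i hi => ?_⟩⟩
    obtain ⟨L, U, h5, h6, h7⟩ := hlev i
    obtain ⟨L', U', h8, h9⟩ := hNS (j + 1) (P i) (by have := hP i; have := hlen i; omega)
    rw [h5, Option.some.injEq, Prod.mk.injEq] at h8
    obtain ⟨rfl, rfl⟩ := h8
    obtain ⟨a, ha, h10, h11⟩ := h7 j (by omega)
    have h12 : (S (j + 1)).getD j [] = pre (fn (T i)) a := by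
      rw [← h10, ← h9, List.getD_eq_getElem _ _ (by rw [List.length_take]; omega),
        List.getElem_take]
    simp only [h12, length_pre]
    exact ⟨ha, trivial, h11⟩
  have hσl : ∀ j, j + 1 ≤ (σ j).length := by
    intro j
    obtain ⟨i0, hi0⟩ := hσ j
    obtain ⟨-, -, h5⟩ := hi0 i0 le_rfl
    have h6 := (hL.le (fn (T i0)) (σ j).length).2
    rw [h5] at h6
    exact h6
  -- the union of the strings
  have hX : ∀ j, pre (fun q => (σ q).getD q 0) (σ j).length = σ j := by
    intro j
    apply List.ext_getElem (by rw [length_pre])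
    intro q hq hq'
    obtain ⟨i1, hi1⟩ := hσ j
    obtain ⟨i2, hi2⟩ := hσ q
    obtain ⟨-, h5, -⟩ := hi1 (max i1 i2) (le_max_left _ _)
    obtain ⟨-, h6, -⟩ := hi2 (max i1 i2) (le_max_right _ _)
    have e1 : (pre (fun q => (σ q).getD q 0) (σ j).length)[q] = (σ q).getD q 0 := by
      simp [pre]
    have e2 : ∀ (τ : List ℕ) (G : ℕ → ℕ), τ = pre G τ.length → q < τ.length →
        τ.getD q 0 = G q := by
      intro τ G h h'
      rw [h]
      exact getD_pre h'
    rw [e1, e2 _ _ h6 (hσl q), ← e2 _ _ h5 hq', List.getD_eq_getElem _ _ hq']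
  have hXF : (fun q => (σ q).getD q 0) = F := by
    apply hF
    intro i
    refine ⟨(σ i).length, ?_⟩
    rw [hX]
    obtain ⟨i1, hi1⟩ := hσ i
    obtain ⟨-, h5, h6⟩ := hi1 i1 le_rfl
    have h7 := (hL.last (fn (T i1)) (σ i).length (by rw [h6]; simp)).2.2
    rw [h6] at h7
    simp only at h7
    rw [← h5] at h7
    omega
  rw [hXF] at hX
  funext q
  obtain ⟨i1, hi1⟩ := hσ q
  obtain ⟨h5, h6, h7⟩ := hi1 i1 le_rfl
  have hq := hσl q
  have hag : ∀ i < (σ q).length, fn (T i1) i = F i := by
    intro i hi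
    have h8 : (σ q).getD i 0 = F i := by
      conv_lhs => rw [← hX q]
      exact getD_pre (by simpa using hi)
    rw [← h8]
    conv_rhs => rw [h6]
    exact (getD_pre (by simpa using hi)).symm
  have h8 := (hL.loc _ _ _ hag).1
  have h9 := hL.last F (σ q).length (by rw [← h8, h7]; simp)
  rw [← h8] at h9
  have h11 : (σ q).length < (stt γ cmd (fn (T i1)) (σ q).length).2.2.length := by
    have := h9.1
    rw [h7] at this
    exact this
  have h10 := hL.rrm F (σ q).length q (by rw [← h8]; omega)
  rw [← h8] at h10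
  -- the moves
  have h12 := (hL.mono (fn (T i1)) (σ q).length (T i1).length h5).2.2
  have hqP : q < P i1 := by have := hP i1; omega
  have h13 : rr γ cmd F q = ofNat Mv (Y q).unpair.2 := by
    rw [h10, ← getD_pfx h12 (by omega), h3 i1, List.getD_eq_getElem _ _ (by simpa using hqP)]
    simp
  -- the visible numbers
  have h14 : (Y q).unpair.1 = vis (F q) := by
    have h15 := congrArg (fun l : List ℕ => l[q]?) (h4 i1)
    simp only [List.getElem?_map] at h15
    rw [pre_take, min_eq_left (hP i1).le, MP_8c048d_lc.pre_getElem?, if_pos (by omega)] at h15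
    have h16 : (T i1)[q]? = some (F q) := by
      rw [← hag q (by omega)]
      unfold fn
      rw [List.getD_eq_getElem _ _ (by omega)]
      exact List.getElem?_eq_getElem _
    rw [h16] at h15
    simpa using h15
  unfold XX
  rw [h13, Denumerable.encode_ofNat, ← h14, Nat.pair_unpair]

/-- CRT. -/
theorem crt : StCRT := by
  intro γ vis cmd F hF Y
  constructor
  · exact crt_eq γ vis cmd fun X hX => (hF X).1 hX
  · rintro rfl
    exact crt_ub γ vis cmd ((hF F).2 rfl)

end cert

end Pool.Agent.Lib.MP_d48993_lc.Ind2
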