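import Pool.Agent.Lib.MP_d48993_lc.AE.Ind2.Jmp

/-!
# Module IND2 (finding 4156), part 2: the definitions and the statements of the parts
-/

set_option autoImplicit false

namespace Pool.Agent.Lib.MP_d48993_lc.Ind2

open MP_8c048d_lc (pre join RecF Cop UR length_pre pre_take)
open Encodable (encode)
open Denumerable (ofNat)

/-! ## Texts -/

/-- Moves: `none` is the null move, `some (inl s)` closes a level with the string `s`,
`some (inr j)` reopens the level `j`. -/
abbrev Mv : Type := Option (List ℕ ⊕ ℕ)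

/-- The effect of a move on a state (closed levels, used reopenings). -/
def mvo (p : List (List ℕ) × List ℕ) : Mv → Option (List (List ℕ) × List ℕ)
  | none => some p
  | some (Sum.inl s) => some (p.1 ++ [s], p.2)
  | some (Sum.inr j) =>
    if p.2.contains j then none
    else some (p.1.take j, j :: p.2.filter (fun i => decide (i < j)))

/-- The state of a text; `none` if the text is not legal. -/
def run (w : List Mv) : Option (List (List ℕ) × List ℕ) :=
  w.foldl (fun S m => S.bind fun p => mvo p m) (some ([], []))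

/-- The move is not a reopening of a level `≤ u`. -/
def okm (u : ℕ) : Mv → Bool
  | some (Sum.inr j) => decide (u < j)
  | _ => true

/-- The moves of the slot `u` with the command `c` after the text `s`. -/
def ex (c u : ℕ) (s : List Mv) : List Mv :=
  match ofNat (Option (List Mv)) c with
  | none => []
  | some w =>
    if w.all (okm u) && (run (s ++ (w ++ [some (Sum.inr u)]))).isSome
    then w ++ [some (Sum.inr u)] else []

/-! ## One layer -/

section layer

variable (γ : List ℕ → ℕ) (vis cmd : ℕ → ℕ)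

/-- The step to the string `τ`, `r = (last stop, number of stops, text)`. -/
def stp (τ : List ℕ) (r : ℕ × ℕ × List Mv) : ℕ × ℕ × List Mv :=
  if r.2.1 < γ τ then
    (τ.length, r.2.1 + 1,
      (r.2.2 ++ ex (cmd (τ.getD r.1 0)) r.2.1 r.2.2) ++
        (List.replicate (τ.length - (r.2.2 ++ ex (cmd (τ.getD r.1 0)) r.2.1 r.2.2).length) none ++
          [some (Sum.inl τ)]))
  else r

/-- `(last stop, number of stops, text)` after `n` symbols of `F`. -/
def stt (F : ℕ → ℕ) : ℕ → ℕ × ℕ × List Mv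
  | 0 => (0, 0, [])
  | n + 1 => stp γ cmd (pre F (n + 1)) (stt F n)

/-- The text after `n` symbols of `F`. -/
def txt (F : ℕ → ℕ) (n : ℕ) : List Mv :=
  if (stt γ cmd F n).1 < n then
    (stt γ cmd F n).2.2 ++ ex (cmd (F (stt γ cmd F n).1)) (stt γ cmd F n).2.1 (stt γ cmd F n).2.2
  else (stt γ cmd F n).2.2

/-- The text at the place `p`. -/
def rr (F : ℕ → ℕ) (p : ℕ) : Mv := (txt γ cmd F (p + 1)).getD p none

/-- The layer over `F`. -/
def XX (F : ℕ → ℕ) (p : ℕ) : ℕ := Nat.pair (vis (F p)) (encode (rr γ cmd F p))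

/-- The string as a function. -/
def fn (τ : List ℕ) : ℕ → ℕ := fun i => τ.getD i 0

/-- The moves of a string. -/
def mvs (σ : List ℕ) : List Mv := σ.map fun y => ofNat Mv y.unpair.2

/-- The value of the certificate of the layer if the last move closes with `τ`. -/
def gmv (σ τ : List ℕ) : ℕ :=
  if (stt γ cmd (fn τ) τ.length).1 = τ.length ∧ (stt γ cmd (fn τ) τ.length).2.2 = mvs σ ∧
      (σ.take τ.length).map (fun y => y.unpair.1) = τ.map vis
  then (stt γ cmd (fn τ) τ.length).2.1 else 0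

/-- The last string. -/
def lst (σ : List ℕ) : List ℕ :=
  match (mvs σ).getLast? with
  | some (some (Sum.inl τ)) => τ
  | _ => []

/-- The certificate of the layer. -/
def gm2 (σ : List ℕ) : ℕ := gmv γ vis cmd σ (lst σ)

end layer

/-- `γ` is unbounded along `Y`. -/
def Ub (γ : List ℕ → ℕ) (Y : ℕ → ℕ) : Prop := ∀ i, ∃ p, i ≤ γ (pre Y p)

/-- `F` is the only real along which `γ` is unbounded. -/
def Crt (γ : List ℕ → ℕ) (F : ℕ → ℕ) : Prop := ∀ Y, Ub γ Y ↔ Y = F

/-! ## The columns -/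

/-- The entry of the column `j` of the object `l`. -/
def ent (y l j : ℕ) : ℕ := ((ofNat (List (List ℕ)) y).getD l []).getD j 0

/-- The number with given entries. -/
def mk (n K : ℕ) (f : ℕ → ℕ → ℕ) : ℕ :=
  encode ((List.range n).map fun l => (List.range (K + 1)).map fun j => f l j)

/-- The symbol of the top layer. -/
def top (K : ℕ) (z : ℕ → ℕ) (l y : ℕ) : ℕ :=
  Nat.pair (encode (ent y l 0 :: (List.range K).map fun j =>
    Nat.pair (z (j + 1)) (ent y l (j + 1)))) 0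

/-- The list of the visible numbers of a symbol. -/
def vl (y : ℕ) : List ℕ := ofNat (List ℕ) y.unpair.1

/-- What the layer `k` shows of a symbol of the layer `k + 1`. -/
def vsf (k y : ℕ) : ℕ := encode ((vl y).take (k + 1))

/-- The command for the layer `k`. -/
def cmf (k y : ℕ) : ℕ := ((vl y).getD (k + 1) 0).unpair.2

section tower

variable (γ : List ℕ → ℕ) (K : ℕ)

/-- The certificate of the layer `K - j`. -/
def cer : ℕ → List ℕ → ℕ
  | 0 => γ
  | j + 1 => gm2 (cer j) (vsf (K - (j + 1))) (cmf (K - (j + 1)))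

/-- The layer `K - j` over the top layer `F`. -/
def lay : ℕ → (ℕ → ℕ) → ℕ → ℕ
  | 0 => fun F => F
  | j + 1 => fun F => XX (cer γ K j) (vsf (K - (j + 1))) (cmf (K - (j + 1))) (lay j F)

end tower

/-- The top layer of the object `l`. -/
noncomputable def TT (K l : ℕ) (G : ℕ → ℕ) : ℕ → ℕ := fun p => top K (fun j => Z j p) l (G p)

/-- The layer `k` of the object `l`, over the master function `G`. -/
noncomputable def XL (γ : ℕ → List ℕ → ℕ) (K l k : ℕ) (G : ℕ → ℕ) : ℕ → ℕ :=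
  lay (γ l) K (K - k) (TT K l G)

/-- `G` is `1`-generic over `A`. -/
def Gen (A G : ℕ → ℕ) : Prop :=
  ∀ S : List ℕ → Prop, Sg A S → ∃ k, S (pre G k) ∨ ∀ σ, pre G k <+: σ → ¬ S σ

/-- `a` approximates `G` over `A`. -/
def Apx (a : ℕ × ℕ → (ℕ → ℕ) → ℕ) (A G : ℕ → ℕ) : Prop :=
  RecF a ∧ ∀ q, ∃ s0, ∀ s ≥ s0, a (s, q) A = G q

/-- The join of the layers `k` of the objects in the list `I`. -/
def Jn (X : ℕ → ℕ → ℕ → ℕ) (I : List ℕ) (k : ℕ) : ℕ → ℕ :=
  fun p => encode (I.map fun l => X l k p)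

/-- What an object knows about the others: everything except its first column. -/
noncomputable def YY (n K l : ℕ) (G : ℕ → ℕ) : ℕ → ℕ := fun p =>
  Nat.pair (Z K p) (mk n K fun l' j => if l' = l ∧ j = 0 then 0 else ent (G p) l' j)

/-! ## The statements -/

/-- GNR: relative generics which are computable in the limit. -/
def StGNR : Prop := ∀ A : ℕ → ℕ, ∃ (a : ℕ × ℕ → (ℕ → ℕ) → ℕ) (G : ℕ → ℕ), Apx a A G ∧ Gen A G

/-- CMP: computability. -/
def StCMP : Prop :=
  (∀ (γ : List ℕ → ℕ) (cmd : ℕ → ℕ), Computable γ → Computable cmd →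
    RecF (fun (n : ℕ) F => stt γ cmd F n)) ∧
  (∀ (γ : List ℕ → ℕ) (vis cmd : ℕ → ℕ), Computable γ → Computable vis → Computable cmd →
    RecF (fun (p : ℕ) F => XX γ vis cmd F p) ∧ Computable (gm2 γ vis cmd)) ∧
  (∀ k, Computable (vsf k) ∧ Computable (cmf k)) ∧
  Computable (fun w : List Mv => run w) ∧
  (∀ (γ : List ℕ → ℕ) (K j : ℕ), Computable γ →
    Computable (cer γ K j) ∧ RecF (fun (p : ℕ) F => lay γ K j F p))

/-- TOP: the certificate of the top layer. -/
def StTOP : Prop := ∀ (K l : ℕ) (a : ℕ × ℕ → (ℕ → ℕ) → ℕ) (G : ℕ → ℕ), Apx a (Z K) G →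
  ∃ γ : List ℕ → ℕ, Computable γ ∧ Crt γ (TT K l G)

/-- CRT: the certificate of a layer. -/
def StCRT : Prop := ∀ (γ : List ℕ → ℕ) (vis cmd : ℕ → ℕ) (F : ℕ → ℕ),
  Crt γ F → Crt (gm2 γ vis cmd) (XX γ vis cmd F)

/-- NONE: stops with the command none. -/
def StNONE : Prop := ∀ (n K : ℕ) (γ : ℕ → List ℕ → ℕ) (G : ℕ → ℕ), (∀ l, Computable (γ l)) →
  Gen (Z K) G → (∀ l < n, Crt (γ l) (TT K l G)) → ∀ l < n, ∀ k < K, ∀ k0, ∃ p ≥ k0,
    (stt (cer (γ l) K (K - (k + 1))) (cmf k) (XL γ K l (k + 1) G) p).1 = p ∧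
    cmf k (XL γ K l (k + 1) G p) = 0

/-- JL: the jump lemma. -/
def StJL : Prop := ∀ (n K : ℕ) (γ : ℕ → List ℕ → ℕ) (G : ℕ → ℕ), (∀ l, Computable (γ l)) →
  Gen (Z K) G → (∀ l < n, Crt (γ l) (TT K l G)) → ∀ k < K, ∀ I : List ℕ, I ≠ [] →
    (∀ l ∈ I, l < n) →
    Red (J (Jn (fun l k => XL γ K l k G) I k)) (Jn (fun l k => XL γ K l k G) I (k + 1))

/-- VL: individual genericity. -/
def StVL : Prop := ∀ (n K : ℕ) (G : ℕ → ℕ), Gen (Z K) G → ∀ l < n,
  Gen (YY n K l G) (fun p => ent (G p) l 0)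

/-- The lemma on independent truths (IND). -/
def StIND : Prop := ∀ n K : ℕ, ∃ (X : ℕ → ℕ → ℕ → ℕ) (x Y : ℕ → ℕ → ℕ)
    (ρ : ℕ → ℕ → List ℕ → ℕ) (f : ℕ → ℕ) (θ : ℕ → ℕ → List ℕ → (ℕ → ℕ) → ℕ),
  Computable f ∧
  (∀ l < n, ∀ k ≤ K,
    (Computable (ρ l k) ∧ (∀ σ τ, σ <+: τ → ρ l k σ ≤ ρ l k τ) ∧ Crt (ρ l k) (X l k)) ∧
    (∀ p, f (X l k p) = x l p) ∧ Red (Z k) (X l k) ∧ (k < K → Red (X l k) (X l (k + 1))) ∧
    (RecF (θ l k) ∧ ∀ p, X l k p = θ l k (pre (x l) (p + 1)) (Y l))) ∧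
  (∀ k < K, ∀ I : List ℕ, I ≠ [] → (∀ l ∈ I, l < n) → Red (J (Jn X I k)) (Jn X I (k + 1))) ∧
  (∀ l < n, Gen (Y l) (x l) ∧ Red (Z K) (Y l) ∧ ∀ l' < n, l' ≠ l → ∀ k ≤ K, Red (X l' k) (Y l))

end Pool.Agent.Lib.MP_d48993_lc.Ind2
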