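import Pool.Agent.Lib.MP_d48993_lc.AE.Ind2.Dfs

/-!
# Module IND2: relative generics which are computable in the limit (GNR)
-/

set_option autoImplicit false

namespace Pool.Agent.Lib.MP_d48993_lc.Ind2

open MP_8c048d_lc (pre join RecF Cop UR length_pre pre_take)
open Encodable (encode)

namespace GNR

/-- The string with number `p.unpair.1`. -/
def strg (p : ℕ) : List ℕ := (Encodable.decode (α := List ℕ) p.unpair.1).getD []

/-- The test for the universal relation. -/
noncomputable def urb : ℕ × ℕ × ℕ → (ℕ → ℕ) → Bool := cop_UR.choose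

theorem urb_rec : RecF urb := cop_UR.choose_spec.1

theorem urb_iff (e n k : ℕ) (A : ℕ → ℕ) : urb (e, n, k) A = true ↔ UR e n (pre A k) :=
  (cop_UR.choose_spec.2 (e, n, k) A).symm

/-- `p` is a witness for an extension of `σ` in the `e`-th set. -/
noncomputable def good (A : ℕ → ℕ) (e : ℕ) (σ : List ℕ) (p : ℕ) : Bool :=
  decide ((strg p).take σ.length = σ) && urb (e, encode (strg p), p.unpair.2) A

/-- The choice of the first witness. -/
def cmb (x : Bool × ℕ × Option ℕ) : Option ℕ := x.2.2 <|> (bif x.1 then some x.2.1 else none)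

/-- The first witness below `s`. -/
noncomputable def fnd (A : ℕ → ℕ) (e : ℕ) (σ : List ℕ) (s : ℕ) : Option ℕ :=
  Nat.rec (motive := fun _ => Option ℕ) none (fun k r => cmb (good A e σ k, k, r)) s

/-- The next string, before the entry `0` is added. -/
noncomputable def nxt (A : ℕ → ℕ) (s e : ℕ) (σ : List ℕ) : List ℕ :=
  ((fnd A e σ s).map strg).getD σ

/-- The stages. -/
noncomputable def st (A : ℕ → ℕ) (s e : ℕ) : List ℕ :=
  Nat.rec (motive := fun _ => List ℕ) [] (fun k r => nxt A s k r ++ [0]) e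

theorem st_succ (A : ℕ → ℕ) (s e : ℕ) : st A s (e + 1) = nxt A s e (st A s e) ++ [0] := rfl

theorem strg_prim : Primrec strg :=
  Primrec.option_getD.comp (Primrec.decode.comp (Primrec.fst.comp Primrec.unpair))
    (Primrec.const [])

theorem cmb_prim : Primrec cmb :=
  Primrec.option_orElse.comp (Primrec.snd.comp Primrec.snd)
    (Primrec.cond Primrec.fst (Primrec.option_some.comp (Primrec.fst.comp Primrec.snd))
      (Primrec.const none))

theorem good_rec : RecF (fun (x : (ℕ × List ℕ) × ℕ) A => good A x.1.1 x.1.2 x.2) := by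
  have h1 : Primrec (fun x : (ℕ × List ℕ) × ℕ => (strg x.2).take x.1.2.length) :=
    Primrec.list_take.comp (Primrec.list_length.comp (Primrec.snd.comp Primrec.fst))
      (strg_prim.comp Primrec.snd)
  have h2 : PrimrecPred (fun x : (ℕ × List ℕ) × ℕ => (strg x.2).take x.1.2.length = x.1.2) :=
    PrimrecRel.comp Primrec.eq h1 (Primrec.snd.comp Primrec.fst)
  have h4 : Primrec (fun x : (ℕ × List ℕ) × ℕ =>
      decide ((strg x.2).take x.1.2.length = x.1.2)) := by
    obtain ⟨_, h⟩ := h2
    exact Primrec.of_eq h fun x => by congr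
  have h5 : RecF (fun (x : (ℕ × List ℕ) × ℕ) A =>
      urb (x.1.1, encode (strg x.2), x.2.unpair.2) A) := by
    refine urb_rec.comp₁ (f := fun x : (ℕ × List ℕ) × ℕ =>
      (x.1.1, encode (strg x.2), x.2.unpair.2)) ?_
    exact (Computable.fst.comp Computable.fst).pair
      ((Computable.encode.comp (strg_prim.to_comp.comp Computable.snd)).pair
        (Computable.snd.comp (Computable.unpair.comp Computable.snd)))
  exact RecF.comp (g := fun y : Bool × Bool => y.1 && y.2) (Primrec.and.to_comp.comp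
    Computable.fst Computable.snd) ((RecF.of_computable h4.to_comp).pair h5)

theorem fnd_rec : RecF (fun (x : (ℕ × List ℕ) × ℕ) A => fnd A x.1.1 x.1.2 x.2) := by
  have h1 : RecF (fun (_ : ℕ × List ℕ) (_ : ℕ → ℕ) => (none : Option ℕ)) :=
    RecF.of_computable (Computable.const none)
  have h2 : RecF (fun (x : (ℕ × List ℕ) × ℕ × Option ℕ) A =>
      cmb (good A x.1.1 x.1.2 x.2.1, x.2.1, x.2.2)) := by
    refine RecF.comp cmb_prim.to_comp (RecF.pair ?_ (RecF.of_computable ?_))
    · exact good_rec.comp₁ (f := fun x : (ℕ × List ℕ) × ℕ × Option ℕ => (x.1, x.2.1))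
        (Computable.fst.pair (Computable.fst.comp Computable.snd))
    · exact (Computable.fst.comp Computable.snd).pair (Computable.snd.comp Computable.snd)
  exact RecF.natRec h1 h2

theorem nxt_rec : RecF (fun (x : ℕ × ℕ × List ℕ) A => nxt A x.1 x.2.1 x.2.2) := by
  have h1 : RecF (fun (x : ℕ × ℕ × List ℕ) A => fnd A x.2.1 x.2.2 x.1) :=
    fnd_rec.comp₁ (f := fun x : ℕ × ℕ × List ℕ => ((x.2.1, x.2.2), x.1))
      ((((Computable.fst.comp Computable.snd).pair (Computable.snd.comp Computable.snd))).pair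
        Computable.fst)
  refine RecF.comp (g := fun y : Option ℕ × List ℕ => (y.1.map strg).getD y.2) ?_
    (h1.pair (RecF.of_computable (Computable.snd.comp Computable.snd)))
  exact (Primrec.option_getD.comp (Primrec.option_map Primrec.fst
    ((strg_prim.comp Primrec.snd).to₂)) Primrec.snd).to_comp

theorem st_rec : RecF (fun (x : ℕ × ℕ) A => st A x.1 x.2) := by
  have h1 : RecF (fun (_ : ℕ) (_ : ℕ → ℕ) => ([] : List ℕ)) :=
    RecF.of_computable (Computable.const [])
  have h2 : RecF (fun (x : ℕ × ℕ × List ℕ) A => nxt A x.1 x.2.1 x.2.2 ++ [0]) :=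
    RecF.comp (g := fun y : List ℕ => y ++ [0])
      (Primrec.list_concat.comp Primrec.id (Primrec.const 0)).to_comp nxt_rec
  exact RecF.natRec h1 h2

/-! ### Behaviour of `nxt` -/

variable {A : ℕ → ℕ}

theorem good_iff (e : ℕ) (σ : List ℕ) (p : ℕ) : good A e σ p = true ↔ σ <+: strg p ∧
    UR e (encode (strg p)) (pre A p.unpair.2) := by
  unfold good
  rw [Bool.and_eq_true, decide_eq_true_iff, List.prefix_iff_eq_take, eq_comm (a := σ), urb_iff]

theorem fnd_succ (e : ℕ) (σ : List ℕ) (s : ℕ) :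
    fnd A e σ (s + 1) = (fnd A e σ s <|> (bif good A e σ s then some s else none)) := rfl

theorem fnd_good {s e p : ℕ} {σ : List ℕ} (h : fnd A e σ s = some p) : good A e σ p = true := by
  induction s with
  | zero => cases h
  | succ s ih =>
    rw [fnd_succ] at h
    cases h1 : fnd A e σ s with
    | some q =>
      rw [h1] at h
      exact ih (by rw [h1]; exact h)
    | none =>
      rw [h1] at h
      cases h2 : good A e σ s with
      | true =>
        rw [h2] at h
        have h3 : s = p := Option.some.inj h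
        rw [← h3]; exact h2
      | false => rw [h2] at h; cases h

theorem fnd_none {s e : ℕ} {σ : List ℕ} (h : ∀ p < s, good A e σ p = false) :
    fnd A e σ s = none := by
  induction s with
  | zero => rfl
  | succ s ih =>
    rw [fnd_succ, ih fun p hp => h p (by omega), h s (Nat.lt_succ_self s)]
    rfl

theorem fnd_some {s e p : ℕ} {σ : List ℕ} (h : ∀ q < p, good A e σ q = false)
    (hp : good A e σ p = true) (hs : p < s) : fnd A e σ s = some p := by
  induction s with
  | zero => omega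
  | succ s ih =>
    rw [fnd_succ]
    rcases Nat.lt_succ_iff_lt_or_eq.1 hs with h1 | h1
    · rw [ih h1]; rfl
    · rw [← h1, fnd_none h, hp]; rfl

theorem nxt_prefix (s e : ℕ) (σ : List ℕ) : σ <+: nxt A s e σ := by
  unfold nxt
  cases h : fnd A e σ s with
  | none => exact List.prefix_rfl
  | some p => exact ((good_iff _ _ _).1 (fnd_good h)).1

/-- The limit of `nxt`. -/
theorem nxt_lim (e : ℕ) (σ : List ℕ) : ∃ τ : List ℕ, (∃ s0, ∀ s ≥ s0, nxt A s e σ = τ) ∧
    (Ex e (encode τ) A ∨ (τ = σ ∧ ∀ ρ, σ <+: ρ → ¬ Ex e (encode ρ) A)) := by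
  by_cases h : ∃ p, good A e σ p = true
  · refine ⟨strg (Nat.find h), ⟨Nat.find h + 1, fun s hs => ?_⟩, Or.inl ?_⟩
    · unfold nxt
      rw [fnd_some (p := Nat.find h) (fun j hj => by simpa using Nat.find_min h hj)
        (Nat.find_spec h) (by omega)]
      rfl
    · exact ⟨_, ((good_iff _ _ _).1 (Nat.find_spec h)).2⟩
  · refine ⟨σ, ⟨0, fun s _ => ?_⟩, Or.inr ⟨rfl, ?_⟩⟩
    · unfold nxt
      rw [fnd_none]
      · rfl
      · intro p _
        by_contra h1
        rw [Bool.not_eq_false] at h1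
        exact h ⟨p, h1⟩
    · rintro ρ hρ ⟨t, ht⟩
      apply h
      refine ⟨Nat.pair (encode ρ) t, (good_iff _ _ _).2 ?_⟩
      have h3 : strg (Nat.pair (encode ρ) t) = ρ := by
        unfold strg
        simp
      rw [h3, Nat.unpair_pair]
      exact ⟨hρ, ht⟩

/-- The limit of the stages. -/
theorem st_lim (A : ℕ → ℕ) (e : ℕ) : ∃ σ : List ℕ, ∃ s0, ∀ s ≥ s0, st A s e = σ := by
  induction e with
  | zero => exact ⟨[], 0, fun s _ => rfl⟩
  | succ e ih =>
    obtain ⟨σ, s0, h0⟩ := ih
    obtain ⟨τ, ⟨s1, h1⟩, -⟩ := nxt_lim (A := A) e σ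
    refine ⟨τ ++ [0], max s0 s1, fun s hs => ?_⟩
    rw [st_succ, h0 s (le_trans (le_max_left _ _) hs), h1 s (le_trans (le_max_right _ _) hs)]

/-- The `e`-th string. -/
noncomputable def sg (A : ℕ → ℕ) (e : ℕ) : List ℕ := (st_lim A e).choose

theorem sg_spec (e : ℕ) : ∃ s0, ∀ s ≥ s0, st A s e = sg A e := (st_lim A e).choose_spec

theorem sg_succ (e : ℕ) : ∃ τ, sg A (e + 1) = τ ++ [0] ∧ sg A e <+: τ ∧
    (Ex e (encode τ) A ∨ (τ = sg A e ∧ ∀ ρ, sg A e <+: ρ → ¬ Ex e (encode ρ) A)) := by
  obtain ⟨s0, h0⟩ := sg_spec (A := A) e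
  obtain ⟨s2, h2⟩ := sg_spec (A := A) (e + 1)
  obtain ⟨τ, ⟨s1, h1⟩, h3⟩ := nxt_lim (A := A) e (sg A e)
  have e1 := h0 (max s0 (max s1 s2)) (le_max_left _ _)
  have e2 := h1 (max s0 (max s1 s2)) (le_trans (le_max_left _ _) (le_max_right _ _))
  have e3 := h2 (max s0 (max s1 s2)) (le_trans (le_max_right _ _) (le_max_right _ _))
  refine ⟨τ, ?_, ?_, h3⟩
  · rw [← e3, st_succ, e1, e2]
  · rw [← e2]
    exact nxt_prefix _ _ _

theorem st_mono (s : ℕ) {e e' : ℕ} (h : e ≤ e') : st A s e <+: st A s e' := by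
  induction h with
  | refl => exact List.prefix_rfl
  | step _ ih =>
    rename_i m _
    rw [st_succ]
    exact ih.trans ((nxt_prefix _ _ _).trans (List.prefix_append _ _))

theorem st_len (s e : ℕ) : e ≤ (st A s e).length := by
  induction e with
  | zero => exact Nat.zero_le _
  | succ e ih =>
    rw [st_succ, List.length_append, List.length_singleton]
    have := (nxt_prefix (A := A) s e (st A s e)).length_le
    omega

theorem sg_mono {e e' : ℕ} (h : e ≤ e') : sg A e <+: sg A e' := by
  obtain ⟨s0, h0⟩ := sg_spec (A := A) e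
  obtain ⟨s1, h1⟩ := sg_spec (A := A) e'
  rw [← h0 (max s0 s1) (le_max_left _ _), ← h1 (max s0 s1) (le_max_right _ _)]
  exact st_mono _ h

theorem sg_len (e : ℕ) : e ≤ (sg A e).length := by
  obtain ⟨s0, h0⟩ := sg_spec (A := A) e
  rw [← h0 s0 le_rfl]
  exact st_len _ _

/-- The approximation. -/
noncomputable def ga (x : ℕ × ℕ) (A : ℕ → ℕ) : ℕ := (st A x.1 (x.2 + 1)).getD x.2 0

/-- The generic function. -/
noncomputable def gen (A : ℕ → ℕ) (n : ℕ) : ℕ := (sg A (n + 1)).getD n 0

theorem gen_eq {e n : ℕ} (h : n < (sg A e).length) : gen A n = (sg A e)[n] := by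
  unfold gen
  have h1 : n < (sg A (n + 1)).length := sg_len (n + 1)
  rw [List.getD_eq_getElem _ _ h1]
  rcases le_total e (n + 1) with h2 | h2
  · exact ((sg_mono h2).getElem h).symm
  · exact (sg_mono h2).getElem h1

theorem pre_gen (e : ℕ) : pre (gen A) (sg A e).length = sg A e := by
  apply List.ext_getElem
  · exact MP_8c048d_lc.length_pre _ _
  · intro n h1 h2
    have h3 := MP_8c048d_lc.pre_getElem? (gen A) (sg A e).length n
    rw [List.getElem?_eq_getElem h1, if_pos h2] at h3
    rw [Option.some.inj h3]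
    exact gen_eq h2

end GNR

open GNR in
/-- GNR. -/
theorem gnr : StGNR := by
  intro A
  refine ⟨ga, GNR.gen A, ⟨?_, fun q => ?_⟩, ?_⟩
  · refine RecF.comp (g := fun y : List ℕ × ℕ => y.1.getD y.2 0)
      ((Primrec.list_getD 0).comp Primrec.fst Primrec.snd).to_comp (RecF.pair ?_ (RecF.of_computable
        Computable.snd))
    exact st_rec.comp₁ (f := fun x : ℕ × ℕ => (x.1, x.2 + 1))
      (Computable.fst.pair (Computable.succ.comp Computable.snd))
  · obtain ⟨s0, h0⟩ := sg_spec (A := A) (q + 1)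
    refine ⟨s0, fun s hs => ?_⟩
    unfold ga GNR.gen
    rw [h0 s hs]
  · rintro S ⟨Q, hQ, e1⟩
    obtain ⟨e, he⟩ := hQ.index
    have hS : ∀ τ, S τ ↔ Ex e (encode τ) A := fun τ => (e1 τ).trans (he τ A)
    obtain ⟨τ, h2, h3, h4⟩ := sg_succ (A := A) e
    have h5 : pre (GNR.gen A) τ.length = τ := by
      have h6 := pre_gen (A := A) (e + 1)
      rw [h2] at h6
      have h7 := congrArg (List.take τ.length) h6
      rw [MP_8c048d_lc.pre_take, List.length_append, min_eq_left (by omega),
        List.take_left' rfl] at h7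
      exact h7
    refine ⟨τ.length, ?_⟩
    rw [h5]
    rcases h4 with h4 | ⟨h4, h6⟩
    · exact Or.inl ((hS τ).2 h4)
    · right
      intro ρ hρ hW'
      rw [h4] at hρ
      exact h6 ρ hρ ((hS ρ).1 hW')

end Pool.Agent.Lib.MP_d48993_lc.Ind2
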