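import Pool.Agent.Lib.MP_d48993_lc.AE.Ind2.Jl2

/-!
# Module IND2: the jump lemma
-/

set_option autoImplicit false

namespace Pool.Agent.Lib.MP_d48993_lc.Ind2

open MP_8c048d_lc (pre join RecF Cop UR length_pre pre_take pre_congr)
open Encodable (encode)
open Denumerable (ofNat)

/-- The fact, seen from a string. -/
theorem s1_S {γ : ℕ → List ℕ → ℕ} (hγ : ∀ l, Computable (γ l)) (K k : ℕ) (I : List ℕ) (e : ℕ) :
    S1 (fun (t : List ℕ) W => ∃ N, N ≤ t.length ∧ UR e.unpair.1 e.unpair.2
      ((List.range N).map fun p =>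
        encode (I.map fun l => lay (γ l) K (K - k) (TW K l W (fn t)) p))) := by
  refine S1.exN (P := fun t N W => N ≤ t.length ∧ UR e.unpair.1 e.unpair.2
      ((List.range N).map fun p =>
        encode (I.map fun l => lay (γ l) K (K - k) (TW K l W (fn t)) p))) (S1.ofCop ?_)
  refine Cop.and (Cop.of_computable ?_) ?_
  · exact ⟨fun _ => inferInstance, (PrimrecRel.decide Primrec.nat_le).to_comp.comp
      Computable.snd (Computable.list_length.comp Computable.fst)⟩
  · have h0 : RecF (fun (x : (List ℕ × ℕ) × ℕ) (_ : ℕ → ℕ) => fn x.1.1 x.2) := by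
      have e1 := comp_fn.comp ((Computable.fst.comp (Computable.fst (α := List ℕ × ℕ)
        (β := ℕ))).pair Computable.snd)
      exact RecF.of_computable e1
    have h1 := recF_I (α := (List ℕ × ℕ) × ℕ) (φ := fun l x W =>
      lay (γ l) K (K - k) (TW K l W (fn x.1.1)) x.2) (fun l =>
        recF_XW (α := List ℕ × ℕ) (hγ l) K l (K - k) (g := fun x p _ => fn x.1 p) h0) I
    have h2 := RecF.comp Computable.encode h1
    have h3 := recF_list (α := List ℕ × ℕ) (z := fun x p W =>
      encode (I.map fun l => lay (γ l) K (K - k) (TW K l W (fn x.1)) p)) h2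
      (k := fun x => x.2) Computable.snd
    have h4 := Cop.of_recF ((RecF.of_computable (α := List ℕ × ℕ) (Computable.const e)).pair h3)
      MP_8c048d_lc.e3_cp_UR
    exact h4

/-- The change of the master function. -/
def star (n K k : ℕ) (I : List ℕ) (k0 N' : ℕ) (G : ℕ → ℕ) (C ns : List ℕ)
    (Wm : List (List Mv)) : ℕ → ℕ := fun p =>
  if k0 ≤ p ∧ p < N' then mk n K fun l j =>
    if l ∈ I then
      (if j ≤ k then ent (fn C p) l j
      else if j = k + 1 ∧ p = ns.getD l 0 then encode (some (Wm.getD l []) : Option (List Mv))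
      else ent (G p) l j)
    else ent (G p) l j
  else G p

section star

variable {n K k : ℕ} {I : List ℕ} {k0 N' : ℕ} {G : ℕ → ℕ} {C ns : List ℕ} {Wm : List (List Mv)}

theorem star_lt {p : ℕ} (h : p < k0) : star n K k I k0 N' G C ns Wm p = G p := by
  unfold star
  rw [if_neg (by omega)]

theorem ent_star (hk : k < K) {p : ℕ} (h1 : k0 ≤ p) (h2 : p < N') {l : ℕ} (hl : l ∈ I) (hn : l < n)
    {j : ℕ} (hj : j ≤ k) :
    ent (star n K k I k0 N' G C ns Wm p) l j = ent (fn C p) l j := by
  unfold star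
  rw [if_pos ⟨h1, h2⟩, ent_mk hn (by omega), if_pos hl, if_pos hj]

theorem ent_star_cmd (hk : k < K) {l : ℕ} (hl : l ∈ I) (hn : l < n) (h1 : k0 ≤ ns.getD l 0)
    (h2 : ns.getD l 0 < N') :
    ent (star n K k I k0 N' G C ns Wm (ns.getD l 0)) l (k + 1) =
      encode (some (Wm.getD l []) : Option (List Mv)) := by
  unfold star
  rw [if_pos ⟨h1, h2⟩, ent_mk hn (by omega), if_pos hl, if_neg (by omega), if_pos ⟨rfl, rfl⟩]

theorem ent_star_low {l : ℕ} (hl : l ∈ I) (hn : l < n) {q : ℕ} (hq : q < ns.getD l 0)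
    (ha : ∀ j ≤ k, ent (fn C q) l j = ent (G q) l j) {j : ℕ} (hj : j ≤ K) :
    ent (star n K k I k0 N' G C ns Wm q) l j = ent (G q) l j := by
  unfold star
  split_ifs with h
  · rw [ent_mk hn hj, if_pos hl]
    split_ifs with h1 h2
    · exact ha j h1
    · omega
    · rfl
  · rfl

end star

/-- If the fact is false, some question is answered. -/
theorem ex_not {n K : ℕ} {γ : ℕ → List ℕ → ℕ} {G : ℕ → ℕ} (hγ : ∀ l, Computable (γ l))
    (hG : Gen (Z K) G) {k : ℕ} (hk : k < K)
    (hN : ∀ l < n, ∀ k0, ∃ p ≥ k0, (sX γ K k G l p).1 = p ∧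
      cmf k (XL γ K l (k + 1) G p) = 0) {I : List ℕ} (hI : ∀ l ∈ I, l < n) (e : ℕ)
    (hE : ¬ Ex e.unpair.1 e.unpair.2 (Jn (XG γ K G) I k)) :
    ∃ N ns, StN γ K k I G N ns ∧
      ¬ ∃ w : Wt, QM γ K k I (dat γ K k I G e N ns, w) (WK k) := by
  have hkey : ∀ (G' : ℕ → ℕ) (M N : ℕ), N ≤ M →
      ((List.range N).map fun p =>
        encode (I.map fun l => lay (γ l) K (K - k) (TW K l (WK K) (fn (pre G' M))) p)) =
      pre (Jn (XG γ K G') I k) N := by
    intro G' M N hNM
    show _ = (List.range N).map (Jn (XG γ K G') I k)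
    apply List.map_congr_left
    intro p hp
    rw [List.mem_range] at hp
    unfold Jn
    congr 1
    apply List.map_congr_left
    intro l _
    show _ = XL γ K l k G' p
    rw [lay_TW]
    apply XL_loc
    intro q hq j _
    rw [fn_prefix (by omega)]
  obtain ⟨k0, h | h⟩ := hG _ (sg_W (s1_S hγ K k I e) K)
  · exfalso
    obtain ⟨N, h1, h2⟩ := h
    rw [length_pre] at h1
    rw [hkey G k0 N h1] at h2
    exact hE ⟨N, h2⟩
  -- the stops
  have hN' : ∀ l, ∃ p, l < n → k0 ≤ p ∧ (sX γ K k G l p).1 = p ∧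
      cmf k (XL γ K l (k + 1) G p) = 0 := by
    intro l
    by_cases hl : l < n
    · obtain ⟨p, h1, h2⟩ := hN l hl k0
      exact ⟨p, fun _ => ⟨h1, h2⟩⟩
    · exact ⟨0, fun h => absurd h hl⟩
  choose pl hpl using hN'
  have hns : ∀ l ∈ I, ((List.range n).map pl).getD l 0 = pl l := fun l hl =>
    getD_range _ _ (hI l hl)
  set ns := (List.range n).map pl with hnsd
  refine ⟨ns.sum + k0 + 1, ns, ?_, ?_⟩
  · intro l hl
    rw [hns l hl]
    have h1 : pl l ≤ ns.sum := by
      apply List.single_le_sum (by simp)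
      rw [hnsd, List.mem_map]
      exact ⟨l, List.mem_range.2 (hI l hl), rfl⟩
    exact ⟨by omega, (hpl l (hI l hl)).2⟩
  set N := ns.sum + k0 + 1 with hNd
  have hst : ∀ l ∈ I, ns.getD l 0 < N ∧ k0 ≤ ns.getD l 0 ∧
      (sX γ K k G l (ns.getD l 0)).1 = ns.getD l 0 := by
    intro l hl
    rw [hns l hl]
    have h1 : pl l ≤ ns.sum := by
      apply List.single_le_sum (by simp)
      rw [hnsd, List.mem_map]
      exact ⟨l, List.mem_range.2 (hI l hl), rfl⟩
    exact ⟨by omega, (hpl l (hI l hl)).1, (hpl l (hI l hl)).2.1⟩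
  rintro ⟨⟨N', C, Wm⟩, ha, hb, hc, hd⟩
  have hb' : N ≤ N' := by
    have h1 : (pre (Jn (XG γ K G) I (k + 1)) N).length ≤ N' := hb
    rwa [length_pre] at h1
  -- the entries of the witness
  have ha' : ∀ p < N, ∀ l ∈ I, vw k (fun i => Z i p) l (fn C p) = vw k (fun i => Z i p) l (G p) := by
    intro p hp l hl
    have h1 : (List.range (pre (Jn (XG γ K G) I (k + 1)) N).length).map (fun p =>
        vW k I (dat γ K k I G e N ns, (N', C, Wm)) (WK k) p) =
        (List.range (pre (Jn (XG γ K G) I (k + 1)) N).length).map (fun p =>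
        vD k I (dat γ K k I G e N ns, (N', C, Wm)) p) := ha
    rw [length_pre] at h1
    have h2 := List.map_inj_left.1 h1 p (List.mem_range.2 hp)
    rw [vD_dat hk hp] at h2
    unfold vW at h2
    have h3 := List.map_inj_left.1 (Encodable.encode_injective h2) l hl
    have h4 := Encodable.encode_injective h3
    rw [vw_WK] at h4
    exact h4
  -- the new master function
  set G' := star n K k I k0 N' G C ns Wm with hG'
  apply h (pre G' (max N' k0))
  · exact pre_pfx_of (le_max_right _ _) fun q hq => (star_lt hq).symm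
  · refine ⟨N', ?_, ?_⟩
    · rw [length_pre]; exact le_max_left _ _
    · rw [hkey G' _ N' (le_max_left _ _)]
      have h1 : pre (Jn (XG γ K G') I k) N' = (List.range N').map fun p =>
          yW γ K k I (dat γ K k I G e N ns, (N', C, Wm)) (WK k) p := by
        show (List.range N').map (Jn (XG γ K G') I k) = _
        apply List.map_congr_left
        intro p hp
        rw [List.mem_range] at hp
        rw [Jn_eq hk]
        unfold yW
        simp only
        congr 1
        apply List.map_congr_left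
        intro l hl
        have hln := hI l hl
        obtain ⟨hs1, hs2, hs3⟩ := hst l hl
        -- the visible list
        have h2 : vw k (fun i => Z i p) l (G' p) = vw k (fun i => Z i p) l (fn C p) := by
          by_cases hp0 : k0 ≤ p
          · exact vw_congr (fun _ _ => rfl) fun j hj => ent_star hk hp0 hp hl hln hj
          · rw [hG', star_lt (by omega)]
            exact (ha' p (by omega) l hl).symm
        -- the state at the stop
        have h3 : ∀ q < ns.getD l 0, XL γ K l (k + 1) G' q = XL γ K l (k + 1) G q := by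
          intro q hq
          apply XL_loc
          intro i hi j hj
          exact ent_star_low hl hln (by omega) (fun j hj =>
            vw_ent (ha' i (by omega) l hl) hj) hj
        have h4 : sX γ K k G' l (ns.getD l 0) = sX γ K k G l (ns.getD l 0) :=
          ((lay_facts _ _).loc _ _ _ h3).1
        have h5 : cmf k (XL γ K l (k + 1) G' (ns.getD l 0)) =
            encode (some (Wm.getD l []) : Option (List Mv)) := by
          rw [cmf_XL γ hk]
          exact ent_star_cmd hk hl hln hs2 (by omega)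
        have hs := sD_dat (γ := γ) (K := K) (k := k) (G := G) hl (e := e) hs1
        obtain ⟨hc1, hc2, hc3⟩ := hc l hl
        have hc1' : (Wm.getD l []).all (okm (sX γ K k G l (ns.getD l 0)).2.1) = true := by
          rw [← hs]; exact hc1
        have htd : tD γ K k I l (dat γ K k I G e N ns, (N', C, Wm)) =
            (sX γ K k G l (ns.getD l 0)).2.2 ++ Wm.getD l [] := by
          unfold tD
          simp only
          rw [hs]
        rw [htd] at hc2 hc3
        have h6 := (lay_facts (cer (γ l) K (K - (k + 1))) (cmf k)).exe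
          (XL γ K l (k + 1) G') (ns.getD l 0) (Wm.getD l [])
        have h7 := (lay_facts (cer (γ l) K (K - (k + 1))) (cmf k)).slot
          (XL γ K l (k + 1) G') (ns.getD l 0) N' (by omega)
        have h4' : stt (cer (γ l) K (K - (k + 1))) (cmf k) (XL γ K l (k + 1) G')
            (ns.getD l 0) = sX γ K k G l (ns.getD l 0) := h4
        rw [h4'] at h6 h7
        rw [h5, h6 hc1' hc2] at h7
        have h8 := h7 hs3
        have h9 : (sX γ K k G l (ns.getD l 0)).2.2 ++ Wm.getD l [] <+:
            txt (cer (γ l) K (K - (k + 1))) (cmf k) (XL γ K l (k + 1) G') N' := by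
          refine List.IsPrefix.trans ?_ h8
          rw [← List.append_assoc]
          exact List.prefix_append _ _
        rw [h2, vw_WK, htd, (lay_facts _ _).rrt _ N' p (Or.inl hp), getD_pfx h9 (by
          have : N' ≤ ((sX γ K k G l (ns.getD l 0)).2.2 ++ Wm.getD l []).length := hc3
          omega)]
      rw [h1]
      exact hd

/-- The components are below the join. -/
theorem red_comp (X : ℕ → ℕ → ℕ → ℕ) {I : List ℕ} {l : ℕ} (hl : l ∈ I) (k : ℕ) :
    Red (X l k) (Jn X I k) := by
  have h := red1 _ (recF_cp (I.idxOf l)) (Jn X I k)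
  have e : (fun q => cp (I.idxOf l) (Jn X I k) q) = X l k := cp_Jn X hl k
  rw [e] at h
  exact h

/-- The lower join is below the upper join. -/
theorem red_Jn {K k : ℕ} {γ : ℕ → List ℕ → ℕ} (hγ : ∀ l, Computable (γ l)) (hk : k < K)
    (I : List ℕ) (G : ℕ → ℕ) : Red (Jn (XG γ K G) I k) (Jn (XG γ K G) I (k + 1)) := by
  have h1 : ∀ l, RecF (fun (p : ℕ) H => XX (cer (γ l) K (K - (k + 1))) (vsf k) (cmf k)
      (cp (I.idxOf l) H) p) := fun l =>
    (recF_XX (comp_cer (hγ l) K (K - (k + 1))) (comp_vsf k) (comp_cmf k)).subst (α := ℕ)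
      (ψ := fun p _ => p) (RecF.of_computable Computable.id)
      (Ψ := fun _ H => cp (I.idxOf l) H) ((recF_cp (I.idxOf l)).comp₁
        (f := fun x : ℕ × ℕ => x.2) Computable.snd)
  have h2 := RecF.comp Computable.encode (recF_I h1 I)
  have h3 := red1 _ h2 (Jn (XG γ K G) I (k + 1))
  have e : (fun p => encode (I.map fun l => XX (cer (γ l) K (K - (k + 1))) (vsf k) (cmf k)
      (cp (I.idxOf l) (Jn (XG γ K G) I (k + 1))) p)) = Jn (XG γ K G) I k := by
    funext p
    unfold Jn
    congr 1
    apply List.map_congr_left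
    intro l hl
    have h4 := cp_Jn (XG γ K G) hl (k + 1)
    unfold Jn at h4
    rw [h4]
    show _ = XL γ K l k G p
    rw [XL_succ γ hk]
  rw [e] at h3
  exact h3

/-- The stops are `Σ⁰₁` in the upper join. -/
def StH (γ : ℕ → List ℕ → ℕ) (K k : ℕ) (I : List ℕ) (H : ℕ → ℕ) (N : ℕ) (ns : List ℕ) : Prop :=
  ∀ l ∈ I, ns.getD l 0 < N ∧ (stt (cer (γ l) K (K - (k + 1))) (cmf k) (cp (I.idxOf l) H)
    (ns.getD l 0)).1 = ns.getD l 0 ∧ cmf k (cp (I.idxOf l) H (ns.getD l 0)) = 0

theorem cop_StH {γ : ℕ → List ℕ → ℕ} (hγ : ∀ l, Computable (γ l)) (K k : ℕ) (I : List ℕ) :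
    Cop (fun (c : ℕ × List ℕ) H => StH γ K k I H c.1 c.2) := by
  unfold StH
  refine cop_I (P := fun l (c : ℕ × List ℕ) H => c.2.getD l 0 < c.1 ∧
    (stt (cer (γ l) K (K - (k + 1))) (cmf k) (cp (I.idxOf l) H)
    (c.2.getD l 0)).1 = c.2.getD l 0 ∧ cmf k (cp (I.idxOf l) H (c.2.getD l 0)) = 0)
    (fun l => ?_) I
  have e0 : Computable (fun c : ℕ × List ℕ => c.2.getD l 0) :=
    (Primrec.list_getD 0).to_comp.comp Computable.snd (Computable.const l)
  refine Cop.and (Cop.of_computable ?_) (Cop.and ?_ ?_)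
  · exact ⟨fun _ => inferInstance, (PrimrecRel.decide Primrec.nat_lt).to_comp.comp e0
      Computable.fst⟩
  · have h1 := (recF_stt (comp_cer (hγ l) K (K - (k + 1))) (comp_cmf k)).subst (α := ℕ × List ℕ)
      (ψ := fun c _ => c.2.getD l 0) (RecF.of_computable e0)
      (Ψ := fun _ H => cp (I.idxOf l) H) ((recF_cp (I.idxOf l)).comp₁
        (f := fun x : (ℕ × List ℕ) × ℕ => x.2) Computable.snd)
    have h2 := (RecF.of_computable e0).pair h1
    have h3 := Cop.of_recF h2 (p := fun z : ℕ × ℕ × ℕ × List Mv => z.2.1 = z.1)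
      (MP_8c048d_lc.e3_cp_eq (Computable.fst.comp Computable.snd) Computable.fst)
    exact h3
  · have h1 := (recF_cp (I.idxOf l)).comp₁ e0
    have h2 := Cop.of_recF h1 (p := fun z : ℕ => cmf k z = 0)
      (MP_8c048d_lc.e3_cp_eq (comp_cmf k) (Computable.const 0))
    exact h2

/-- JL. -/
theorem jump_lemma (hC : StCRT) : StJL := by
  intro n K γ G hγ hG hT k hk I hne hI
  have hN := none_stops hC n K γ G hγ hG hT
  apply J_red_of
  · exact (Sg.ofS1 (s1_Ex.comp (f := fun p : ℕ => p.unpair) Computable.unpair) _).red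
      (red_Jn hγ hk I G)
  · -- the question
    have h1 : Sg (Jn (XG γ K G) I (k + 1)) (fun D : Dt => ¬ ∃ w : Wt, QM γ K k I (D, w) (WK k)) := by
      refine (Sg.ofS1 (s1_Q K k I hγ) (WK k)).jump.2.red ?_
      obtain ⟨l, hl⟩ := List.exists_mem_of_ne_nil I hne
      have e1 : Red (J (WK k)) (Z (k + 1)) := J_mono (red_WK k)
      exact (e1.trans (red_Z_XL γ (by omega : k + 1 ≤ K) G)).trans
        (red_comp (XG γ K G) hl (k + 1))
    obtain ⟨Q', hQ', e⟩ := h1
    refine ⟨fun p H => ∃ c : ℕ × List ℕ, StH γ K k I H c.1 c.2 ∧ Q' (p, pre H c.1, c.2) H, ?_, ?_⟩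
    · refine S1.ex (P := fun p (c : ℕ × List ℕ) H => StH γ K k I H c.1 c.2 ∧
        Q' (p, pre H c.1, c.2) H) (S1.and (S1.ofCop ?_) ?_)
      · exact (cop_StH hγ K k I).comp (f := fun x : ℕ × ℕ × List ℕ => x.2) Computable.snd
      · refine S1.bind (α := ℕ × ℕ × List ℕ) hQ' (ψ := fun x H => (x.1, pre H x.2.1, x.2.2)) ?_
        exact (RecF.of_computable Computable.fst).pair ((RecF.pre.comp₁
          (f := fun x : ℕ × ℕ × List ℕ => x.2.1) (Computable.fst.comp Computable.snd)).pair
            (RecF.of_computable (Computable.snd.comp Computable.snd)))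
    · intro p
      have hiff : ∀ N ns, StH γ K k I (Jn (XG γ K G) I (k + 1)) N ns ↔ StN γ K k I G N ns := by
        intro N ns
        unfold StH StN
        refine forall₂_congr fun l hl => ?_
        rw [cp_Jn (XG γ K G) hl]
        rfl
      constructor
      · intro hE
        obtain ⟨N, ns, h2, h3⟩ := ex_not hγ hG hk (fun l hl k0 => hN l hl k hk k0) hI p hE
        exact ⟨(N, ns), (hiff N ns).2 h2, (e _).1 h3⟩
      · rintro ⟨⟨N, ns⟩, h2, h3⟩
        exact not_ex hk hI ((hiff N ns).1 h2) ((e _).2 h3)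

end Pool.Agent.Lib.MP_d48993_lc.Ind2
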