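import Pool.Agent.Lib.MP_d48993_lc.AE.Ind2.Vl

/-!
# Module IND2: the certificate of the top layer (TOP)
-/

set_option autoImplicit false

namespace Pool.Agent.Lib.MP_d48993_lc.Ind2

open MP_8c048d_lc (pre join RecF Cop UR length_pre pre_take)
open Encodable (encode)
open Denumerable (ofNat)

namespace TOP

/-- The column `j` of a string. -/
def zz (t : List ℕ) (j e : ℕ) : ℕ := if j = 0 then 0 else ((vl (t.getD e 0)).getD j 0).unpair.1

/-- The column `j` as a string. -/
def zl (t : List ℕ) (j : ℕ) : List ℕ := (List.range t.length).map (zz t j)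

/-- The symbol of the top layer, the columns from a string. -/
def tp (K l : ℕ) (t : List ℕ) (e v : ℕ) : ℕ := top K (fun j => zz t j e) l v

theorem zz_prim : Primrec (fun x : (List ℕ × ℕ) × ℕ => zz x.1.1 x.1.2 x.2) := by
  refine Primrec.ite (Primrec.eq.comp (Primrec.snd.comp Primrec.fst) (Primrec.const 0))
    (Primrec.const 0) ?_
  have h1 : Primrec (fun x : (List ℕ × ℕ) × ℕ => x.1.1.getD x.2 0) :=
    (Primrec.list_getD 0).comp (Primrec.fst.comp Primrec.fst) Primrec.snd
  have h2 : Primrec (fun x : (List ℕ × ℕ) × ℕ => vl (x.1.1.getD x.2 0)) :=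
    (Primrec.ofNat (List ℕ)).comp (Primrec.fst.comp (Primrec.unpair.comp h1))
  exact Primrec.fst.comp (Primrec.unpair.comp ((Primrec.list_getD 0).comp h2
    (Primrec.snd.comp Primrec.fst)))

theorem zl_prim : Primrec (fun x : List ℕ × ℕ => zl x.1 x.2) := by
  refine Primrec.list_map (Primrec.list_range.comp (Primrec.list_length.comp Primrec.fst))
    (g := fun (x : List ℕ × ℕ) (e : ℕ) => zz x.1 x.2 e) ?_
  exact zz_prim

theorem tp_prim (K l : ℕ) : Primrec (fun x : (List ℕ × ℕ) × ℕ => tp K l x.1.1 x.1.2 x.2) := by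
  have h1 : Primrec (fun x : ((List ℕ × ℕ) × ℕ) × ℕ =>
      Nat.pair (zz x.1.1.1 (x.2 + 1) x.1.1.2) (ent x.1.2 l (x.2 + 1))) := by
    refine Primrec₂.natPair.comp ?_ ?_
    · have h0 : Primrec (fun x : ((List ℕ × ℕ) × ℕ) × ℕ => ((x.1.1.1, x.2 + 1), x.1.1.2)) :=
        Primrec.pair (Primrec.pair (Primrec.fst.comp (Primrec.fst.comp
        Primrec.fst)) (Primrec.succ.comp Primrec.snd)) (Primrec.snd.comp (Primrec.fst.comp
          Primrec.fst))
      have := zz_prim.comp h0
      exact this
    · exact VL.ent_prim.comp (Primrec.pair (Primrec.snd.comp Primrec.fst)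
        (Primrec.pair (Primrec.const l) (Primrec.succ.comp Primrec.snd)))
  have h2 : Primrec (fun x : (List ℕ × ℕ) × ℕ => (List.range K).map fun j =>
      Nat.pair (zz x.1.1 (j + 1) x.1.2) (ent x.2 l (j + 1))) :=
    Primrec.list_map (Primrec.const _) (g := fun (x : (List ℕ × ℕ) × ℕ) (j : ℕ) =>
      Nat.pair (zz x.1.1 (j + 1) x.1.2) (ent x.2 l (j + 1))) h1
  have h3 : Primrec (fun x : (List ℕ × ℕ) × ℕ => ent x.2 l 0) :=
    VL.ent_prim.comp (Primrec.pair Primrec.snd (Primrec.const (l, 0)))
  have h4 : Primrec (fun x : (List ℕ × ℕ) × ℕ => ent x.2 l 0 :: (List.range K).map fun j =>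
      Nat.pair (zz x.1.1 (j + 1) x.1.2) (ent x.2 l (j + 1))) := Primrec.list_cons.comp h3 h2
  exact Primrec₂.natPair.comp (Primrec.encode.comp h4) (Primrec.const 0)

/-- The condition on the columns. -/
def C1 (K : ℕ) (t : List ℕ) : Prop := ∀ e < t.length.unpair.1, ∀ j < K,
  (zz t (j + 1) e = 1 ∧ UR e.unpair.1 e.unpair.2 (zl t j)) ∨
    (zz t (j + 1) e = 0 ∧ ¬ UR e.unpair.1 e.unpair.2 (zl t j))

/-- The condition on the master function. -/
def C2 (q : (ℕ × ℕ) × List ℕ → Option ℕ) (K l : ℕ) (t : List ℕ) : Prop :=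
  ∀ e < t.length.unpair.1, (q ((t.length.unpair.2.unpair.1, e), zl t K)).map
    (fun v => tp K l t e v) = some (t.getD e 0)

/-- The condition at one place. -/
def C0 (x : (List ℕ × ℕ) × ℕ) : Prop :=
  (zz x.1.1 (x.2 + 1) x.1.2 = 1 ∧ UR x.1.2.unpair.1 x.1.2.unpair.2 (zl x.1.1 x.2)) ∨
    (zz x.1.1 (x.2 + 1) x.1.2 = 0 ∧ ¬ UR x.1.2.unpair.1 x.1.2.unpair.2 (zl x.1.1 x.2))

/-- The universal relation on pairs. -/
def UU (x : ℕ × List ℕ) : Prop := UR x.1.unpair.1 x.1.unpair.2 x.2

theorem UU_comp : ComputablePred UU := MP_8c048d_lc.e3_cp_UR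

theorem C0_comp : ComputablePred C0 := by
  have hz0 : Computable (fun x : (List ℕ × ℕ) × ℕ => ((x.1.1, x.2 + 1), x.1.2)) :=
    (Computable.pair (Computable.fst.comp Computable.fst)
      (Computable.succ.comp Computable.snd)).pair (Computable.snd.comp Computable.fst)
  have hz : Computable (fun x : (List ℕ × ℕ) × ℕ => zz x.1.1 (x.2 + 1) x.1.2) := by
    have := Computable.comp (g := fun x : (List ℕ × ℕ) × ℕ => ((x.1.1, x.2 + 1), x.1.2))
      zz_prim.to_comp hz0
    exact this
  have hx : Computable (fun x : (List ℕ × ℕ) × ℕ => (x.1.1, x.2)) :=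
    (Computable.fst.comp Computable.fst).pair Computable.snd
  have hy : Computable (fun x : (List ℕ × ℕ) × ℕ => zl x.1.1 x.2) := by
    have := Computable.comp (g := fun x : (List ℕ × ℕ) × ℕ => (x.1.1, x.2)) zl_prim.to_comp hx
    exact this
  have hf : Computable (fun x : (List ℕ × ℕ) × ℕ => (x.1.2, zl x.1.1 x.2)) :=
    (Computable.snd.comp Computable.fst).pair hy
  have hU : ComputablePred (fun x : (List ℕ × ℕ) × ℕ => UU (x.1.2, zl x.1.1 x.2)) :=
    MP_8c048d_lc.e3_cp_comp UU_comp hf
  exact MP_8c048d_lc.e3_cp_or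
      (MP_8c048d_lc.e3_cp_and (MP_8c048d_lc.e3_cp_eq hz (Computable.const 1)) hU)
      (MP_8c048d_lc.e3_cp_and (MP_8c048d_lc.e3_cp_eq hz (Computable.const 0)) hU.not)

theorem C1_comp (K : ℕ) : ComputablePred (C1 K) := by
  have hu : Computable (fun t : List ℕ => t.length.unpair.1) :=
    Computable.fst.comp (Computable.unpair.comp Computable.list_length)
  have h2 : ComputablePred (fun x : List ℕ × ℕ => ∀ j < K, C0 (x, j)) :=
    MP_8c048d_lc.e3_cp_forall_lt C0_comp (f := fun _ : List ℕ × ℕ => K) (Computable.const K)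
  have h3 : ComputablePred (fun t : List ℕ => ∀ e < t.length.unpair.1, ∀ j < K, C0 ((t, e), j)) :=
    MP_8c048d_lc.e3_cp_forall_lt h2 hu
  exact h3

theorem C2_comp {q : (ℕ × ℕ) × List ℕ → Option ℕ} (hq : Computable q) (K l : ℕ) :
    ComputablePred (C2 q K l) := by
  have hu : Computable (fun t : List ℕ => t.length.unpair.1) :=
    Computable.fst.comp (Computable.unpair.comp Computable.list_length)
  have hs : Computable (fun x : List ℕ × ℕ => x.1.length.unpair.2.unpair.1) :=
    Computable.fst.comp (Computable.unpair.comp (Computable.snd.comp (Computable.unpair.comp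
      (Computable.list_length.comp Computable.fst))))
  have h0 : Computable (fun x : List ℕ × ℕ => (x.1, K)) :=
    Computable.fst.pair (Computable.const K)
  have h0' : Computable (fun x : List ℕ × ℕ => zl x.1 K) := by
    have := zl_prim.to_comp.comp h0
    exact this
  have h1 : Computable (fun x : List ℕ × ℕ =>
      q ((x.1.length.unpair.2.unpair.1, x.2), zl x.1 K)) :=
    hq.comp ((hs.pair Computable.snd).pair h0')
  have h2 : Computable (fun x : List ℕ × ℕ =>
      (q ((x.1.length.unpair.2.unpair.1, x.2), zl x.1 K)).map (fun v => tp K l x.1 x.2 v)) :=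
    Computable.option_map h1 (g := fun (x : List ℕ × ℕ) (v : ℕ) => tp K l x.1 x.2 v)
      (tp_prim K l).to_comp
  have h3 : Computable (fun x : List ℕ × ℕ => some (x.1.getD x.2 0)) :=
    Computable.option_some.comp (Primrec.list_getD 0).to_comp
  exact MP_8c048d_lc.e3_cp_forall_lt (MP_8c048d_lc.e3_cp_eq h2 h3) hu

theorem UR_mono {e n k k' : ℕ} {F : ℕ → ℕ} (hk : k ≤ k') (h : UR e n (pre F k)) :
    UR e n (pre F k') := by
  obtain ⟨j, hj, h1⟩ := h
  rw [length_pre] at hj h1
  refine ⟨j, ?_, ?_⟩
  · rw [length_pre]; omega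
  · rw [length_pre, pre_take, min_eq_left (by omega)]
    rw [pre_take, min_eq_left hj] at h1
    exact Nat.Partrec.Code.evaln_mono hk h1

/-- The column `j` of a function. -/
def zf (Y : ℕ → ℕ) (j e : ℕ) : ℕ := if j = 0 then 0 else ((vl (Y e)).getD j 0).unpair.1

theorem getD_pre (F : ℕ → ℕ) {k p : ℕ} (h : p < k) : (pre F k).getD p 0 = F p := by
  rw [List.getD_eq_getElem?_getD, MP_8c048d_lc.pre_getElem?, if_pos h]
  rfl

theorem zz_pre (Y : ℕ → ℕ) {k e : ℕ} (j : ℕ) (h : e < k) : zz (pre Y k) j e = zf Y j e := by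
  unfold zz zf
  rw [getD_pre Y h]

theorem zl_pre (Y : ℕ → ℕ) (k j : ℕ) : zl (pre Y k) j = pre (zf Y j) k := by
  unfold zl
  rw [length_pre]
  show _ = (List.range k).map _
  refine List.map_congr_left fun e he => zz_pre Y j (List.mem_range.1 he)

/-- The columns of the top layer. -/
theorem zf_TT (K l : ℕ) (G : ℕ → ℕ) {j : ℕ} (hj : j ≤ K) : zf (TT K l G) j = Z j := by
  funext e
  unfold zf
  cases j with
  | zero => rfl
  | succ j =>
    rw [if_neg (Nat.succ_ne_zero j)]
    show ((vl (Nat.pair (encode (ent (G e) l 0 :: (List.range K).map fun j =>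
      Nat.pair (Z (j + 1) e) (ent (G e) l (j + 1)))) 0)).getD (j + 1) 0).unpair.1 = _
    unfold vl
    rw [Nat.unpair_pair]
    simp only
    rw [Denumerable.ofNat_encode, List.getD_cons_succ,
      List.getD_eq_getElem _ _ (by simpa using hj), List.getElem_map, List.getElem_range,
      Nat.unpair_pair]

theorem tp_eq (K l : ℕ) {t : List ℕ} {e : ℕ} (h : ∀ j ≤ K, zz t j e = Z j e) (v : ℕ) :
    tp K l t e v = top K (fun j => Z j e) l v := by
  unfold tp top
  congr 3
  refine List.map_congr_left fun j hj => ?_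
  show Nat.pair (zz t (j + 1) e) _ = Nat.pair (Z (j + 1) e) _
  rw [h (j + 1) (List.mem_range.1 hj)]

end TOP

open TOP in
/-- TOP. -/
theorem topc : StTOP := by
  intro K l a G ⟨ha, hG⟩
  obtain ⟨q, hq, h1, h2⟩ := ha.mono
  have hle : ComputablePred (fun t : List ℕ => t.length.unpair.1 ≤ t.length.unpair.2.unpair.1) := by
    have h : ComputablePred (fun p : ℕ × ℕ => p.1 ≤ p.2) :=
      PrimrecPred.computablePred (PrimrecRel.comp Primrec.nat_le Primrec.fst Primrec.snd)
    exact MP_8c048d_lc.e3_cp_comp h (f := fun t : List ℕ =>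
      (t.length.unpair.1, t.length.unpair.2.unpair.1))
      ((Computable.fst.comp (Computable.unpair.comp Computable.list_length)).pair
        (Computable.fst.comp (Computable.unpair.comp (Computable.snd.comp (Computable.unpair.comp
          Computable.list_length)))))
  obtain ⟨g, hg, hg'⟩ := MP_8c048d_lc.e3_cp_iff.1
    (MP_8c048d_lc.e3_cp_and hle (MP_8c048d_lc.e3_cp_and (C1_comp K) (C2_comp hq K l)))
  refine ⟨fun t => bif g t then t.length.unpair.1 else 0, ?_, fun Y => ⟨fun hY => ?_, ?_⟩⟩
  · exact Computable.cond hg (Computable.fst.comp (Computable.unpair.comp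
      Computable.list_length)) (Computable.const 0)
  · -- the conditions hold infinitely often
    have hinf : ∀ i, ∃ p, i < p.unpair.1 ∧ p.unpair.1 ≤ p.unpair.2.unpair.1 ∧ C1 K (pre Y p) ∧
        C2 q K l (pre Y p) := by
      intro i
      obtain ⟨p, hp⟩ := hY (i + 1)
      change i + 1 ≤ bif g (pre Y p) then (pre Y p).length.unpair.1 else 0 at hp
      cases h3 : g (pre Y p) with
      | false => rw [h3] at hp; simp at hp
      | true =>
        rw [h3] at hp
        simp only [cond_true, length_pre] at hp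
        obtain ⟨h4, h5, h6⟩ := (hg' _).2 h3
        rw [length_pre] at h4
        exact ⟨p, hp, h4, h5, h6⟩
    have hz : ∀ j ≤ K, zf Y j = Z j := by
      intro j
      induction j with
      | zero => intro _; rfl
      | succ j ih =>
        intro hj
        have ih' := ih (by omega)
        funext e
        show zf Y (j + 1) e = J (Z j) e
        by_cases hex : Ex e.unpair.1 e.unpair.2 (Z j)
        · rw [(J_eq_one _ _).2 hex]
          obtain ⟨k, hk⟩ := hex
          obtain ⟨p, hp1, -, hp2, -⟩ := hinf (max e k)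
          have hpu : p.unpair.1 ≤ p := Nat.unpair_left_le p
          have hep : e < p.unpair.1 := lt_of_le_of_lt (le_max_left _ _) hp1
          have hkp : k < p.unpair.1 := lt_of_le_of_lt (le_max_right _ _) hp1
          rcases hp2 e (by rw [length_pre]; exact hep) j (by omega) with h3 | h3
          · rw [← zz_pre Y (j + 1) (by omega : e < p)]; exact h3.1
          · exfalso
            apply h3.2
            rw [zl_pre, ih']
            exact UR_mono (by omega) hk
        · rw [(J_eq_zero _ _).2 hex]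
          obtain ⟨p, hp1, -, hp2, -⟩ := hinf e
          have hpu : p.unpair.1 ≤ p := Nat.unpair_left_le p
          rcases hp2 e (by rw [length_pre]; exact hp1) j (by omega) with h3 | h3
          · exfalso
            apply hex
            refine ⟨p, ?_⟩
            rw [← ih', ← zl_pre]
            exact h3.2
          · rw [← zz_pre Y (j + 1) (by omega : e < p)]; exact h3.1
    funext e
    obtain ⟨s0, hs0⟩ := hG e
    obtain ⟨p, hp1, hp2, -, hp3⟩ := hinf (max e s0)
    have hpu : p.unpair.1 ≤ p := Nat.unpair_left_le p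
    have hep : e < p.unpair.1 := lt_of_le_of_lt (le_max_left _ _) hp1
    have hsp : s0 < p.unpair.1 := lt_of_le_of_lt (le_max_right _ _) hp1
    have h3 := hp3 e (by rw [length_pre]; exact hep)
    rw [length_pre, zl_pre, hz K le_rfl, getD_pre Y (by omega)] at h3
    rw [Option.map_eq_some_iff] at h3
    obtain ⟨v, hv, h4⟩ := h3
    have h5 := h1 _ _ _ _ hv
    rw [hs0 _ (by omega)] at h5
    rw [← h4, ← h5]
    exact tp_eq K l (fun j hj => by rw [zz_pre Y j (by omega), hz j hj]) _
  · rintro rfl i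
    -- large numbers
    choose s0 hs0 using hG
    set s := i + (Finset.range i).sup s0 with hs
    have hlarge : ∃ N, ∀ e < i, (∀ j < K, Ex e.unpair.1 e.unpair.2 (Z j) →
        UR e.unpair.1 e.unpair.2 (pre (Z j) N)) ∧ ∀ N' ≥ N,
        q ((s, e), pre (Z K) N') = some (a (s, e) (Z K)) := by
      have h3 : ∀ e, ∃ N, (∀ j < K, Ex e.unpair.1 e.unpair.2 (Z j) →
          UR e.unpair.1 e.unpair.2 (pre (Z j) N)) ∧ ∀ N' ≥ N,
          q ((s, e), pre (Z K) N') = some (a (s, e) (Z K)) := by
        intro e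
        obtain ⟨k0, hk0⟩ := h2 (s, e) (Z K)
        have h4 : ∀ j, ∃ k, Ex e.unpair.1 e.unpair.2 (Z j) →
            UR e.unpair.1 e.unpair.2 (pre (Z j) k) := by
          intro j
          by_cases h5 : Ex e.unpair.1 e.unpair.2 (Z j)
          · obtain ⟨k, hk⟩ := h5
            exact ⟨k, fun _ => hk⟩
          · exact ⟨0, fun h => absurd h h5⟩
        choose k hk using h4
        refine ⟨max k0 ((Finset.range K).sup k), fun j hj h5 => ?_, fun N' hN' => ?_⟩
        · refine UR_mono ?_ (hk j h5)
          exact le_trans (Finset.le_sup (f := k) (Finset.mem_range.2 hj)) (le_max_right _ _)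
        · exact hk0 N' (le_trans (le_max_left _ _) hN')
      choose N hN hN' using h3
      refine ⟨(Finset.range i).sup N, fun e he => ⟨fun j hj h5 => ?_, fun N'' h5 => ?_⟩⟩
      · exact UR_mono (Finset.le_sup (f := N) (Finset.mem_range.2 he)) (hN e j hj h5)
      · exact hN' e N'' (le_trans (Finset.le_sup (f := N) (Finset.mem_range.2 he)) h5)
    obtain ⟨N, hN⟩ := hlarge
    set p := Nat.pair i (Nat.pair s N) with hp
    have hp1 : p.unpair.1 = i := by rw [hp, Nat.unpair_pair]
    have hp2 : p.unpair.2.unpair.1 = s := by rw [hp, Nat.unpair_pair]; simp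
    have hip : i ≤ p := Nat.left_le_pair _ _
    have hNp : N ≤ p := le_trans (Nat.right_le_pair s N) (Nat.right_le_pair i _)
    refine ⟨p, ?_⟩
    have hzz : ∀ j ≤ K, ∀ e < i, zz (pre (TT K l G) p) j e = Z j e := by
      intro j hj e he
      rw [zz_pre _ _ (by omega), zf_TT K l G hj]
    have h3 : g (pre (TT K l G) p) = true := by
      rw [← hg']
      refine ⟨?_, ?_, ?_⟩
      · rw [length_pre, hp1, hp2]; omega
      · intro e he j hj
        rw [length_pre, hp1] at he
        rw [hzz (j + 1) (by omega) e he, zl_pre, zf_TT K l G (by omega)]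
        show (J (Z j) e = 1 ∧ _) ∨ (J (Z j) e = 0 ∧ _)
        by_cases hex : Ex e.unpair.1 e.unpair.2 (Z j)
        · exact Or.inl ⟨(J_eq_one _ _).2 hex, UR_mono hNp ((hN e he).1 j hj hex)⟩
        · exact Or.inr ⟨(J_eq_zero _ _).2 hex, fun h => hex ⟨_, h⟩⟩
      · intro e he
        rw [length_pre, hp1] at he
        rw [length_pre, hp2, zl_pre, zf_TT K l G le_rfl, (hN e he).2 p hNp,
          getD_pre _ (by omega), Option.map_some]
        rw [tp_eq K l (fun j hj => hzz j hj e he), hs0 e s (by
          have := Finset.le_sup (f := s0) (Finset.mem_range.2 he)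
          omega)]
        rfl
    show i ≤ bif g (pre (TT K l G) p) then (pre (TT K l G) p).length.unpair.1 else 0
    rw [h3, length_pre, hp1]
    exact le_rfl

end Pool.Agent.Lib.MP_d48993_lc.Ind2
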