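import Pool.Agent.Lib.MP_d48993_lc.AE.Ind2.Dfs

/-!
# Module IND2: individual genericity (VL)
-/

set_option autoImplicit false

namespace Pool.Agent.Lib.MP_d48993_lc.Ind2

open MP_8c048d_lc (pre join RecF Cop UR length_pre pre_take)
open Encodable (encode)
open Denumerable (ofNat)

namespace VL

/-- Forget one entry. -/
def md (n K l : ℕ) (g : ℕ) : ℕ := mk n K fun l' j => if l' = l ∧ j = 0 then 0 else ent g l' j

/-- The oracle computed from a string. -/
def yl (n K l : ℕ) (x : List ℕ × List ℕ) : List ℕ :=
  (List.range x.2.length).map fun p => Nat.pair (x.1.getD p 0) (md n K l (x.2.getD p 0))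

theorem ent_prim : Primrec (fun x : ℕ × ℕ × ℕ => ent x.1 x.2.1 x.2.2) := by
  have h1 : Primrec (fun x : ℕ × ℕ × ℕ => (ofNat (List (List ℕ)) x.1).getD x.2.1 []) :=
    (Primrec.list_getD ([] : List ℕ)).comp ((Primrec.ofNat _).comp Primrec.fst)
      (Primrec.fst.comp Primrec.snd)
  exact (Primrec.list_getD 0).comp h1 (Primrec.snd.comp Primrec.snd)

theorem md_prim (n K l : ℕ) : Primrec (md n K l) := by
  have h1 : Primrec (fun x : (ℕ × ℕ) × ℕ => if x.1.2 = l ∧ x.2 = 0 then 0 else
      ent x.1.1 x.1.2 x.2) := by
    refine Primrec.ite (PrimrecPred.and (Primrec.eq.comp (Primrec.snd.comp Primrec.fst)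
      (Primrec.const l)) (Primrec.eq.comp Primrec.snd (Primrec.const 0))) (Primrec.const 0) ?_
    exact ent_prim.comp (Primrec.pair (Primrec.fst.comp Primrec.fst) (Primrec.pair
      (Primrec.snd.comp Primrec.fst) Primrec.snd))
  have h2 : Primrec (fun x : ℕ × ℕ => (List.range (K + 1)).map fun j =>
      if x.2 = l ∧ j = 0 then 0 else ent x.1 x.2 j) :=
    Primrec.list_map (Primrec.const _) (g := fun (x : ℕ × ℕ) (j : ℕ) =>
      if x.2 = l ∧ j = 0 then 0 else ent x.1 x.2 j) h1
  have h3 : Primrec (fun g : ℕ => (List.range n).map fun l' => (List.range (K + 1)).map fun j =>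
      if l' = l ∧ j = 0 then 0 else ent g l' j) :=
    Primrec.list_map (Primrec.const _) (g := fun (g : ℕ) (l' : ℕ) =>
      (List.range (K + 1)).map fun j => if l' = l ∧ j = 0 then 0 else ent g l' j) h2
  exact Primrec.encode.comp h3

theorem yl_prim (n K l : ℕ) : Primrec (yl n K l) := by
  refine Primrec.list_map (Primrec.list_range.comp (Primrec.list_length.comp Primrec.snd))
    (g := fun (x : List ℕ × List ℕ) (p : ℕ) => Nat.pair (x.1.getD p 0) (md n K l (x.2.getD p 0))) ?_
  refine Primrec₂.natPair.comp ?_ ?_
  · exact (Primrec.list_getD 0).comp (Primrec.fst.comp Primrec.fst) Primrec.snd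
  · exact (md_prim n K l).comp ((Primrec.list_getD 0).comp (Primrec.snd.comp Primrec.fst)
      Primrec.snd)

/-- The entries of `mk`. -/
theorem ent_mk {n K l j : ℕ} (f : ℕ → ℕ → ℕ) (hl : l < n) (hj : j ≤ K) :
    ent (mk n K f) l j = f l j := by
  unfold ent mk
  have h1 : ((List.range n).map fun l => (List.range (K + 1)).map fun j => f l j).getD l [] =
      (List.range (K + 1)).map fun j => f l j := by
    rw [List.getD_eq_getElem _ _ (by simpa using hl), List.getElem_map, List.getElem_range]
  rw [Denumerable.ofNat_encode, h1, List.getD_eq_getElem _ _ (by simpa using Nat.lt_succ_of_le hj),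
    List.getElem_map, List.getElem_range]

/-- `mk` depends on the entries below `n` and `K + 1` only. -/
theorem mk_congr {n K : ℕ} {f g : ℕ → ℕ → ℕ} (h : ∀ l < n, ∀ j ≤ K, f l j = g l j) :
    mk n K f = mk n K g := by
  unfold mk
  congr 1
  refine List.map_congr_left fun l hl => List.map_congr_left fun j hj => ?_
  exact h l (List.mem_range.1 hl) j (Nat.le_of_lt_succ (List.mem_range.1 hj))

end VL

open VL in
/-- VL. -/
theorem vlg : StVL := by
  intro n K G hG l hl S hS
  obtain ⟨Q, ⟨d, hd, h1⟩, e1⟩ := hS
  obtain ⟨q, hq, h2, h3⟩ := hd.mono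
  have e2 : ∀ τ, S τ ↔ ∃ m, d (τ, m) (YY n K l G) = true := fun τ => (e1 τ).trans (h1 τ _)
  -- the set of strings
  let W : List ℕ → (ℕ → ℕ) → Prop := fun σ F => ∃ x : ℕ × ℕ,
    q (((σ.map fun g => ent g l 0).take x.1, x.2), yl n K l (pre F σ.length, σ)) = some true
  have hW : S1 W := by
    refine S1.ex (P := fun (σ : List ℕ) (x : ℕ × ℕ) F =>
      q (((σ.map fun g => ent g l 0).take x.1, x.2), yl n K l (pre F σ.length, σ)) = some true)
      (S1.ofCop ?_)
    have h4 : RecF (fun (p : List ℕ × ℕ × ℕ) F =>
        q (((p.1.map fun g => ent g l 0).take p.2.1, p.2.2), yl n K l (pre F p.1.length, p.1))) := by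
      refine RecF.comp hq (RecF.pair (RecF.of_computable ?_) ?_)
      · have h5 : Primrec (fun p : List ℕ × ℕ × ℕ => p.1.map fun g => ent g l 0) :=
          Primrec.list_map Primrec.fst (g := fun (_ : List ℕ × ℕ × ℕ) (g : ℕ) => ent g l 0)
            (ent_prim.comp (Primrec.pair Primrec.snd (Primrec.const (l, 0))))
        exact ((Primrec.list_take.comp (Primrec.fst.comp Primrec.snd) h5).pair
          (Primrec.snd.comp Primrec.snd)).to_comp
      · refine RecF.comp (yl_prim n K l).to_comp (RecF.pair ?_ (RecF.of_computable Computable.fst))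
        exact RecF.pre.comp₁ (f := fun p : List ℕ × ℕ × ℕ => p.1.length)
          (Computable.list_length.comp Computable.fst)
    exact Cop.of_recF h4 (p := fun o : Option Bool => o = some true)
      (MP_8c048d_lc.e3_cp_eq Computable.id (Computable.const _))
  -- the computed oracle
  have hyl : ∀ (σ : List ℕ), (∀ p < σ.length, ∀ l' < n, ∀ j ≤ K, ¬ (l' = l ∧ j = 0) →
      ent (σ.getD p 0) l' j = ent (G p) l' j) →
      yl n K l (pre (Z K) σ.length, σ) = pre (YY n K l G) σ.length := by
    intro σ hσ
    unfold yl
    show _ = (List.range σ.length).map (YY n K l G)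
    refine List.map_congr_left fun p hp => ?_
    have hp' := List.mem_range.1 hp
    have h5 : (pre (Z K) σ.length).getD p 0 = Z K p := by
      rw [List.getD_eq_getElem?_getD, MP_8c048d_lc.pre_getElem?, if_pos hp']
      rfl
    show Nat.pair ((pre (Z K) σ.length).getD p 0) (md n K l (σ.getD p 0)) = YY n K l G p
    rw [h5]
    unfold YY md
    congr 1
    refine mk_congr fun l' hl' j hj => ?_
    by_cases h6 : l' = l ∧ j = 0
    · rw [if_pos h6, if_pos h6]
    · rw [if_neg h6, if_neg h6]
      exact hσ p hp' l' hl' j hj h6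
  have hx : ∀ k, (pre G k).map (fun g => ent g l 0) = pre (fun p => ent (G p) l 0) k := by
    intro k
    show List.map _ ((List.range k).map G) = (List.range k).map _
    rw [List.map_map]
    rfl
  obtain ⟨k, hk⟩ := hG (fun σ => W σ (Z K)) (Sg.ofS1 hW _)
  rcases hk with hk | hk
  · obtain ⟨⟨j, m⟩, h4⟩ := hk
    simp only at h4
    rw [hyl (pre G k) (fun p hp l' _ j _ _ => by
      rw [List.getD_eq_getElem?_getD, MP_8c048d_lc.pre_getElem?, if_pos (by rwa [length_pre] at hp)]
      rfl), length_pre, hx, pre_take] at h4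
    exact ⟨min j k, Or.inl ((e2 _).2 ⟨m, h2 _ _ _ _ h4⟩)⟩
  · refine ⟨k, Or.inr fun τ hτ hS => ?_⟩
    obtain ⟨m, hm⟩ := (e2 τ).1 hS
    obtain ⟨k0, hk0⟩ := h3 (τ, m) (YY n K l G)
    set N := max k (max τ.length k0) with hN
    let s : ℕ → ℕ := fun p => if p < k then G p else
      mk n K (fun l' j => if l' = l ∧ j = 0 then τ.getD p 0 else ent (G p) l' j)
    have hlen : (pre s N).length = N := length_pre _ _
    have hkN : k ≤ N := le_max_left _ _
    have hτN : τ.length ≤ N := le_trans (le_max_left _ _) (le_max_right _ _)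
    have hpre : pre G k <+: pre s N := by
      have h5 : pre G k = pre s k := by
        show (List.range k).map G = (List.range k).map s
        refine List.map_congr_left fun p hp => ?_
        show G p = if p < k then G p else _
        rw [if_pos (List.mem_range.1 hp)]
      rw [h5]
      have h6 : pre s k = (pre s N).take k := by rw [pre_take, min_eq_left hkN]
      rw [h6]
      exact List.take_prefix _ _
    apply hk _ hpre
    refine ⟨(τ.length, m), ?_⟩
    show q ((((pre s N).map fun g => ent g l 0).take τ.length, m),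
      yl n K l (pre (Z K) (pre s N).length, pre s N)) = some true
    have h7 : ((pre s N).map fun g => ent g l 0).take τ.length = τ := by
      apply List.ext_getElem
      · rw [List.length_take, List.length_map, hlen, min_eq_left hτN]
      · intro p h8 h9
        rw [List.getElem_take, List.getElem_map]
        have h10 : (pre s N)[p]'(by rw [hlen]; omega) = s p := by
          have h11 := MP_8c048d_lc.pre_getElem? s N p
          rw [List.getElem?_eq_getElem (by rw [hlen]; omega), if_pos (by omega)] at h11
          exact Option.some.inj h11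
        rw [h10]
        show ent (if p < k then G p else _) l 0 = _
        by_cases h12 : p < k
        · rw [if_pos h12]
          have h13 : (pre (fun p => ent (G p) l 0) k)[p]'(by rw [length_pre]; exact h12) =
              ent (G p) l 0 := by
            have h11 := MP_8c048d_lc.pre_getElem? (fun p => ent (G p) l 0) k p
            rw [List.getElem?_eq_getElem (by rw [length_pre]; exact h12), if_pos h12] at h11
            exact Option.some.inj h11
          rw [← h13]
          exact hτ.getElem (by rw [length_pre]; exact h12)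
        · rw [if_neg h12, ent_mk _ hl (Nat.zero_le _), if_pos ⟨rfl, rfl⟩,
            List.getD_eq_getElem _ _ h9]
    rw [h7, hyl, hlen, hk0 N (le_trans (le_max_right _ _) (le_max_right _ _)), hm]
    intro p hp l' hl' j hj h8
    rw [hlen] at hp
    rw [List.getD_eq_getElem?_getD, MP_8c048d_lc.pre_getElem?, if_pos hp]
    show ent (if p < k then G p else _) l' j = _
    by_cases h12 : p < k
    · rw [if_pos h12]
    · rw [if_neg h12, ent_mk _ hl' hj, if_neg h8]

end Pool.Agent.Lib.MP_d48993_lc.Ind2
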