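import Pool.Agent.Lib.MP_d48993_lc.AE.Ind2.Gnr
import Pool.Agent.Lib.MP_d48993_lc.AE.Ind2.Top
import Pool.Agent.Lib.MP_d48993_lc.AE.Ind2.Vl
import Pool.Agent.Lib.MP_d48993_lc.AE.Ind2.Crt
import Pool.Agent.Lib.MP_d48993_lc.AE.Ind2.Jl3

/-!
# Module IND2: the lemma on independent truths
-/

set_option autoImplicit false

namespace Pool.Agent.Lib.MP_d48993_lc.Ind2

open MP_8c048d_lc (pre join RecF Cop UR length_pre pre_take pre_congr join_even join_odd)
open Encodable (encode)
open Denumerable (ofNat)

/-- The monotone certificate: the number of the rounds. -/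
def rnd (γ : List ℕ → ℕ) (σ : List ℕ) : ℕ := (stt γ (cmf 0) (fn σ) σ.length).2.1

theorem comp_rnd {γ : List ℕ → ℕ} (hγ : Computable γ) : Computable (rnd γ) :=
  Computable.fst.comp (Computable.snd.comp (comp_sttfn hγ (comp_cmf 0)))

theorem rnd_mono (γ : List ℕ → ℕ) {σ τ : List ℕ} (h : σ <+: τ) : rnd γ σ ≤ rnd γ τ := by
  unfold rnd
  have h1 : ∀ i < σ.length, fn σ i = fn τ i := by
    intro i hi
    obtain ⟨t, rfl⟩ := h
    unfold fn
    rw [List.getD_append _ _ _ _ hi]
  rw [((lay_facts γ (cmf 0)).loc _ _ _ h1).1]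
  exact ((lay_facts γ (cmf 0)).mono _ _ _ h.length_le).2.1

theorem rnd_pre (γ : List ℕ → ℕ) (Y : ℕ → ℕ) (p : ℕ) :
    rnd γ (pre Y p) = (stt γ (cmf 0) Y p).2.1 := by
  unfold rnd
  rw [length_pre, ((lay_facts γ (cmf 0)).loc _ _ _ fun i hi => fn_prefix hi).1]

theorem rnd_crt {γ : List ℕ → ℕ} {F : ℕ → ℕ} (h : Crt γ F) : Crt (rnd γ) F := by
  intro Y
  rw [← h Y]
  constructor
  · intro hU i
    obtain ⟨p, hp⟩ := hU i
    rw [rnd_pre] at hp
    by_cases h0 : 0 < (stt γ (cmf 0) Y p).2.1
    · exact ⟨_, hp.trans ((lay_facts γ (cmf 0)).last Y p h0).2.2⟩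
    · exact ⟨0, by omega⟩
  · intro hU i
    obtain ⟨p, -, hp⟩ := (lay_facts γ (cmf 0)).inf Y hU i
    exact ⟨p, by rw [rnd_pre]; exact hp⟩

/-- The layers over a functional. -/
theorem recF_layg {γ : List ℕ → ℕ} (hγ : Computable γ) {α : Type} [Primcodable α] (K j : ℕ)
    {g : α → ℕ → (ℕ → ℕ) → ℕ} (hg : RecF (fun (x : α × ℕ) H => g x.1 x.2 H)) :
    RecF (fun (x : α × ℕ) H => lay γ K j (fun q => g x.1 q H) x.2) :=
  (recF_lay hγ K j).subst (α := α × ℕ) (ψ := fun x _ => x.2)
    (RecF.of_computable Computable.snd) (Ψ := fun x H => (fun q => g x.1 q H))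
    (hg.comp₁ (f := fun x : (α × ℕ) × ℕ => (x.1.1, x.2))
      ((Computable.fst.comp Computable.fst).pair Computable.snd))

/-- Genericity over smaller reals. -/
theorem Gen.red {A A' G : ℕ → ℕ} (h : Gen A G) (hA : Red A' A) : Gen A' G :=
  fun S hS => h S (hS.red hA)

/-- The real of the object `l`. -/
noncomputable def Yl (n K l : ℕ) (G : ℕ → ℕ) : ℕ → ℕ := join (WK K) (YY n K l G)

theorem red_ZYY (n K l : ℕ) (G : ℕ → ℕ) : Red (Z K) (YY n K l G) := by
  have h : RecF (fun (p : ℕ) (F : ℕ → ℕ) => (F p).unpair.1) :=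
    RecF.comp (Computable.fst.comp Computable.unpair) (RecF.at Computable.id)
  have h1 := red1 _ h (YY n K l G)
  have e : (fun p => (YY n K l G p).unpair.1) = Z K := by
    funext p
    unfold YY
    rw [Nat.unpair_pair]
  rw [e] at h1
  exact h1

theorem red_Yl (n K l : ℕ) (G : ℕ → ℕ) : Red (Yl n K l G) (YY n K l G) :=
  red_join ((red_WK K).trans (red_ZYY n K l G)) Red.rfl

/-- The symbol of the top layer of `l'`, from the real of `l`. -/
def sY (K l' : ℕ) (q : ℕ) (H : ℕ → ℕ) : ℕ :=
  top K (fun j => H (2 * Nat.pair j q)) l' (H (2 * q + 1)).unpair.2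

theorem recF_vY (K l' : ℕ) {α : Type} [Primcodable α] :
    RecF (fun (x : α × ℕ) H => vw K (fun j => H (2 * Nat.pair j x.2)) l'
      (H (2 * x.2 + 1)).unpair.2) := by
  have e1 : Computable (fun x : (α × ℕ) × ℕ => 2 * Nat.pair x.2 x.1.2) :=
    Primrec.nat_double.to_comp.comp (Primrec₂.natPair.to_comp.comp Computable.snd
      (Computable.snd.comp Computable.fst))
  have e2 : RecF (fun (x : α × ℕ) (H : ℕ → ℕ) => (H (2 * x.2 + 1)).unpair.2) := by
    have e3 : Computable (fun x : α × ℕ => 2 * x.2 + 1) :=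
      Primrec.nat_double_succ.to_comp.comp Computable.snd
    have e4 : Computable (fun y : ℕ => y.unpair.2) := Computable.snd.comp Computable.unpair
    have e5 := RecF.comp e4 (RecF.at e3)
    exact e5
  exact recF_vw (α := α × ℕ) K l' (z := fun x j H => H (2 * Nat.pair j x.2)) (RecF.at e1) e2

theorem recF_sY (K l' : ℕ) : RecF (fun (x : ℕ × ℕ) H => sY K l' x.2 H) := by
  have e2 : Computable (fun L : List ℕ => Nat.pair (encode L) 0) :=
    Primrec₂.natPair.to_comp.comp Computable.encode (Computable.const 0)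
  have e3 := RecF.comp e2 (recF_vY K l' (α := ℕ))
  exact e3

/-- The other objects are computed. -/
theorem red_other {n K : ℕ} {γ : ℕ → List ℕ → ℕ} (hγ : ∀ l, Computable (γ l)) {G : ℕ → ℕ}
    {l l' : ℕ} (hl' : l' < n) (hne : l' ≠ l) (k : ℕ) :
    Red (XL γ K l' k G) (Yl n K l G) := by
  have h1 := recF_layg (α := ℕ) (hγ l') K (K - k) (g := fun _ q H => sY K l' q H)
    (recF_sY K l')
  have h2 := h1.comp₁ (f := fun p : ℕ => (0, p)) ((Computable.const 0).pair Computable.id)
  have h3 := red1 _ h2 (Yl n K l G)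
  have e : (fun p => lay (γ l') K (K - k) (fun q => sY K l' q (Yl n K l G)) p) =
      XL γ K l' k G := by
    have e1 : (fun q => sY K l' q (Yl n K l G)) = TT K l' G := by
      funext q
      unfold sY TT Yl
      rw [join_odd]
      have e2 : (fun j => join (WK K) (YY n K l G) (2 * Nat.pair j q)) =
          fun j => WK K (Nat.pair j q) := by
        funext j
        rw [join_even]
      rw [e2, top_eq, top_eq]
      have e3 : vw K (fun j => WK K (Nat.pair j q)) l' (YY n K l G q).unpair.2 =
          vw K (fun j => Z j q) l' (G q) := by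
        refine vw_congr (fun j hj => WK_pair (Nat.succ_le_of_lt hj) q) fun j hj => ?_
        unfold YY
        rw [Nat.unpair_pair]
        simp only
        rw [ent_mk hl' hj, if_neg (fun h => hne h.1)]
      rw [e3]
    rw [e1]
    rfl
  simp only at h3
  rw [e] at h3
  exact h3

/-- The symbol of the top layer of `l`, with the first entry from a string. -/
def sT (K l : ℕ) (s : List ℕ) (q : ℕ) (H : ℕ → ℕ) : ℕ :=
  Nat.pair (encode (fn s q :: (vw K (fun j => H (2 * Nat.pair j q)) l
    (H (2 * q + 1)).unpair.2).tail)) 0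

theorem recF_sT (K l : ℕ) : RecF (fun (x : List ℕ × ℕ) H => sT K l x.1 x.2 H) := by
  have h1 := (RecF.of_computable comp_fn).pair (recF_vY K l (α := List ℕ))
  have h2 : Computable (fun z : ℕ × List ℕ => Nat.pair (encode (z.1 :: z.2.tail)) 0) := by
    refine Primrec₂.natPair.to_comp.comp (Computable.encode.comp ?_) (Computable.const 0)
    exact Primrec.list_cons.to_comp.comp Computable.fst
      (Primrec.list_tail.to_comp.comp Computable.snd)
  have h3 := RecF.comp h2 h1
  exact h3

/-- IND. -/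
theorem ind : StIND := by
  intro n K
  obtain ⟨a, G, hA, hG⟩ := gnr (Z K)
  have hγ : ∀ l, ∃ γ : List ℕ → ℕ, Computable γ ∧ Crt γ (TT K l G) := fun l => topc K l a G hA
  choose γ hγc hγt using hγ
  refine ⟨fun l k => XL γ K l k G, fun l p => ent (G p) l 0, fun l => Yl n K l G,
    fun l k => rnd (cer (γ l) K (K - k)), fun y => (vl y).getD 0 0,
    fun l k s H => lay (γ l) K (K - k) (fun q => sT K l s q H) (s.length - 1), ?_, ?_, ?_, ?_⟩
  · exact (Primrec.list_getD 0).to_comp.comp comp_vl (Computable.const 0)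
  · intro l hl k hk
    refine ⟨⟨comp_rnd (comp_cer (hγc l) K _), fun σ τ h => rnd_mono _ h,
      rnd_crt (crt_XL crt (hγt l) k)⟩, fun p => ?_, red_Z_XL γ hk G,
      fun hk' => red_XL_succ hγc hk' G, ?_, fun p => ?_⟩
    · show (vl (XL γ K l k G p)).getD 0 0 = _
      rw [vl_XL γ hk, vw_zero]
    · have h1 := recF_layg (α := List ℕ) (hγc l) K (K - k) (g := fun s q H => sT K l s q H)
        (recF_sT K l)
      have h2 : Computable (fun s : List ℕ => (s, s.length - 1)) :=
        Computable.id.pair (Primrec.nat_sub.to_comp.comp Computable.list_length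
          (Computable.const 1))
      have h3 := h1.comp₁ h2
      exact h3
    · show XL γ K l k G p = lay (γ l) K (K - k)
        (fun q => sT K l (pre (fun p => ent (G p) l 0) (p + 1)) q (Yl n K l G))
        ((pre (fun p => ent (G p) l 0) (p + 1)).length - 1)
      rw [length_pre, Nat.add_sub_cancel]
      unfold XL
      apply lay_loc
      intro q hq
      unfold sT TT Yl
      rw [fn_prefix (by omega), join_odd]
      have e2 : (fun j => join (WK K) (YY n K l G) (2 * Nat.pair j q)) =
          fun j => WK K (Nat.pair j q) := by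
        funext j
        rw [join_even]
      rw [e2, top_eq]
      have e3 : (vw K (fun j => WK K (Nat.pair j q)) l (YY n K l G q).unpair.2).tail =
          (vw K (fun j => Z j q) l (G q)).tail := by
        unfold vw
        rw [List.tail_cons, List.tail_cons]
        apply List.map_congr_left
        intro j hj
        rw [List.mem_range] at hj
        unfold YY
        rw [Nat.unpair_pair]
        simp only
        rw [ent_mk hl (Nat.succ_le_of_lt hj), if_neg (fun h => absurd h.2 (by omega)),
          WK_pair (Nat.succ_le_of_lt hj)]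
      rw [e3]
      rfl
  · intro k hk I hne hI
    exact jump_lemma crt n K γ G hγc hG (fun l _ => hγt l) k hk I hne hI
  · intro l hl
    refine ⟨(vlg n K G hG l hl).red (red_Yl n K l G), ?_, fun l' hl' hne k _ =>
      red_other hγc hl' hne k⟩
    exact (red_ZYY n K l G).trans (red_right _ _)

end Pool.Agent.Lib.MP_d48993_lc.Ind2
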