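import Pool.Agent.Lib.MP_d48993_lc.AE.Ind2.Non

/-!
# Module IND2: the jump lemma
-/

set_option autoImplicit false

namespace Pool.Agent.Lib.MP_d48993_lc.Ind2

open MP_8c048d_lc (pre join RecF Cop UR length_pre pre_take pre_congr)
open Encodable (encode)
open Denumerable (ofNat)

/-- The component `i` of a join. -/
def cp (i : ℕ) (H : ℕ → ℕ) : ℕ → ℕ := fun q => (ofNat (List ℕ) (H q)).getD i 0

theorem cp_Jn (X : ℕ → ℕ → ℕ → ℕ) {I : List ℕ} {l : ℕ} (hl : l ∈ I) (k : ℕ) :
    cp (I.idxOf l) (Jn X I k) = X l k := by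
  funext q
  unfold cp Jn
  rw [Denumerable.ofNat_encode]
  have h1 : I.idxOf l < (I.map fun l => X l k q).length := by
    rw [List.length_map]
    exact List.idxOf_lt_length_iff.2 hl
  rw [List.getD_eq_getElem _ _ h1, List.getElem_map, List.getElem_idxOf]

theorem comp_cp (i : ℕ) : Computable (fun y : ℕ => (ofNat (List ℕ) y).getD i 0) :=
  ((Primrec.list_getD 0).comp (Primrec.ofNat (List ℕ)) (Primrec.const i)).to_comp

theorem recF_cp (i : ℕ) : RecF (fun (q : ℕ) H => cp i H q) := by
  have h := RecF.comp (comp_cp i) (RecF.at (α := ℕ) Computable.id)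
  exact h

theorem recF_cpa (i : ℕ) {α : Type} [Primcodable α] {g : α → ℕ → (ℕ → ℕ) → ℕ}
    (hg : RecF (fun (x : α × ℕ) W => g x.1 x.2 W)) :
    RecF (fun (x : α × ℕ) W => cp i (fun q => g x.1 q W) x.2) := by
  have h := RecF.comp (comp_cp i) hg
  exact h

section jl

variable (γ : ℕ → List ℕ → ℕ) (K k : ℕ) (I : List ℕ)

/-- The data of the question: the number of the fact, the visible strings, the stops. -/
abbrev Dt : Type := ℕ × List ℕ × List ℕ

/-- The witnesses: a length, a string, the texts. -/
abbrev Wt : Type := ℕ × List ℕ × List (List Mv)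

/-- The state at the stop of `l`. -/
def sD (l : ℕ) (D : Dt) : ℕ × ℕ × List Mv :=
  stt (cer (γ l) K (K - (k + 1))) (cmf k) (cp (I.idxOf l) (fn D.2.1)) (D.2.2.getD l 0)

/-- The text of the witness. -/
def tD (l : ℕ) (x : Dt × Wt) : List Mv := (sD γ K k I l x.1).2.2 ++ x.2.2.2.getD l []

/-- The visible lists of the witness. -/
def vW (x : Dt × Wt) (W : ℕ → ℕ) (p : ℕ) : ℕ :=
  encode (I.map fun l => encode (vw k (fun j => W (Nat.pair j p)) l (fn x.2.2.1 p)))

/-- The visible lists of the data. -/
def vD (x : Dt × Wt) (p : ℕ) : ℕ :=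
  encode (I.map fun l => encode ((vl (cp (I.idxOf l) (fn x.1.2.1) p)).take (k + 1)))

/-- The symbols of the witness. -/
def yW (x : Dt × Wt) (W : ℕ → ℕ) (p : ℕ) : ℕ :=
  encode (I.map fun l => Nat.pair (encode (vw k (fun j => W (Nat.pair j p)) l (fn x.2.2.1 p)))
    (encode ((tD γ K k I l x).getD p none)))

/-- The matrix of the question. -/
def QM (x : Dt × Wt) (W : ℕ → ℕ) : Prop :=
  ((List.range x.1.2.1.length).map (fun p => vW k I x W p) =
    (List.range x.1.2.1.length).map (fun p => vD k I x p)) ∧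
  (x.1.2.1.length ≤ x.2.1) ∧
  (∀ l ∈ I, (x.2.2.2.getD l []).all (okm (sD γ K k I l x.1).2.1) = true ∧
    (run (tD γ K k I l x)).isSome = true ∧ x.2.1 ≤ (tD γ K k I l x).length) ∧
  UR x.1.1.unpair.1 x.1.1.unpair.2 ((List.range x.2.1).map fun p => yW γ K k I x W p)

variable {γ}

theorem comp_sD (hγ : ∀ l, Computable (γ l)) (l : ℕ) : Computable (sD γ K k I l) := by
  have e0 : Computable (fun x : Dt × ℕ => fn x.1.2.1 x.2) := by
    have e := comp_fn.comp ((Computable.fst.comp (Computable.snd.comp
      (Computable.fst (α := Dt) (β := ℕ)))).pair Computable.snd)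
    exact e
  have h1 : RecF (fun (x : Dt × ℕ) (_ : ℕ → ℕ) => cp (I.idxOf l) (fn x.1.2.1) x.2) :=
    recF_cpa (I.idxOf l) (α := Dt) (g := fun D q _ => fn D.2.1 q) (RecF.of_computable e0)
  have h2 := (recF_stt (comp_cer (hγ l) K (K - (k + 1))) (comp_cmf k)).subst (α := Dt)
    (ψ := fun D _ => D.2.2.getD l 0) (RecF.of_computable ((Primrec.list_getD 0).to_comp.comp
      (Computable.snd.comp Computable.snd) (Computable.const l)))
    (Ψ := fun D _ => cp (I.idxOf l) (fn D.2.1)) h1
  exact comp_of_recF h2 fun D F => rfl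

theorem comp_wt (l : ℕ) : Computable (fun x : Dt × Wt => x.2.2.2.getD l []) := by
  have h := (Primrec.list_getD ([] : List Mv)).to_comp.comp
    (Computable.snd.comp (Computable.snd.comp (Computable.snd (α := Dt) (β := Wt))))
    (Computable.const l)
  exact h

theorem comp_tD (hγ : ∀ l, Computable (γ l)) (l : ℕ) : Computable (tD γ K k I l) := by
  have h1 : Computable (fun x : Dt × Wt => (sD γ K k I l x.1).2.2) :=
    Computable.snd.comp (Computable.snd.comp ((comp_sD K k I hγ l).comp Computable.fst))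
  exact Primrec.list_append.to_comp.comp h1 (comp_wt l)

theorem recF_vwx (l : ℕ) : RecF (fun (y : (Dt × Wt) × ℕ) W =>
    encode (vw k (fun j => W (Nat.pair j y.2)) l (fn y.1.2.2.1 y.2))) := by
  have e0 : Computable (fun y : (Dt × Wt) × ℕ => fn y.1.2.2.1 y.2) := by
    have e := comp_fn.comp ((Computable.fst.comp (Computable.snd.comp (Computable.snd.comp
      (Computable.fst (α := Dt × Wt) (β := ℕ))))).pair Computable.snd)
    exact e
  have h1 := recF_vw (α := (Dt × Wt) × ℕ) k l (z := fun y j W => W (Nat.pair j y.2))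
    (RecF.at (Primrec₂.natPair.to_comp.comp Computable.snd (Computable.snd.comp Computable.fst)))
    (y := fun y _ => fn y.1.2.2.1 y.2) (RecF.of_computable e0)
  exact RecF.comp Computable.encode h1

theorem s1_Q (hγ : ∀ l, Computable (γ l)) :
    S1 (fun (D : Dt) W => ∃ w : Wt, QM γ K k I (D, w) W) := by
  refine S1.ex (P := fun D w W => QM γ K k I (D, w) W) (S1.ofCop ?_)
  have c1 : Computable (fun x : Dt × Wt => x.1.2.1.length) :=
    Computable.list_length.comp (Computable.fst.comp (Computable.snd.comp Computable.fst))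
  have c2 : Computable (fun x : Dt × Wt => x.2.1) := Computable.fst.comp Computable.snd
  have hV : RecF (fun (y : (Dt × Wt) × ℕ) W => vW k I y.1 W y.2) := by
    have h1 := recF_I (α := (Dt × Wt) × ℕ) (φ := fun l y W =>
      encode (vw k (fun j => W (Nat.pair j y.2)) l (fn y.1.2.2.1 y.2)))
      (fun l => recF_vwx k l) I
    exact RecF.comp Computable.encode h1
  have hD : RecF (fun (y : (Dt × Wt) × ℕ) (_ : ℕ → ℕ) => vD k I y.1 y.2) := by
    have h1 := recF_I (α := (Dt × Wt) × ℕ) (φ := fun l y _ =>
      encode ((vl (cp (I.idxOf l) (fn y.1.1.2.1) y.2)).take (k + 1))) (fun l => ?_) I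
    · exact RecF.comp Computable.encode h1
    · have e0 : Computable (fun x : (Dt × Wt) × ℕ => fn x.1.1.2.1 x.2) := by
        have e := comp_fn.comp ((Computable.fst.comp (Computable.snd.comp (Computable.fst.comp
            (Computable.fst (α := Dt × Wt) (β := ℕ))))).pair Computable.snd)
        exact e
      have e1 : RecF (fun (x : (Dt × Wt) × ℕ) (_ : ℕ → ℕ) =>
          cp (I.idxOf l) (fn x.1.1.2.1) x.2) :=
        recF_cpa (I.idxOf l) (α := Dt × Wt) (g := fun x q _ => fn x.1.2.1 q)
          (RecF.of_computable e0)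
      have e2 : Computable (fun y : ℕ => encode ((vl y).take (k + 1))) :=
        Computable.encode.comp (Primrec.list_take.to_comp.comp (Computable.const (k + 1)) comp_vl)
      have e3 := RecF.comp e2 e1
      exact e3
  have hY : RecF (fun (y : (Dt × Wt) × ℕ) W => yW γ K k I y.1 W y.2) := by
    have h1 := recF_I (α := (Dt × Wt) × ℕ) (φ := fun l y W =>
      Nat.pair (encode (vw k (fun j => W (Nat.pair j y.2)) l (fn y.1.2.2.1 y.2)))
        (encode ((tD γ K k I l y.1).getD y.2 none))) (fun l => ?_) I
    · exact RecF.comp Computable.encode h1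
    · have e1 : Computable (fun y : (Dt × Wt) × ℕ =>
          encode ((tD γ K k I l y.1).getD y.2 none)) :=
        Computable.encode.comp ((Primrec.list_getD (none : Mv)).to_comp.comp
          ((comp_tD K k I hγ l).comp Computable.fst) Computable.snd)
      have e2 := (recF_vwx k l).pair (RecF.of_computable e1)
      have e3 : Computable (fun z : ℕ × ℕ => Nat.pair z.1 z.2) :=
        Primrec₂.natPair.to_comp.comp Computable.fst Computable.snd
      have e4 := RecF.comp e3 e2
      exact e4
  unfold QM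
  refine Cop.and ?_ (Cop.and (Cop.of_computable ?_) (Cop.and ?_ ?_))
  · have h1 := recF_list (α := Dt × Wt) (z := fun x p W => vW k I x W p) hV c1
    have h2 := recF_list (α := Dt × Wt) (z := fun x p _ => vD k I x p) hD c1
    have h3 := Cop.of_recF (h1.pair h2) (p := fun z : List ℕ × List ℕ => z.1 = z.2)
      (MP_8c048d_lc.e3_cp_eq Computable.fst Computable.snd)
    exact h3
  · exact ⟨fun _ => inferInstance, (PrimrecRel.decide Primrec.nat_le).to_comp.comp c1 c2⟩
  · refine cop_I (P := fun l (x : Dt × Wt) _ =>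
      (x.2.2.2.getD l []).all (okm (sD γ K k I l x.1).2.1) = true ∧
      (run (tD γ K k I l x)).isSome = true ∧ x.2.1 ≤ (tD γ K k I l x).length) (fun l => ?_) I
    refine Cop.and (Cop.of_computable ?_) (Cop.and (Cop.of_computable ?_) (Cop.of_computable ?_))
    · refine MP_8c048d_lc.e3_cp_eq (prim_all.to_comp.comp (comp_wt l) ?_) (Computable.const true)
      exact Computable.fst.comp (Computable.snd.comp ((comp_sD K k I hγ l).comp Computable.fst))
    · exact MP_8c048d_lc.e3_cp_eq (Primrec.option_isSome.to_comp.comp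
        (prim_run.to_comp.comp (comp_tD K k I hγ l))) (Computable.const true)
    · exact ⟨fun _ => inferInstance, (PrimrecRel.decide Primrec.nat_le).to_comp.comp c2
        (Computable.list_length.comp (comp_tD K k I hγ l))⟩
  · have h1 := recF_list (α := Dt × Wt) (z := fun x p W => yW γ K k I x W p) hY c2
    have h2 : RecF (fun (x : Dt × Wt) (_ : ℕ → ℕ) => x.1.1) :=
      RecF.of_computable (Computable.fst.comp Computable.fst)
    have h3 := Cop.of_recF (h2.pair h1) MP_8c048d_lc.e3_cp_UR
    exact h3

end jl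

end Pool.Agent.Lib.MP_d48993_lc.Ind2
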