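import Pool.Agent.Lib.MP_d48993_lc.AE.Ind2.Jl

/-!
# Module IND2: the jump lemma, the equivalence
-/

set_option autoImplicit false

namespace Pool.Agent.Lib.MP_d48993_lc.Ind2

open MP_8c048d_lc (pre join RecF Cop UR length_pre pre_take pre_congr)
open Encodable (encode)
open Denumerable (ofNat)

theorem getD_range {β : Type} (f : ℕ → β) (d : β) {n l : ℕ} (h : l < n) :
    ((List.range n).map f).getD l d = f l := by
  rw [List.getD_eq_getElem _ _ (by rw [List.length_map, List.length_range]; exact h),
    List.getElem_map, List.getElem_range]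

theorem getD_rep (n q : ℕ) : (List.replicate n (none : Mv)).getD q none = none := by
  rw [List.getD_eq_getElem?_getD, List.getElem?_replicate]
  split_ifs <;> rfl

section jl2

variable (γ : ℕ → List ℕ → ℕ) (K k : ℕ) (I : List ℕ) (G : ℕ → ℕ)

/-- The layers over `G`. -/
noncomputable abbrev XG : ℕ → ℕ → ℕ → ℕ := fun l k => XL γ K l k G

/-- The state of the layer `k` of `l` at the place `p`. -/
noncomputable def sX (l p : ℕ) : ℕ × ℕ × List Mv :=
  stt (cer (γ l) K (K - (k + 1))) (cmf k) (XL γ K l (k + 1) G) p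

/-- The stops `ns` have the command `none`. -/
def StN (N : ℕ) (ns : List ℕ) : Prop :=
  ∀ l ∈ I, ns.getD l 0 < N ∧ (sX γ K k G l (ns.getD l 0)).1 = ns.getD l 0 ∧
    cmf k (XL γ K l (k + 1) G (ns.getD l 0)) = 0

/-- The data. -/
noncomputable def dat (e N : ℕ) (ns : List ℕ) : Dt := (e, pre (Jn (XG γ K G) I (k + 1)) N, ns)

variable {γ K k I G}

theorem sD_dat {l : ℕ} (hl : l ∈ I) {e N : ℕ} {ns : List ℕ} (h : ns.getD l 0 < N) :
    sD γ K k I l (dat γ K k I G e N ns) = sX γ K k G l (ns.getD l 0) := by
  unfold sD sX dat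
  simp only
  refine ((lay_facts _ _).loc _ _ _ fun i hi => ?_).1
  have h1 : cp (I.idxOf l) (fn (pre (Jn (XG γ K G) I (k + 1)) N)) i =
      cp (I.idxOf l) (Jn (XG γ K G) I (k + 1)) i := by
    unfold cp
    rw [fn_prefix (by omega)]
  rw [h1, cp_Jn _ hl]

theorem vD_dat (hk : k < K) {e N : ℕ} {ns : List ℕ} {w : Wt} {p : ℕ} (hp : p < N) :
    vD k I (dat γ K k I G e N ns, w) p =
      encode (I.map fun l => encode (vw k (fun i => Z i p) l (G p))) := by
  unfold vD dat
  simp only
  congr 1
  apply List.map_congr_left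
  intro l hl
  have h1 : cp (I.idxOf l) (fn (pre (Jn (XG γ K G) I (k + 1)) N)) p =
      cp (I.idxOf l) (Jn (XG γ K G) I (k + 1)) p := by
    unfold cp
    rw [fn_prefix hp]
  rw [h1, cp_Jn _ hl, vl_XL γ (by omega : k + 1 ≤ K), vw_take (by omega)]

theorem vw_WK (k l y p : ℕ) : vw k (fun j => WK k (Nat.pair j p)) l y =
    vw k (fun i => Z i p) l y :=
  vw_congr (fun _ hj => WK_pair (Nat.succ_le_of_lt hj) p) fun _ _ => rfl

theorem Jn_eq (hk : k < K) (G : ℕ → ℕ) (p : ℕ) : Jn (XG γ K G) I k p = encode (I.map fun l =>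
    Nat.pair (encode (vw k (fun i => Z i p) l (G p)))
      (encode (rr (cer (γ l) K (K - (k + 1))) (cmf k) (XL γ K l (k + 1) G) p))) := by
  unfold Jn
  congr 1
  apply List.map_congr_left
  intro l _
  show XL γ K l k G p = _
  rw [XL_succ γ hk, ← vsf_XL γ hk G p]
  rfl

/-- The question answers: if it is false, so is the fact. -/
theorem not_ex (hk : k < K) {n : ℕ} (hI : ∀ l ∈ I, l < n) {e N : ℕ} {ns : List ℕ}
    (hS : StN γ K k I G N ns)
    (hQ : ¬ ∃ w : Wt, QM γ K k I (dat γ K k I G e N ns, w) (WK k)) :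
    ¬ Ex e.unpair.1 e.unpair.2 (Jn (XG γ K G) I k) := by
  rintro ⟨M, hM⟩
  apply hQ
  obtain ⟨N', hN'1, hN'2⟩ : ∃ N', M ≤ N' ∧ N ≤ N' := ⟨max M N, le_max_left _ _, le_max_right _ _⟩
  -- the true continuations
  have h1 : ∀ l, ∃ w : List Mv, l ∈ I →
      txt (cer (γ l) K (K - (k + 1))) (cmf k) (XL γ K l (k + 1) G) N' =
        (sX γ K k G l (ns.getD l 0)).2.2 ++ w ∧
      w.all (okm (sX γ K k G l (ns.getD l 0)).2.1) = true := by
    intro l
    by_cases hl : l ∈ I
    · obtain ⟨h2, h3, h4⟩ := hS l hl
      obtain ⟨w, h5⟩ := (lay_facts (cer (γ l) K (K - (k + 1))) (cmf k)).non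
        (XL γ K l (k + 1) G) (ns.getD l 0) N' (by omega) h3 h4
      exact ⟨w, fun _ => h5⟩
    · exact ⟨[], fun h => absurd h hl⟩
  choose w hw using h1
  have hwt : ∀ l ∈ I, ((List.range n).map fun l => w l ++ List.replicate N' none).getD l [] =
      w l ++ List.replicate N' none := fun l hl => getD_range _ _ (hI l hl)
  refine ⟨(N', pre G N', (List.range n).map fun l => w l ++ List.replicate N' none), ?_, ?_, ?_, ?_⟩
  · apply List.map_congr_left
    intro p hp
    rw [List.mem_range] at hp
    change p < (pre (Jn (XG γ K G) I (k + 1)) N).length at hp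
    rw [length_pre] at hp
    rw [vD_dat hk hp]
    unfold vW
    simp only
    congr 1
    apply List.map_congr_left
    intro l _
    rw [fn_prefix (by omega), vw_WK]
  · show (pre _ N).length ≤ N'
    rw [length_pre]
    exact hN'2
  · intro l hl
    have hs := sD_dat (γ := γ) (K := K) (k := k) (G := G) hl (e := e) (hS l hl).1
    obtain ⟨h2, h3⟩ := hw l hl
    unfold tD
    simp only
    rw [hs, hwt l hl]
    refine ⟨?_, ?_, ?_⟩
    · rw [List.all_append, h3]
      simp [okm]
    · rw [← List.append_assoc, ← h2, run_append, runs_replicate]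
      exact (lay_facts _ _).leg _ _
    · simp only [List.length_append, List.length_replicate]
      omega
  · have h2 : (List.range N').map (fun p => yW γ K k I (dat γ K k I G e N ns,
        (N', pre G N', (List.range n).map fun l => w l ++ List.replicate N' none)) (WK k) p) =
        pre (Jn (XG γ K G) I k) N' := by
      show _ = (List.range N').map (Jn (XG γ K G) I k)
      apply List.map_congr_left
      intro p hp
      rw [List.mem_range] at hp
      rw [Jn_eq hk]
      unfold yW
      simp only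
      congr 1
      apply List.map_congr_left
      intro l hl
      have hs := sD_dat (γ := γ) (K := K) (k := k) (G := G) hl (e := e) (hS l hl).1
      obtain ⟨h2, h3⟩ := hw l hl
      rw [fn_prefix hp, vw_WK]
      congr 2
      unfold tD
      simp only
      rw [hs, hwt l hl, ← List.append_assoc, ← h2,
        (lay_facts _ _).rrt _ N' p (Or.inl hp)]
      by_cases h4 : p < (txt (cer (γ l) K (K - (k + 1))) (cmf k) (XL γ K l (k + 1) G) N').length
      · rw [List.getD_append _ _ _ _ h4]
      · rw [List.getD_append_right _ _ _ _ (Nat.le_of_not_lt h4), getD_rep]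
        exact (List.getD_eq_default _ _ (Nat.le_of_not_lt h4)).symm
    show UR e.unpair.1 e.unpair.2 ((List.range N').map fun p => yW γ K k I (dat γ K k I G e N ns,
        (N', pre G N', (List.range n).map fun l => w l ++ List.replicate N' none)) (WK k) p)
    rw [h2]
    exact UR_mono (pre_pfx _ hN'1) hM

end jl2

end Pool.Agent.Lib.MP_d48993_lc.Ind2
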