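import Pool.Agent.Lib.MP_d48993_lc.Red
import Pool.Agent.Lib.MP_d48993_lc.Enum
import Pool.Agent.Lib.MP_8c048d_lc.CE

/-!
# Module IND2 (finding 4156), part 1: the jump

`J F` is the jump of `F`; `Z k` is the `k`-th jump of the zero function.
-/

set_option autoImplicit false

namespace Pool.Agent.Lib.MP_d48993_lc.Ind2

open MP_8c048d_lc (pre join RecF Cop UR length_pre pre_take UR_pre e3_exists_code e3_cp_UR)

variable {α β γ : Type} [Primcodable α] [Primcodable β] [Primcodable γ]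

/-- `Σ⁰₁` relations. -/
def S1 {α : Type} [Primcodable α] (P : α → (ℕ → ℕ) → Prop) : Prop :=
  ∃ d : α × ℕ → (ℕ → ℕ) → Bool, RecF d ∧ ∀ a F, P a F ↔ ∃ m, d (a, m) F = true

/-- `P` is `Σ⁰₁` in `F`. -/
def Sg {α : Type} [Primcodable α] (F : ℕ → ℕ) (P : α → Prop) : Prop :=
  ∃ Q : α → (ℕ → ℕ) → Prop, S1 Q ∧ ∀ a, P a ↔ Q a F

/-- The `Σ⁰₁` fact about `F` with the number `e` and the parameter `n`. -/
def Ex (e n : ℕ) (F : ℕ → ℕ) : Prop := ∃ k, UR e n (pre F k)

open Classical in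
/-- The jump. -/
noncomputable def J (F : ℕ → ℕ) : ℕ → ℕ :=
  fun p => if Ex p.unpair.1 p.unpair.2 F then 1 else 0

/-- The finite jumps. -/
noncomputable def Z : ℕ → ℕ → ℕ
  | 0 => fun _ => 0
  | k + 1 => J (Z k)

theorem J_eq_one (F : ℕ → ℕ) (p : ℕ) : J F p = 1 ↔ Ex p.unpair.1 p.unpair.2 F := by
  unfold J
  split_ifs with h <;> simp [h]

theorem J_eq_zero (F : ℕ → ℕ) (p : ℕ) : J F p = 0 ↔ ¬ Ex p.unpair.1 p.unpair.2 F := by
  unfold J
  split_ifs with h <;> simp [h]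

/-! ## Calculus -/

theorem S1.congr {P Q : α → (ℕ → ℕ) → Prop} (h : S1 P) (e : ∀ a F, P a F ↔ Q a F) : S1 Q := by
  have : P = Q := by funext a F; exact propext (e a F)
  rw [← this]; exact h

theorem S1.ofRecF {d : α → (ℕ → ℕ) → Bool} (hd : RecF d) : S1 (fun a F => d a F = true) :=
  ⟨fun p F => d p.1 F, hd.comp₁ Computable.fst, fun _ _ => ⟨fun h => ⟨0, h⟩, fun ⟨_, h⟩ => h⟩⟩

theorem S1.ofCop {P : α → (ℕ → ℕ) → Prop} (h : Cop P) : S1 P := by
  obtain ⟨d, hd, e⟩ := h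
  exact (S1.ofRecF hd).congr fun a F => (e a F).symm

/-- Substitution. -/
theorem S1.subst {P : β → (ℕ → ℕ) → Prop} (h : S1 P) {ψ : α → (ℕ → ℕ) → β} (hψ : RecF ψ)
    {Ψ : α → (ℕ → ℕ) → ℕ → ℕ} (hΨ : RecF (fun (p : α × ℕ) F => Ψ p.1 F p.2)) :
    S1 (fun a F => P (ψ a F) (Ψ a F)) := by
  obtain ⟨d, hd, h1⟩ := h
  refine ⟨fun p F => d (ψ p.1 F, p.2) (Ψ p.1 F), ?_, fun a F => h1 _ _⟩
  refine hd.subst (ψ := fun (p : α × ℕ) F => (ψ p.1 F, p.2)) ?_ (Ψ := fun (p : α × ℕ) F => Ψ p.1 F)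
    ?_
  · exact (hψ.comp₁ Computable.fst).pair (RecF.of_computable Computable.snd)
  · exact hΨ.comp₁ (f := fun p : (α × ℕ) × ℕ => (p.1.1, p.2))
      ((Computable.fst.comp Computable.fst).pair Computable.snd)

theorem S1.bind {P : β → (ℕ → ℕ) → Prop} (h : S1 P) {ψ : α → (ℕ → ℕ) → β} (hψ : RecF ψ) :
    S1 (fun a F => P (ψ a F) F) :=
  h.subst hψ (Ψ := fun _ F => F) (RecF.app (RecF.of_computable Computable.snd))

theorem S1.comp {P : β → (ℕ → ℕ) → Prop} (h : S1 P) {f : α → β} (hf : Computable f) :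
    S1 (fun a F => P (f a) F) := h.bind (RecF.of_computable hf)

theorem S1.exN {P : α → ℕ → (ℕ → ℕ) → Prop} (h : S1 (fun (p : α × ℕ) F => P p.1 p.2 F)) :
    S1 (fun a F => ∃ n, P a n F) := by
  obtain ⟨d, hd, h1⟩ := h
  refine ⟨fun p F => d ((p.1, p.2.unpair.1), p.2.unpair.2) F, ?_, fun a F => ?_⟩
  · exact hd.comp₁ (f := fun p : α × ℕ => ((p.1, p.2.unpair.1), p.2.unpair.2))
      ((Computable.fst.pair (Computable.fst.comp (Computable.unpair.comp Computable.snd))).pair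
        (Computable.snd.comp (Computable.unpair.comp Computable.snd)))
  · constructor
    · rintro ⟨n, hn⟩
      obtain ⟨m, hm⟩ := (h1 (a, n) F).1 hn
      exact ⟨Nat.pair n m, by simpa using hm⟩
    · rintro ⟨m, hm⟩
      exact ⟨m.unpair.1, (h1 (a, m.unpair.1) F).2 ⟨_, hm⟩⟩

theorem S1.ex {P : α → β → (ℕ → ℕ) → Prop} (h : S1 (fun (p : α × β) F => P p.1 p.2 F)) :
    S1 (fun a F => ∃ b, P a b F) := by
  have h1 : S1 (fun (p : α × ℕ) F => ∃ b, (Encodable.decode p.2 : Option β) = some b ∧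
      P p.1 b F) := by
    obtain ⟨d, hd, h1⟩ := h
    have h2 : RecF (fun (p : (α × ℕ) × ℕ) F => ((Encodable.decode p.2 : Option β).elim false
        fun b => d ((p.1.1, b), p.1.2) F)) := by
      refine RecF.decode (d := fun (p : (α × ℕ) × β) F => d ((p.1.1, p.2), p.1.2) F) ?_ false
      exact hd.comp₁ (f := fun p : (α × ℕ) × β => ((p.1.1, p.2), p.1.2))
        (((Computable.fst.comp Computable.fst).pair Computable.snd).pair
          (Computable.snd.comp Computable.fst))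
    refine ⟨fun p F => ((Encodable.decode p.1.2 : Option β).elim false
        fun b => d ((p.1.1, b), p.2) F), ?_, fun a F => ?_⟩
    · exact h2.comp₁ (f := fun p : (α × ℕ) × ℕ => ((p.1.1, p.2), p.1.2))
        (((Computable.fst.comp Computable.fst).pair Computable.snd).pair
          (Computable.snd.comp Computable.fst))
    · cases hc : (Encodable.decode a.2 : Option β) with
      | none => simp [hc]
      | some b =>
        simp only [hc, Option.some.injEq, Option.elim_some]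
        rw [← h1 (a.1, b) F]
        constructor
        · rintro ⟨b', rfl, h3⟩; exact h3
        · intro h3; exact ⟨b, rfl, h3⟩
  refine (S1.exN (P := fun (a : α) (n : ℕ) F => ∃ b, (Encodable.decode n : Option β) = some b ∧
      P a b F) h1).congr fun a F => ?_
  constructor
  · rintro ⟨n, b, -, hb⟩; exact ⟨b, hb⟩
  · rintro ⟨b, hb⟩; exact ⟨Encodable.encode b, b, Encodable.encodek b, hb⟩

theorem S1.and {P Q : α → (ℕ → ℕ) → Prop} (h : S1 P) (h' : S1 Q) :
    S1 (fun a F => P a F ∧ Q a F) := by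
  obtain ⟨d, hd, h1⟩ := h
  obtain ⟨d', hd', h1'⟩ := h'
  have e : S1 (fun (a : α) F => ∃ n : ℕ × ℕ, d (a, n.1) F = true ∧ d' (a, n.2) F = true) := by
    refine S1.ex (P := fun a (n : ℕ × ℕ) F => d (a, n.1) F = true ∧ d' (a, n.2) F = true) ?_
    refine S1.ofCop (Cop.and ?_ ?_)
    · exact ⟨fun p F => d (p.1, p.2.1) F, hd.comp₁ (f := fun p : α × ℕ × ℕ => (p.1, p.2.1))
        (Computable.fst.pair (Computable.fst.comp Computable.snd)), fun _ _ => Iff.rfl⟩
    · exact ⟨fun p F => d' (p.1, p.2.2) F, hd'.comp₁ (f := fun p : α × ℕ × ℕ => (p.1, p.2.2))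
        (Computable.fst.pair (Computable.snd.comp Computable.snd)), fun _ _ => Iff.rfl⟩
  refine e.congr fun a F => ?_
  rw [h1, h1']
  constructor
  · rintro ⟨n, h2, h3⟩; exact ⟨⟨_, h2⟩, ⟨_, h3⟩⟩
  · rintro ⟨⟨n, h2⟩, ⟨m, h3⟩⟩; exact ⟨(n, m), h2, h3⟩

theorem S1.or {P Q : α → (ℕ → ℕ) → Prop} (h : S1 P) (h' : S1 Q) :
    S1 (fun a F => P a F ∨ Q a F) := by
  obtain ⟨d, hd, h1⟩ := h
  obtain ⟨d', hd', h1'⟩ := h'
  have e : S1 (fun (a : α) F => ∃ n : ℕ, d (a, n) F = true ∨ d' (a, n) F = true) :=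
    S1.exN (S1.ofCop (Cop.or ⟨d, hd, fun _ _ => Iff.rfl⟩ ⟨d', hd', fun _ _ => Iff.rfl⟩))
  refine e.congr fun a F => ?_
  rw [h1, h1']
  constructor
  · rintro ⟨n, h2 | h2⟩
    · exact Or.inl ⟨_, h2⟩
    · exact Or.inr ⟨_, h2⟩
  · rintro (⟨n, h2⟩ | ⟨n, h2⟩)
    · exact ⟨n, Or.inl h2⟩
    · exact ⟨n, Or.inr h2⟩

theorem cop_UR : Cop (fun (p : ℕ × ℕ × ℕ) F => UR p.1 p.2.1 (pre F p.2.2)) := by
  have h1 : RecF (fun (p : ℕ × ℕ × ℕ) F => (Nat.pair p.1 p.2.1, pre F p.2.2)) := by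
    refine RecF.pair (RecF.of_computable ?_) ?_
    · exact Primrec₂.natPair.to_comp.comp Computable.fst (Computable.fst.comp Computable.snd)
    · exact RecF.pre.comp₁ (f := fun p : ℕ × ℕ × ℕ => p.2.2)
        (Computable.snd.comp Computable.snd)
  refine (Cop.of_recF h1 e3_cp_UR).congr fun a F => ?_
  simp only [Nat.unpair_pair]

theorem s1_Ex : S1 (fun (p : ℕ × ℕ) F => Ex p.1 p.2 F) := by
  refine S1.exN (P := fun (p : ℕ × ℕ) k F => UR p.1 p.2 (pre F k)) ?_
  exact S1.ofCop (cop_UR.comp (f := fun p : (ℕ × ℕ) × ℕ => (p.1.1, p.1.2, p.2))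
    ((Computable.fst.comp Computable.fst).pair
      ((Computable.snd.comp Computable.fst).pair Computable.snd)))

/-- A total extension of a computable test. -/
theorem cp_dec {f : α × List ℕ → Bool} (hf : Computable f) :
    ComputablePred (fun x : ℕ × List ℕ =>
      ((Encodable.decode x.1 : Option α).map (fun a => f (a, x.2))) = some true) := by
  have h1 : Computable (fun x : ℕ × List ℕ =>
      (Encodable.decode x.1 : Option α).map (fun a => f (a, x.2))) := by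
    refine Computable.option_map (f := fun x : ℕ × List ℕ => (Encodable.decode x.1 : Option α))
      (g := fun (x : ℕ × List ℕ) (a : α) => f (a, x.2)) (Computable.decode.comp Computable.fst) ?_
    exact hf.comp (Computable.snd.pair (Computable.snd.comp Computable.fst))
  exact MP_8c048d_lc.e3_cp_eq h1 (Computable.const (some true))

/-- The bounded search. -/
theorem comp_any {q : (α × ℕ) × List ℕ → Option Bool} (hq : Computable q) :
    Computable (fun x : α × List ℕ => (List.range x.2.length).any fun m =>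
        decide (q ((x.1, m), x.2) = some true)) := by
  have h6 : ComputablePred (fun x : (α × List ℕ) × ℕ => q ((x.1.1, x.2), x.1.2) = some true) :=
    MP_8c048d_lc.e3_cp_eq (hq.comp (((Computable.fst.comp Computable.fst).pair
      Computable.snd).pair (Computable.snd.comp Computable.fst))) (Computable.const _)
  have h7 := MP_8c048d_lc.e3_cp_exists_lt h6 (f := fun x : α × List ℕ => x.2.length)
    (Computable.list_length.comp Computable.snd)
  obtain ⟨f, hf, e⟩ := MP_8c048d_lc.e3_cp_iff.1 h7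
  refine hf.of_eq fun x => ?_
  rw [Bool.eq_iff_iff, ← e x]
  simp

/-- Every `Σ⁰₁` relation has a number. -/
theorem S1.index {P : α → (ℕ → ℕ) → Prop} (h : S1 P) :
    ∃ e : ℕ, ∀ a F, P a F ↔ Ex e (Encodable.encode a) F := by
  obtain ⟨d, hd, h1⟩ := h
  obtain ⟨q, hq, h2, h3⟩ := hd.mono
  have h4 := cp_dec (comp_any hq)
  obtain ⟨c, hc⟩ := e3_exists_code h4
  refine ⟨Encodable.encode c, fun a F => ?_⟩
  unfold Ex
  have hc' : ∀ L : List ℕ, (∃ k, Nat.Partrec.Code.evaln k c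
      (Encodable.encode (Encodable.encode a, L)) = some 1) ↔
      ∃ m < L.length, q ((a, m), L) = some true := by
    intro L
    rw [hc (Encodable.encode a, L)]
    simp [Encodable.encodek]
  rw [UR_pre, Denumerable.ofNat_encode, h1]
  simp only [hc']
  constructor
  · rintro ⟨m, hm⟩
    obtain ⟨k0, hk0⟩ := h3 (a, m) F
    refine ⟨max k0 (m + 1), m, ?_, ?_⟩
    · rw [length_pre]; exact lt_of_lt_of_le (Nat.lt_succ_self m) (le_max_right _ _)
    · rw [hk0 _ (le_max_left _ _), hm]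
  · rintro ⟨j, m, -, hm⟩
    exact ⟨m, h2 _ _ _ _ hm⟩

theorem Sg.ofS1 {P : α → (ℕ → ℕ) → Prop} (h : S1 P) (F : ℕ → ℕ) : Sg F (fun a => P a F) :=
  ⟨P, h, fun _ => Iff.rfl⟩

/-- Change of the oracle. -/
theorem Sg.red {F G : ℕ → ℕ} (hFG : Red F G) {P : α → Prop} (h : Sg F P) : Sg G P := by
  obtain ⟨Q, ⟨d, hd, h1⟩, e⟩ := h
  obtain ⟨Φ, hΦ⟩ := enum
  obtain ⟨i, hi, hi'⟩ := (hΦ.spec F G).1 hFG
  obtain ⟨q, hq, h2, h3⟩ := hd
  refine ⟨fun a G => ∃ n : ℕ × ℕ × ℕ, q ((a, n.1), (Φ i (pre G n.2.1)).take n.2.2) = some true,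
    ?_, fun a => ?_⟩
  · refine S1.ex (P := fun (a : α) (n : ℕ × ℕ × ℕ) G =>
      q ((a, n.1), (Φ i (pre G n.2.1)).take n.2.2) = some true) (S1.ofCop ?_)
    have h4 : RecF (fun (p : α × ℕ × ℕ × ℕ) G =>
        q ((p.1, p.2.1), (Φ i (pre G p.2.2.1)).take p.2.2.2)) := by
      refine RecF.comp hq (RecF.pair (RecF.of_computable ?_) ?_)
      · exact Computable.fst.pair (Computable.fst.comp Computable.snd)
      · have h5 : RecF (fun (p : α × ℕ × ℕ × ℕ) G => (pre G p.2.2.1, p.2.2.2)) :=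
          (RecF.pre.comp₁ (f := fun p : α × ℕ × ℕ × ℕ => p.2.2.1) (Computable.fst.comp
            (Computable.snd.comp Computable.snd))).pair (RecF.of_computable
              (Computable.snd.comp (Computable.snd.comp Computable.snd)))
        refine RecF.comp (g := fun x : List ℕ × ℕ => (Φ i x.1).take x.2) ?_ h5
        exact Computable.of_eq (f := fun x : List ℕ × ℕ => (Φ i x.1).take x.2)
          (Primrec.list_take.to_comp.comp Computable.snd
            (hΦ.comp.comp (Computable.const i) Computable.fst)) fun _ => rfl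
    exact Cop.of_recF h4 (p := fun o : Option Bool => o = some true)
      (MP_8c048d_lc.e3_cp_eq Computable.id (Computable.const _))
  · rw [e, h1]
    constructor
    · rintro ⟨m, hm⟩
      obtain ⟨k, hk⟩ := h3 (a, m) F
      obtain ⟨j, hj⟩ := hi' k
      refine ⟨(m, j, k), ?_⟩
      simp only
      rw [hi j, pre_take, min_eq_left hj, hk, hm]
    · rintro ⟨⟨m, j, k⟩, h4⟩
      simp only at h4
      rw [hi j, pre_take] at h4
      exact ⟨m, h2 _ _ _ _ h4⟩

/-- A function with a `Σ⁰₁` graph. -/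
theorem red_of_graph {f G : ℕ → ℕ} (h : Sg G (fun p : ℕ × ℕ => f p.1 = p.2)) : Red f G := by
  obtain ⟨Q, ⟨d, hd, h1⟩, e⟩ := h
  have h2 : Cop (fun (p : ℕ × ℕ) F => d ((p.1, p.2.unpair.1), p.2.unpair.2) F = true) :=
    ⟨_, hd.comp₁ (f := fun p : ℕ × ℕ => ((p.1, p.2.unpair.1), p.2.unpair.2))
      ((Computable.fst.pair (Computable.fst.comp (Computable.unpair.comp Computable.snd))).pair
        (Computable.snd.comp (Computable.unpair.comp Computable.snd))), fun _ _ => Iff.rfl⟩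
  obtain ⟨g, hg, h3⟩ := redMu (fun n m F => d ((n, m.unpair.1), m.unpair.2) F = true) h2 G
    (fun n => by
      obtain ⟨m, hm⟩ := (h1 (n, f n) G).1 ((e (n, f n)).1 rfl)
      exact ⟨Nat.pair (f n) m, by simpa using hm⟩)
  have h4 : ∀ n, f n = (g n).unpair.1 := fun n =>
    (e (n, (g n).unpair.1)).2 ((h1 _ _).2 ⟨_, h3 n⟩)
  have h5 : Red (fun n => (g n).unpair.1) g := by
    have h6 : RecF (fun (n : ℕ) (F : ℕ → ℕ) => (F n).unpair.1) :=
      RecF.comp (Computable.fst.comp Computable.unpair) (RecF.at Computable.id)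
    exact red1 _ h6 g
  have h7 : f = fun n => (g n).unpair.1 := funext h4
  rw [h7]
  exact h5.trans hg

/-- Questions are answered by the jump. -/
theorem Sg.toJ {F : ℕ → ℕ} {P : α → Prop} (h : Sg F P) :
    ∃ ι : α → ℕ, Computable ι ∧ ∀ a, P a ↔ J F (ι a) = 1 := by
  obtain ⟨Q, hQ, e⟩ := h
  obtain ⟨c, hc⟩ := hQ.index
  refine ⟨fun a => Nat.pair c (Encodable.encode a), ?_, fun a => ?_⟩
  · exact Primrec₂.natPair.to_comp.comp (Computable.const c) Computable.encode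
  · rw [J_eq_one, e, hc, Nat.unpair_pair]

/-- Uniform version. -/
theorem S1.toJ {P : α → (ℕ → ℕ) → Prop} (h : S1 P) :
    ∃ ι : α → ℕ, Computable ι ∧ ∀ a F, P a F ↔ J F (ι a) = 1 := by
  obtain ⟨c, hc⟩ := h.index
  refine ⟨fun a => Nat.pair c (Encodable.encode a), ?_, fun a F => ?_⟩
  · exact Primrec₂.natPair.to_comp.comp (Computable.const c) Computable.encode
  · rw [J_eq_one, hc, Nat.unpair_pair]

theorem J_ne_one (F : ℕ → ℕ) (p : ℕ) : J F p ≠ 1 ↔ J F p = 0 := by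
  rw [ne_eq, J_eq_one, J_eq_zero]

theorem cop_app_eq (f : α → ℕ) (hf : Computable f) (c : ℕ) : Cop (fun (a : α) F => F (f a) = c) :=
  Cop.app_eq hf (Computable.const c)

/-- `Σ⁰₁` relations and their complements are `Σ⁰₁` in the jump. -/
theorem Sg.jump {F : ℕ → ℕ} {P : α → Prop} (h : Sg F P) :
    Sg (J F) P ∧ Sg (J F) (fun a => ¬ P a) := by
  obtain ⟨ι, hι, e⟩ := h.toJ
  refine ⟨⟨fun a G => G (ι a) = 1, S1.ofCop (cop_app_eq ι hι 1), e⟩,
    ⟨fun a G => G (ι a) = 0, S1.ofCop (cop_app_eq ι hι 0), fun a => ?_⟩⟩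
  show ¬ P a ↔ J F (ι a) = 0
  rw [e, ← ne_eq, J_ne_one]

/-- A function is below its jump. -/
theorem red_J (F : ℕ → ℕ) : Red F (J F) := by
  have h : S1 (fun (p : ℕ × ℕ) F => F p.1 = p.2) :=
    S1.ofCop (Cop.app_eq Computable.fst Computable.snd)
  exact red_of_graph (Sg.jump (Sg.ofS1 h F)).1

/-- A criterion for being above a jump. -/
theorem J_red_of {F G : ℕ → ℕ} (h1 : Sg G (fun p : ℕ => Ex p.unpair.1 p.unpair.2 F))
    (h2 : Sg G (fun p : ℕ => ¬ Ex p.unpair.1 p.unpair.2 F)) : Red (J F) G := by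
  apply red_of_graph
  obtain ⟨Q1, hQ1, e1⟩ := h1
  obtain ⟨Q2, hQ2, e2⟩ := h2
  refine ⟨fun p G => (Q1 p.1 G ∧ p.2 = 1) ∨ (Q2 p.1 G ∧ p.2 = 0), ?_, fun p => ?_⟩
  · refine S1.or (S1.and (hQ1.comp Computable.fst) (S1.ofCop (Cop.of_computable ?_)))
      (S1.and (hQ2.comp Computable.fst) (S1.ofCop (Cop.of_computable ?_)))
    · exact MP_8c048d_lc.e3_cp_eq Computable.snd (Computable.const _)
    · exact MP_8c048d_lc.e3_cp_eq Computable.snd (Computable.const _)
  · show J F p.1 = p.2 ↔ (Q1 p.1 G ∧ p.2 = 1) ∨ (Q2 p.1 G ∧ p.2 = 0)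
    rw [← e1, ← e2]
    by_cases h : Ex p.1.unpair.1 p.1.unpair.2 F
    · rw [(J_eq_one F p.1).2 h]
      simp [h, eq_comm]
    · rw [(J_eq_zero F p.1).2 h]
      simp [h, eq_comm]

/-- The jump is monotone. -/
theorem J_mono {F G : ℕ → ℕ} (h : Red F G) : Red (J F) (J G) := by
  have h1 : Sg F (fun p : ℕ => Ex p.unpair.1 p.unpair.2 F) :=
    Sg.ofS1 (s1_Ex.comp (f := fun p : ℕ => p.unpair) Computable.unpair) F
  have h2 := (h1.red h).jump
  exact J_red_of h2.1 h2.2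

theorem red_Z_succ (k : ℕ) : Red (Z k) (Z (k + 1)) := red_J (Z k)

theorem red_Z {j k : ℕ} (h : j ≤ k) : Red (Z j) (Z k) := by
  induction k, h using Nat.le_induction with
  | base => exact Red.rfl
  | succ n _ ih => exact ih.trans (red_Z_succ n)

end Pool.Agent.Lib.MP_d48993_lc.Ind2
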