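import Pool.Agent.Lib.MP_d48993_lc.AE.Ind2.LayS

/-!
# Module IND2: the facts about one layer
-/

set_option autoImplicit false

namespace Pool.Agent.Lib.MP_d48993_lc.Ind2

open MP_8c048d_lc (pre join RecF Cop UR length_pre pre_take pre_congr)
open Encodable (encode)
open Denumerable (ofNat)

/-! ## Texts -/

/-- The run from a state. -/
def runs (S : Option (List (List ℕ) × List ℕ)) (w : List Mv) : Option (List (List ℕ) × List ℕ) :=
  w.foldl (fun S m => S.bind fun p => mvo p m) S

theorem runs_nil (S : Option (List (List ℕ) × List ℕ)) : runs S [] = S := rfl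

theorem runs_cons (S : Option (List (List ℕ) × List ℕ)) (m : Mv) (w : List Mv) :
    runs S (m :: w) = runs (S.bind fun p => mvo p m) w := rfl

theorem runs_append (S : Option (List (List ℕ) × List ℕ)) (v w : List Mv) :
    runs S (v ++ w) = runs (runs S v) w := by
  unfold runs
  rw [List.foldl_append]

theorem runs_none (w : List Mv) : runs none w = none := by
  induction w with
  | nil => rfl
  | cons m w ih => rw [runs_cons]; exact ih

theorem run_append (v w : List Mv) : run (v ++ w) = runs (run v) w :=
  runs_append _ v w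

theorem runs_some {S : Option (List (List ℕ) × List ℕ)} {w : List Mv}
    (h : (runs S w).isSome = true) : S.isSome = true := by
  cases S with
  | none => rw [runs_none] at h; exact absurd h (by simp)
  | some p => rfl

theorem runs_replicate (S : Option (List (List ℕ) × List ℕ)) (k : ℕ) :
    runs S (List.replicate k none) = S := by
  induction k with
  | zero => rfl
  | succ k ih =>
    rw [List.replicate_succ, runs_cons]
    have : (S.bind fun p => mvo p none) = S := by
      cases S <;> rfl
    rw [this, ih]

theorem run_prefix {v w : List Mv} (h : v <+: w) (hw : (run w).isSome = true) :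
    (run v).isSome = true := by
  obtain ⟨t, rfl⟩ := h
  rw [run_append] at hw
  exact runs_some hw

theorem getD_pfx {v w : List Mv} (h : v <+: w) {p : ℕ} (hp : p < v.length) :
    w.getD p none = v.getD p none := by
  obtain ⟨t, rfl⟩ := h
  rw [List.getD_append _ _ _ _ hp]

/-- Texts without `R j`, `j ≤ u`. -/
theorem runs_ok {u : ℕ} {w : List Mv} (hw : w.all (okm u) = true) :
    ∀ {L U L' U'}, u ≤ L.length → runs (some (L, U)) w = some (L', U') →
      L'.take u = L.take u ∧ u ≤ L'.length ∧ ∀ j ≤ u, j ∈ U' → j ∈ U := by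
  induction w with
  | nil =>
    intro L U L' U' hL h
    rw [runs_nil, Option.some.injEq, Prod.mk.injEq] at h
    obtain ⟨rfl, rfl⟩ := h
    exact ⟨rfl, hL, fun _ _ h => h⟩
  | cons m w ih =>
    intro L U L' U' hL h
    rw [List.all_cons, Bool.and_eq_true] at hw
    rw [runs_cons] at h
    match m, hw.1, h with
    | none, _, h => exact ih hw.2 hL h
    | some (Sum.inl s), _, h =>
      obtain ⟨h1, h2, h3⟩ := ih hw.2 (L := L ++ [s]) (U := U) (by simp; omega) h
      refine ⟨?_, h2, h3⟩
      rw [h1, List.take_append_of_le_length hL]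
    | some (Sum.inr j), hj, h =>
      have hj' : u < j := by simpa [okm] using hj
      by_cases hc : U.contains j = true
      · have : ((some (L, U) : Option (List (List ℕ) × List ℕ)).bind
            fun p => mvo p (some (Sum.inr j))) = none := by
          simp only [Option.bind_some, mvo, hc, if_true]
        rw [this, runs_none] at h
        exact absurd h (by simp)
      · have : ((some (L, U) : Option (List (List ℕ) × List ℕ)).bind
            fun p => mvo p (some (Sum.inr j))) =
            some (L.take j, j :: U.filter (fun i => decide (i < j))) := by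
          simp only [Option.bind_some, mvo, if_neg hc]
        rw [this] at h
        obtain ⟨h1, h2, h3⟩ := ih hw.2 (L := L.take j)
          (U := j :: U.filter (fun i => decide (i < j))) (by rw [List.length_take]; omega) h
        refine ⟨?_, h2, fun i hi h4 => ?_⟩
        · rw [h1, List.take_take, min_eq_left hj'.le]
        · have h5 := h3 i hi h4
          rw [List.mem_cons] at h5
          rcases h5 with h5 | h5
          · omega
          · exact (List.mem_filter.1 h5).1

theorem ex_cases (c u : ℕ) (s : List Mv) : ex c u s = [] ∨ ∃ w : List Mv,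
    w.all (okm u) = true ∧ (run (s ++ (w ++ [some (Sum.inr u)]))).isSome = true ∧
    ex c u s = w ++ [some (Sum.inr u)] := by
  unfold ex
  split
  · exact Or.inl rfl
  · rename_i w _
    split_ifs with h
    · rw [Bool.and_eq_true] at h
      exact Or.inr ⟨w, h.1, h.2, rfl⟩
    · exact Or.inl rfl

theorem ex_zero (u : ℕ) (s : List Mv) : ex 0 u s = [] := rfl

theorem ex_enc {u : ℕ} {s w : List Mv} (h1 : w.all (okm u) = true)
    (h2 : (run (s ++ (w ++ [some (Sum.inr u)]))).isSome = true) :
    ex (encode (some w : Option (List Mv))) u s = w ++ [some (Sum.inr u)] := by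
  unfold ex
  rw [Denumerable.ofNat_encode]
  simp only
  rw [if_pos]
  rw [Bool.and_eq_true]
  exact ⟨h1, h2⟩

theorem ex_okm (c u : ℕ) (s : List Mv) {v : ℕ} (hv : v < u) : (ex c u s).all (okm v) = true := by
  rcases ex_cases c u s with h | ⟨w, h1, -, h3⟩
  · rw [h]; rfl
  · rw [h3, List.all_append, Bool.and_eq_true]
    constructor
    · rw [List.all_eq_true] at h1 ⊢
      intro m hm
      have := h1 m hm
      match m, this with
      | none, _ => rfl
      | some (Sum.inl _), _ => rfl
      | some (Sum.inr j), h => 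
        simp only [okm, decide_eq_true_eq] at h ⊢
        omega
    · simp [okm, hv]

/-- The state after the moves of a slot. -/
theorem run_ex {u : ℕ} {s : List Mv} {L : List (List ℕ)} {U : List ℕ} (h : run s = some (L, U))
    (hL : L.length = u) (hU : ∀ j ∈ U, j < u) (c : ℕ) :
    ∃ U1, run (s ++ ex c u s) = some (L, U1) ∧ ∀ j ∈ U1, j < u + 1 := by
  rcases ex_cases c u s with h1 | ⟨w, h1, h2, h3⟩
  · rw [h1, List.append_nil]
    exact ⟨U, h, fun j hj => Nat.lt_succ_of_lt (hU j hj)⟩
  · rw [h3]
    rw [run_append, h, runs_append] at h2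
    obtain ⟨⟨L', U'⟩, h4⟩ := Option.isSome_iff_exists.1 (runs_some h2)
    obtain ⟨h5, h6, h7⟩ := runs_ok h1 (by omega) h4
    rw [run_append, h, runs_append, h4]
    have h8 : U'.contains u = false := by
      by_contra h9
      rw [Bool.not_eq_false, List.contains_iff_mem] at h9
      exact absurd (hU u (h7 u le_rfl h9)) (lt_irrefl _)
    refine ⟨u :: U'.filter (fun i => decide (i < u)), ?_, ?_⟩
    · show (some (L', U')).bind (fun p => mvo p (some (Sum.inr u))) = _
      have h9 : L'.take u = L := by rw [h5, List.take_of_length_le hL.le]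
      simp only [Option.bind_some, mvo, h8, h9]
      rfl
    · intro j hj
      rw [List.mem_cons] at hj
      rcases hj with rfl | hj
      · omega
      · have := (List.mem_filter.1 hj).2
        simp only [decide_eq_true_eq] at this
        omega

/-! ## The layer -/

section layer

variable (γ : List ℕ → ℕ) (cmd : ℕ → ℕ)

theorem stp_pos {τ : List ℕ} {r : ℕ × ℕ × List Mv} (h : r.2.1 < γ τ) :
    stp γ cmd τ r = (τ.length, r.2.1 + 1,
      (r.2.2 ++ ex (cmd (τ.getD r.1 0)) r.2.1 r.2.2) ++
        (List.replicate (τ.length - (r.2.2 ++ ex (cmd (τ.getD r.1 0)) r.2.1 r.2.2).length) none ++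
          [some (Sum.inl τ)])) := by
  unfold stp
  rw [if_pos h]

theorem stp_neg {τ : List ℕ} {r : ℕ × ℕ × List Mv} (h : ¬ r.2.1 < γ τ) :
    stp γ cmd τ r = r := by
  unfold stp
  rw [if_neg h]

theorem getD_pre {F : ℕ → ℕ} {n i : ℕ} (h : i < n) : (pre F n).getD i 0 = F i := by
  rw [List.getD_eq_getElem?_getD, MP_8c048d_lc.pre_getElem?, if_pos h]
  rfl

theorem stt_zero (F : ℕ → ℕ) : stt γ cmd F 0 = (0, 0, []) := rfl

theorem stt_le (F : ℕ → ℕ) (n : ℕ) :
    (stt γ cmd F n).1 ≤ n ∧ (stt γ cmd F n).2.1 ≤ (stt γ cmd F n).1 := by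
  induction n with
  | zero => exact ⟨le_rfl, le_rfl⟩
  | succ n ih =>
    show (stp γ cmd (pre F (n + 1)) (stt γ cmd F n)).1 ≤ _ ∧ _ ≤ (stp γ cmd _ _).1
    by_cases h : (stt γ cmd F n).2.1 < γ (pre F (n + 1))
    · rw [stp_pos γ cmd h]
      simp only [length_pre]
      exact ⟨le_rfl, by show (stp γ cmd _ _).2.1 ≤ _; rw [stp_pos γ cmd h]; simp only; omega⟩
    · rw [stp_neg γ cmd h]
      exact ⟨by omega, by show (stp γ cmd _ _).2.1 ≤ _; rw [stp_neg γ cmd h]; exact ih.2⟩

/-- The text with the command of the present slot. -/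
def tx' (F : ℕ → ℕ) (n : ℕ) : List Mv :=
  (stt γ cmd F n).2.2 ++ ex (cmd (F (stt γ cmd F n).1)) (stt γ cmd F n).2.1 (stt γ cmd F n).2.2

/-- The two cases of a step. -/
theorem stt_succ (F : ℕ → ℕ) (n : ℕ) : stt γ cmd F (n + 1) = stt γ cmd F n ∨
    (stt γ cmd F n).2.1 < γ (pre F (n + 1)) ∧
    stt γ cmd F (n + 1) = (n + 1, (stt γ cmd F n).2.1 + 1, tx' γ cmd F n ++
      (List.replicate (n + 1 - (tx' γ cmd F n).length) none ++ [some (Sum.inl (pre F (n + 1)))])) := by
  by_cases h : (stt γ cmd F n).2.1 < γ (pre F (n + 1))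
  · right
    refine ⟨h, ?_⟩
    show stp γ cmd (pre F (n + 1)) (stt γ cmd F n) = _
    rw [stp_pos γ cmd h, getD_pre (by have := (stt_le γ cmd F n).1; omega), length_pre]
    rfl
  · left
    exact stp_neg γ cmd h

theorem txt_le (F : ℕ → ℕ) (n : ℕ) : txt γ cmd F n <+: tx' γ cmd F n := by
  unfold txt tx'
  split_ifs
  · exact List.prefix_rfl
  · exact List.prefix_append _ _

theorem stt_txt (F : ℕ → ℕ) (n : ℕ) : (stt γ cmd F n).2.2 <+: txt γ cmd F n := by
  unfold txt
  split_ifs
  · exact List.prefix_append _ _
  · exact List.prefix_rfl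

theorem tx'_succ (F : ℕ → ℕ) (n : ℕ) : tx' γ cmd F n <+: txt γ cmd F (n + 1) := by
  rcases stt_succ γ cmd F n with h | ⟨-, h⟩
  · unfold txt tx'
    rw [h, if_pos (by have := (stt_le γ cmd F n).1; omega)]
  · refine List.IsPrefix.trans ?_ (stt_txt γ cmd F (n + 1))
    rw [h]
    exact List.prefix_append _ _

theorem txt_mono (F : ℕ → ℕ) {n n' : ℕ} (h : n ≤ n') : txt γ cmd F n <+: txt γ cmd F n' := by
  induction n', h using Nat.le_induction with
  | base => exact List.prefix_rfl
  | succ m _ ih => exact ih.trans ((txt_le γ cmd F m).trans (tx'_succ γ cmd F m))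

theorem stt_mono (F : ℕ → ℕ) {n n' : ℕ} (h : n ≤ n') :
    (stt γ cmd F n).1 ≤ (stt γ cmd F n').1 ∧ (stt γ cmd F n).2.1 ≤ (stt γ cmd F n').2.1 ∧
    (stt γ cmd F n).2.2 <+: (stt γ cmd F n').2.2 := by
  induction n', h using Nat.le_induction with
  | base => exact ⟨le_rfl, le_rfl, List.prefix_rfl⟩
  | succ m _ ih =>
    rcases stt_succ γ cmd F m with h | ⟨-, h⟩
    · rw [h]; exact ih
    · rw [h]
      refine ⟨?_, ?_, ?_⟩
      · have := (stt_le γ cmd F m).1
        have := ih.1
        simp only
        omega
      · have := ih.2.1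
        simp only
        omega
      · refine ih.2.2.trans ?_
        simp only
        exact ((stt_txt γ cmd F m).trans (txt_le γ cmd F m)).trans (List.prefix_append _ _)

theorem stt_stop (F : ℕ → ℕ) (n : ℕ) : stt γ cmd F (stt γ cmd F n).1 = stt γ cmd F n := by
  induction n with
  | zero => rfl
  | succ n ih =>
    rcases stt_succ γ cmd F n with h | ⟨-, h⟩
    · rw [h, ih]
    · have : (stt γ cmd F (n + 1)).1 = n + 1 := by rw [h]
      rw [this]

theorem stt_loc {F F' : ℕ → ℕ} {n : ℕ} (h : ∀ i < n, F i = F' i) :
    stt γ cmd F n = stt γ cmd F' n := by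
  induction n with
  | zero => rfl
  | succ n ih =>
    show stp γ cmd _ _ = stp γ cmd _ _
    rw [ih fun i hi => h i (by omega), pre_congr h]

theorem txt_loc {F F' : ℕ → ℕ} {n : ℕ} (h : ∀ i < n, F i = F' i) :
    txt γ cmd F n = txt γ cmd F' n := by
  unfold txt
  rw [← stt_loc γ cmd h]
  split_ifs with h1
  · rw [h _ h1]
  · rfl

theorem stt_last (F : ℕ → ℕ) (n : ℕ) (h0 : 0 < (stt γ cmd F n).2.1) :
    (stt γ cmd F n).1 < (stt γ cmd F n).2.2.length ∧
    (stt γ cmd F n).2.2.getLast? = some (some (Sum.inl (pre F (stt γ cmd F n).1))) ∧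
    (stt γ cmd F n).2.1 ≤ γ (pre F (stt γ cmd F n).1) := by
  induction n with
  | zero => exact absurd h0 (by simp [stt_zero])
  | succ n ih =>
    rcases stt_succ γ cmd F n with h | ⟨h1, h⟩
    · rw [h] at h0 ⊢; exact ih h0
    · rw [h]
      simp only
      refine ⟨?_, ?_, ?_⟩
      · simp only [List.length_append, List.length_replicate, List.length_singleton]
        omega
      · rw [← List.append_assoc, List.getLast?_append]
        simp
      · omega

theorem txt_get (F : ℕ → ℕ) {n n' p : ℕ} (h : n ≤ n') (hp : p < n) :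
    (txt γ cmd F n').getD p none = (txt γ cmd F n).getD p none := by
  induction n', h using Nat.le_induction with
  | base => rfl
  | succ m hm ih =>
    rw [← ih]
    rcases stt_succ γ cmd F m with h | ⟨-, h⟩
    · by_cases ha : (stt γ cmd F m).1 < m
      · have : txt γ cmd F (m + 1) = txt γ cmd F m := by
          unfold txt
          rw [h, if_pos (by omega), if_pos ha]
        rw [this]
      · -- `m` is a stop
        have ham : (stt γ cmd F m).1 = m := le_antisymm (stt_le γ cmd F m).1 (by omega)
        have hlen : p < (stt γ cmd F m).2.2.length := by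
          by_cases hu : 0 < (stt γ cmd F m).2.1
          · have := (stt_last γ cmd F m hu).1
            omega
          · exfalso
            have h2 : (stt γ cmd F m).2.1 = 0 := by omega
            -- a stop with number `0` is the place `0`
            have h3 : m = 0 := by
              cases m with
              | zero => rfl
              | succ m =>
                rcases stt_succ γ cmd F m with h4 | ⟨-, h4⟩
                · have := (stt_le γ cmd F m).1
                  rw [h4] at ham
                  omega
                · rw [h4] at h2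
                  simp at h2
            omega
        have e1 := (stt_txt γ cmd F m)
        have e2 := e1.trans (txt_mono γ cmd F (Nat.le_succ m))
        rw [getD_pfx e1 hlen, getD_pfx e2 hlen]
    · -- a new stop
      by_cases hlt : p < (txt γ cmd F m).length
      · exact getD_pfx (txt_mono γ cmd F (Nat.le_succ m)) hlt
      · -- `p` is beyond the text of `m`
        have ha : (stt γ cmd F m).1 < m := by
          by_contra ha
          have ham : (stt γ cmd F m).1 = m := le_antisymm (stt_le γ cmd F m).1 (by omega)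
          by_cases hu : 0 < (stt γ cmd F m).2.1
          · have h5 := (stt_last γ cmd F m hu).1
            have h6 := (stt_txt γ cmd F m).length_le
            omega
          · have h2 : (stt γ cmd F m).2.1 = 0 := by omega
            have h3 : m = 0 := by
              cases m with
              | zero => rfl
              | succ m =>
                rcases stt_succ γ cmd F m with h4 | ⟨-, h4⟩
                · have := (stt_le γ cmd F m).1
                  rw [h4] at ham
                  omega
                · rw [h4] at h2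
                  simp at h2
            omega
        have e : txt γ cmd F m = tx' γ cmd F m := by
          unfold txt tx'
          rw [if_pos ha]
        have e3 : txt γ cmd F (m + 1) = (stt γ cmd F (m + 1)).2.2 := by
          unfold txt
          rw [if_neg]
          rw [h]
          simp
        have hlt' : (tx' γ cmd F m).length ≤ p := by rw [← e]; omega
        rw [e3, h, e]
        simp only
        rw [List.getD_eq_getElem?_getD, List.getD_eq_getElem?_getD,
          List.getElem?_append_right (by omega), List.getElem?_append_left (by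
            rw [List.length_replicate]; omega), List.getElem?_replicate, if_pos (by omega),
          List.getElem?_eq_none (by omega)]
        rfl

theorem stt_inv (F : ℕ → ℕ) (n : ℕ) : ∃ L U, run (stt γ cmd F n).2.2 = some (L, U) ∧
    L.length = (stt γ cmd F n).2.1 ∧ (∀ j ∈ U, j < (stt γ cmd F n).2.1) ∧
    ∀ j, ∀ h : j < L.length, ∃ a ≤ n, L[j] = pre F a ∧ stt γ cmd F a = (a, j + 1,
      (stt γ cmd F a).2.2) := by
  induction n with
  | zero => exact ⟨[], [], rfl, rfl, by simp, by simp⟩
  | succ n ih =>
    obtain ⟨L, U, h1, h2, h3, h4⟩ := ih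
    rcases stt_succ γ cmd F n with h | ⟨-, h⟩
    · rw [h]
      refine ⟨L, U, h1, h2, h3, fun j hj => ?_⟩
      obtain ⟨a, ha, h5⟩ := h4 j hj
      exact ⟨a, by omega, h5⟩
    · obtain ⟨U1, h5, h6⟩ := run_ex h1 h2 h3 (cmd (F (stt γ cmd F n).1))
      refine ⟨L ++ [pre F (n + 1)], U1, ?_, ?_, ?_, ?_⟩
      · rw [h]
        simp only
        rw [run_append, runs_append, runs_replicate]
        show runs (run (tx' γ cmd F n)) _ = _
        have : run (tx' γ cmd F n) = some (L, U1) := h5
        rw [this]
        rfl
      · rw [h]; simp [h2]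
      · rw [h]; exact h6
      · intro j hj
        by_cases hj' : j < L.length
        · obtain ⟨a, ha, h7, h8⟩ := h4 j hj'
          refine ⟨a, by omega, ?_, h8⟩
          rw [List.getElem_append_left hj', h7]
        · rw [List.length_append, List.length_singleton] at hj
          have hj2 : j = L.length := by omega
          subst hj2
          refine ⟨n + 1, le_rfl, by simp, ?_⟩
          rw [h, h2]

theorem stt_all (F : ℕ → ℕ) (n : ℕ) (hn : (stt γ cmd F n).1 = n) (hc : cmd (F n) = 0) (n' : ℕ)
    (h : n ≤ n') : ∃ w, tx' γ cmd F n' = (stt γ cmd F n).2.2 ++ w ∧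
      w.all (okm (stt γ cmd F n).2.1) = true := by
  induction n', h using Nat.le_induction with
  | base =>
    refine ⟨[], ?_, rfl⟩
    unfold tx'
    rw [hn, hc, ex_zero]
  | succ m hm ih =>
    obtain ⟨w, h1, h2⟩ := ih
    rcases stt_succ γ cmd F m with h | ⟨-, h⟩
    · have : tx' γ cmd F (m + 1) = tx' γ cmd F m := by unfold tx'; rw [h]
      rw [this]
      exact ⟨w, h1, h2⟩
    · have h3 := (stt_mono γ cmd F hm).2.1
      have h4 : (stt γ cmd F (m + 1)).2.2 = (stt γ cmd F n).2.2 ++ (w ++
          (List.replicate (m + 1 - (tx' γ cmd F m).length) none ++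
            [some (Sum.inl (pre F (m + 1)))])) := by
        rw [h]
        simp only
        rw [h1, List.append_assoc]
      refine ⟨(w ++ (List.replicate (m + 1 - (tx' γ cmd F m).length) none ++
            [some (Sum.inl (pre F (m + 1)))])) ++ ex (cmd (F (stt γ cmd F (m + 1)).1))
            (stt γ cmd F (m + 1)).2.1 (stt γ cmd F (m + 1)).2.2, ?_, ?_⟩
      · conv_lhs => unfold tx'
        rw [h4, List.append_assoc]
      · rw [List.all_append, List.all_append, List.all_append, h2, ex_okm _ _ _ (by
          rw [h]; simp only; omega)]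
        simp [okm]

theorem stt_leg (F : ℕ → ℕ) (n : ℕ) : (run (tx' γ cmd F n)).isSome = true := by
  obtain ⟨L, U, h1, h2, h3, -⟩ := stt_inv γ cmd F n
  obtain ⟨U1, h5, -⟩ := run_ex h1 h2 h3 (cmd (F (stt γ cmd F n).1))
  unfold tx'
  rw [h5]
  rfl

theorem stt_inf (F : ℕ → ℕ) (hF : Ub γ F) (u : ℕ) :
    ∃ n, (stt γ cmd F n).1 = n ∧ u ≤ (stt γ cmd F n).2.1 := by
  induction u with
  | zero => exact ⟨0, rfl, Nat.zero_le _⟩
  | succ u ih =>
    obtain ⟨n, h1, h2⟩ := ih
    by_contra hcon
    push Not at hcon
    -- the state is constant after `n`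
    have h3 : ∀ m ≥ n, stt γ cmd F m = stt γ cmd F n := by
      intro m hm
      induction m, hm using Nat.le_induction with
      | base => rfl
      | succ m hm ih2 =>
        rcases stt_succ γ cmd F m with h | ⟨-, h⟩
        · rw [h, ih2]
        · exfalso
          have := hcon (m + 1) (by rw [h])
          rw [h, ih2] at this
          simp only at this
          omega
    -- `γ` is bounded
    obtain ⟨B, hB⟩ : ∃ B, ∀ p ≤ n, γ (pre F p) ≤ B := by
      refine ⟨((List.range (n + 1)).map fun p => γ (pre F p)).sum, fun p hp => ?_⟩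
      exact List.single_le_sum (by simp) _ (List.mem_map.2 ⟨p, by simp; omega, rfl⟩)
    obtain ⟨p, hp⟩ := hF (max (B + 1) ((stt γ cmd F n).2.1 + 1))
    have hpn : n < p := by
      by_contra h4
      have := hB p (by omega)
      omega
    obtain ⟨q, rfl⟩ : ∃ q, p = q + 1 := ⟨p - 1, by omega⟩
    have h4 : stt γ cmd F (q + 1) = stp γ cmd (pre F (q + 1)) (stt γ cmd F q) := rfl
    rw [h3 (q + 1) (by omega), h3 q (by omega), stp_pos γ cmd (by omega)] at h4
    have h5 := congrArg (fun x : ℕ × ℕ × List Mv => x.2.1) h4
    simp only at h5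
    omega

end layer

/-- LAY. -/
theorem lay_facts : StLAY := by
  intro γ cmd
  refine ⟨fun F F' n h => ⟨stt_loc γ cmd h, txt_loc γ cmd h⟩, stt_le γ cmd,
    fun F n n' h => stt_mono γ cmd F h, stt_stop γ cmd, ?_, fun F n n' p h hp => txt_get γ cmd F h hp,
    ?_, ?_, stt_last γ cmd, stt_inv γ cmd, ?_, ?_, ?_, stt_inf γ cmd⟩
  · intro F n n' h hn
    have h1 : (stt γ cmd F n).2.2 ++ ex (cmd (F n)) (stt γ cmd F n).2.1 (stt γ cmd F n).2.2 =
        tx' γ cmd F n := by
      unfold tx'; rw [hn]
    rw [h1]
    exact (tx'_succ γ cmd F n).trans (txt_mono γ cmd F h)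
  · intro F n p hp
    unfold rr
    rcases le_total (p + 1) n with h | h
    · rw [← txt_get γ cmd F h (Nat.lt_succ_self p), getD_pfx (stt_txt γ cmd F n) hp]
    · rw [getD_pfx ((stt_txt γ cmd F n).trans (txt_mono γ cmd F h)) hp]
  · intro F n p hp
    unfold rr
    rcases le_total (p + 1) n with h | h
    · exact (txt_get γ cmd F h (Nat.lt_succ_self p)).symm
    · have hp' : p < n ∨ p < (txt γ cmd F n).length := hp
      rcases hp' with hp' | hp'
      · exact txt_get γ cmd F h hp'
      · exact getD_pfx (txt_mono γ cmd F h) hp'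
  · intro F n w h1 h2
    apply ex_enc h1
    obtain ⟨L, U, h3, h4, h5, -⟩ := stt_inv γ cmd F n
    rw [run_append, h3] at h2
    obtain ⟨⟨L', U'⟩, h6⟩ := Option.isSome_iff_exists.1 h2
    obtain ⟨h7, h8, h9⟩ := runs_ok h1 (by omega) h6
    rw [run_append, h3, runs_append, h6]
    have h10 : U'.contains (stt γ cmd F n).2.1 = false := by
      by_contra h11
      rw [Bool.not_eq_false, List.contains_iff_mem] at h11
      exact absurd (h5 _ (h9 _ le_rfl h11)) (lt_irrefl _)
    show ((some (L', U')).bind (fun p => mvo p (some (Sum.inr _)))).isSome = true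
    simp only [Option.bind_some, mvo, h10]
    rfl
  · intro F n
    exact run_prefix (txt_le γ cmd F n) (stt_leg γ cmd F n)
  · intro F n n' h hn hc
    obtain ⟨w, h1, h2⟩ := stt_all γ cmd F n hn hc n' h
    have h3 := txt_le γ cmd F n'
    have h4 : (stt γ cmd F n).2.2 <+: txt γ cmd F n' :=
      (stt_mono γ cmd F h).2.2.trans (stt_txt γ cmd F n')
    obtain ⟨v, hv⟩ := h4
    refine ⟨v, hv.symm, ?_⟩
    rw [← hv, h1] at h3
    have h5 : v <+: w := (List.prefix_append_right_inj _).1 h3
    rw [List.all_eq_true] at h2 ⊢
    exact fun m hm => h2 m (h5.subset hm)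

end Pool.Agent.Lib.MP_d48993_lc.Ind2
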