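import Pool.Agent.Lib.MP_d48993_lc.AE.Ind2.Dfs

/-!
# Module IND2: the facts about one layer (statements)
-/

set_option autoImplicit false

namespace Pool.Agent.Lib.MP_d48993_lc.Ind2

open MP_8c048d_lc (pre join RecF Cop UR length_pre pre_take)
open Encodable (encode)
open Denumerable (ofNat)

/-- LAY: the facts about one layer. -/
structure Lay (γ : List ℕ → ℕ) (cmd : ℕ → ℕ) : Prop where
  /-- locality -/
  loc : ∀ (F F' : ℕ → ℕ) (n : ℕ), (∀ i < n, F i = F' i) →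
    stt γ cmd F n = stt γ cmd F' n ∧ txt γ cmd F n = txt γ cmd F' n
  /-- the last stop -/
  le : ∀ (F : ℕ → ℕ) (n : ℕ), (stt γ cmd F n).1 ≤ n ∧ (stt γ cmd F n).2.1 ≤ (stt γ cmd F n).1
  /-- monotonicity -/
  mono : ∀ (F : ℕ → ℕ) (n n' : ℕ), n ≤ n' →
    (stt γ cmd F n).1 ≤ (stt γ cmd F n').1 ∧ (stt γ cmd F n).2.1 ≤ (stt γ cmd F n').2.1 ∧
    (stt γ cmd F n).2.2 <+: (stt γ cmd F n').2.2
  /-- the state at the last stop -/
  stop : ∀ (F : ℕ → ℕ) (n : ℕ), stt γ cmd F (stt γ cmd F n).1 = stt γ cmd F n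
  /-- the text of the slot is extended -/
  slot : ∀ (F : ℕ → ℕ) (n n' : ℕ), n < n' → (stt γ cmd F n).1 = n →
    (stt γ cmd F n).2.2 ++ ex (cmd (F n)) (stt γ cmd F n).2.1 (stt γ cmd F n).2.2 <+:
      txt γ cmd F n'
  /-- places of the text -/
  get : ∀ (F : ℕ → ℕ) (n n' p : ℕ), n ≤ n' → p < n →
    (txt γ cmd F n').getD p none = (txt γ cmd F n).getD p none
  /-- the text at the closed places -/
  rrm : ∀ (F : ℕ → ℕ) (n p : ℕ), p < (stt γ cmd F n).2.2.length →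
    rr γ cmd F p = (stt γ cmd F n).2.2.getD p none
  /-- the same for the texts -/
  rrt : ∀ (F : ℕ → ℕ) (n p : ℕ), p < n ∨ p < (txt γ cmd F n).length →
    rr γ cmd F p = (txt γ cmd F n).getD p none
  /-- the length of the closed text, the last move -/
  last : ∀ (F : ℕ → ℕ) (n : ℕ), 0 < (stt γ cmd F n).2.1 →
    (stt γ cmd F n).1 < (stt γ cmd F n).2.2.length ∧
    (stt γ cmd F n).2.2.getLast? = some (some (Sum.inl (pre F (stt γ cmd F n).1))) ∧
    (stt γ cmd F n).2.1 ≤ γ (pre F (stt γ cmd F n).1)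
  /-- the state of the closed text -/
  inv : ∀ (F : ℕ → ℕ) (n : ℕ), ∃ L U, run (stt γ cmd F n).2.2 = some (L, U) ∧
    L.length = (stt γ cmd F n).2.1 ∧ (∀ j ∈ U, j < (stt γ cmd F n).2.1) ∧
    ∀ j, ∀ h : j < L.length, ∃ a ≤ n, L[j] = pre F a ∧ stt γ cmd F a = (a, j + 1,
      (stt γ cmd F a).2.2)
  /-- commands are executed -/
  exe : ∀ (F : ℕ → ℕ) (n : ℕ) (w : List Mv), w.all (okm (stt γ cmd F n).2.1) = true →
    (run ((stt γ cmd F n).2.2 ++ w)).isSome = true →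
    ex (encode (some w : Option (List Mv))) (stt γ cmd F n).2.1 (stt γ cmd F n).2.2 =
      w ++ [some (Sum.inr (stt γ cmd F n).2.1)]
  /-- all texts are legal -/
  leg : ∀ (F : ℕ → ℕ) (n : ℕ), (run (txt γ cmd F n)).isSome = true
  /-- after the command `none` only higher levels are reopened -/
  non : ∀ (F : ℕ → ℕ) (n n' : ℕ), n ≤ n' → (stt γ cmd F n).1 = n → cmd (F n) = 0 →
    ∃ w, txt γ cmd F n' = (stt γ cmd F n).2.2 ++ w ∧ w.all (okm (stt γ cmd F n).2.1) = true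
  /-- there are infinitely many stops -/
  inf : ∀ (F : ℕ → ℕ), Ub γ F → ∀ u, ∃ n, (stt γ cmd F n).1 = n ∧ u ≤ (stt γ cmd F n).2.1

/-- LAY. -/
def StLAY : Prop := ∀ (γ : List ℕ → ℕ) (cmd : ℕ → ℕ), Lay γ cmd

end Pool.Agent.Lib.MP_d48993_lc.Ind2
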