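import Pool.Agent.Lib.MP_d48993_lc.AE.Ind2.Tow

/-!
# Module IND2: stops with the command `none`
-/

set_option autoImplicit false

namespace Pool.Agent.Lib.MP_d48993_lc.Ind2

open MP_8c048d_lc (pre join RecF Cop UR length_pre pre_take pre_congr)
open Encodable (encode)
open Denumerable (ofNat)

theorem fn_prefix {F : ℕ → ℕ} {n i : ℕ} (h : i < n) : fn (pre F n) i = F i := getD_pre h

theorem comp_fn : Computable (fun x : List ℕ × ℕ => fn x.1 x.2) :=
  (Primrec.list_getD 0).to_comp.comp Computable.fst Computable.snd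

/-- The states of the layers, computed by a functional from a string. -/
theorem recF_sW {γ : List ℕ → ℕ} (hγ : Computable γ) {α : Type} [Primcodable α] (K l j k : ℕ)
    {g : α → ℕ → (ℕ → ℕ) → ℕ} (hg : RecF (fun (x : α × ℕ) W => g x.1 x.2 W)) :
    RecF (fun (x : α × ℕ) W => stt (cer γ K j) (cmf k)
      (lay γ K j (TW K l W (fun p => g x.1 p W))) x.2) := by
  have h1 := recF_XW hγ K l j hg
  exact (recF_stt (comp_cer hγ K j) (comp_cmf k)).subst (α := α × ℕ) (ψ := fun x _ => x.2)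
    (RecF.of_computable Computable.snd)
    (Ψ := fun x W => lay γ K j (TW K l W (fun p => g x.1 p W)))
    (h1.comp₁ (f := fun x : (α × ℕ) × ℕ => (x.1.1, x.2))
      ((Computable.fst.comp Computable.fst).pair Computable.snd))

/-- The condition of NONE. -/
def CN (γ : List ℕ → ℕ) (K l k k0 : ℕ) (W : ℕ → ℕ) (t : List ℕ) (p : ℕ) : Prop :=
  k0 ≤ p ∧ p < t.length ∧
    (stt (cer γ K (K - (k + 1))) (cmf k) (lay γ K (K - (k + 1)) (TW K l W (fn t))) p).1 = p ∧
    cmf k (lay γ K (K - (k + 1)) (TW K l W (fn t)) p) = 0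

theorem s1_CN {γ : List ℕ → ℕ} (hγ : Computable γ) (K l k k0 : ℕ) :
    S1 (fun (t : List ℕ) W => ∃ p, CN γ K l k k0 W t p) := by
  refine S1.exN (P := fun t p W => CN γ K l k k0 W t p) (S1.ofCop ?_)
  unfold CN
  refine Cop.and (Cop.of_computable ?_) (Cop.and (Cop.of_computable ?_) (Cop.and ?_ ?_))
  · exact ComputablePred.of_eq (p := fun x : List ℕ × ℕ => k0 ≤ x.2)
      ⟨fun _ => inferInstance, (PrimrecRel.decide Primrec.nat_le).to_comp.comp
        (Computable.const k0) Computable.snd⟩ fun _ => Iff.rfl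
  · exact ⟨fun _ => inferInstance, (PrimrecRel.decide Primrec.nat_lt).to_comp.comp
        Computable.snd (Computable.list_length.comp Computable.fst)⟩
  · have h1 := recF_sW hγ (α := List ℕ) K l (K - (k + 1)) k (g := fun t p _ => fn t p)
      (RecF.of_computable comp_fn)
    have h2 := (RecF.of_computable (α := List ℕ × ℕ) Computable.snd).pair h1
    exact Cop.of_recF h2 (p := fun z : ℕ × ℕ × ℕ × List Mv => z.2.1 = z.1)
      (MP_8c048d_lc.e3_cp_eq (Computable.fst.comp Computable.snd) Computable.fst)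
  · have h1 := recF_XW hγ (α := List ℕ) K l (K - (k + 1)) (g := fun t p _ => fn t p)
      (RecF.of_computable comp_fn)
    exact Cop.of_recF h1 (p := fun z : ℕ => cmf k z = 0)
      (MP_8c048d_lc.e3_cp_eq (comp_cmf k) (Computable.const 0))

/-- The change of one entry. -/
def put (n K l j p : ℕ) (v : ℕ) (G : ℕ → ℕ) : ℕ → ℕ := fun q =>
  if q = p then mk n K fun l' j' => if l' = l ∧ j' = j then v else ent (G q) l' j' else G q

/-- Sigma facts over the jumps. -/
theorem sg_W {P : List ℕ → (ℕ → ℕ) → Prop} (h : S1 P) (K : ℕ) : Sg (Z K) (fun t => P t (WK K)) :=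
  (Sg.ofS1 h (WK K)).red (red_WK K)

/-- The layer over a string. -/
theorem lay_TW (γ : ℕ → List ℕ → ℕ) (K l k : ℕ) (G : ℕ → ℕ) :
    lay (γ l) K (K - k) (TW K l (WK K) G) = XL γ K l k G := by
  rw [TW_WK]
  rfl

/-- The certificates of the layers. -/
theorem crt_lay (hC : StCRT) {γ : List ℕ → ℕ} {K : ℕ} {F : ℕ → ℕ} (h : Crt γ F) (j : ℕ) :
    Crt (cer γ K j) (lay γ K j F) := by
  induction j with
  | zero => exact h
  | succ j ih => exact hC _ _ _ _ ih

theorem crt_XL (hC : StCRT) {γ : ℕ → List ℕ → ℕ} {K l : ℕ} {G : ℕ → ℕ}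
    (h : Crt (γ l) (TT K l G)) (k : ℕ) : Crt (cer (γ l) K (K - k)) (XL γ K l k G) :=
  crt_lay hC h _

theorem ent_put {n K l j p v : ℕ} {G : ℕ → ℕ} (hl : l < n) (hj : j ≤ K) :
    ent (put n K l j p v G p) l j = v := by
  unfold put
  rw [if_pos rfl, ent_mk hl hj, if_pos ⟨rfl, rfl⟩]

theorem put_ne {n K l j p v : ℕ} {G : ℕ → ℕ} {q : ℕ} (h : q ≠ p) : put n K l j p v G q = G q := by
  unfold put
  rw [if_neg h]

theorem pre_pfx_of {F G : ℕ → ℕ} {m n : ℕ} (h : m ≤ n) (e : ∀ q < m, F q = G q) :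
    pre F m <+: pre G n := by
  rw [pre_congr e]
  exact pre_pfx G h

/-- NONE. -/
theorem none_stops (hC : StCRT) : StNONE := by
  intro n K γ G hγ hG hT l hl k hk k0
  have hs := sg_W (s1_CN (hγ l) K l k k0) K
  -- a stop of `G'` from a string
  have hkey : ∀ (G' : ℕ → ℕ) (m p : ℕ), p < m →
      stt (cer (γ l) K (K - (k + 1))) (cmf k)
        (lay (γ l) K (K - (k + 1)) (TW K l (WK K) (fn (pre G' m)))) p =
      stt (cer (γ l) K (K - (k + 1))) (cmf k) (XL γ K l (k + 1) G') p ∧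
      lay (γ l) K (K - (k + 1)) (TW K l (WK K) (fn (pre G' m))) p = XL γ K l (k + 1) G' p := by
    intro G' m p hp
    rw [lay_TW]
    have h1 : ∀ q < m, XL γ K l (k + 1) (fn (pre G' m)) q = XL γ K l (k + 1) G' q := by
      intro q hq
      apply XL_loc
      intro i hi j _
      rw [fn_prefix (by omega)]
    exact ⟨((lay_facts _ _).loc _ _ p fun i hi => h1 i (by omega)).1, h1 p hp⟩
  obtain ⟨m, h | h⟩ := hG _ hs
  · obtain ⟨p, h1, h2, h3, h4⟩ := h
    rw [length_pre] at h2
    obtain ⟨e1, e2⟩ := hkey G m p h2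
    rw [e1] at h3
    rw [e2] at h4
    exact ⟨p, h1, h3, h4⟩
  · exfalso
    have hU : Ub (cer (γ l) K (K - (k + 1))) (XL γ K l (k + 1) G) :=
      (crt_XL hC (hT l hl) (k + 1) _).2 rfl
    obtain ⟨p, h1, h2⟩ := (lay_facts _ (cmf k)).inf _ hU (max k0 m)
    have hp : max k0 m ≤ p := by
      have h3 := ((lay_facts (cer (γ l) K (K - (k + 1))) (cmf k)).le
        (XL γ K l (k + 1) G) p).2
      rw [h1] at h3
      exact h2.trans h3
    have hpm : m ≤ p := (le_max_right _ _).trans hp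
    -- the change
    have e0 : ∀ q < p, put n K l (k + 1) p 0 G q = G q := fun q hq => put_ne (by omega)
    refine h (pre (put n K l (k + 1) p 0 G) (p + 1)) ?_ ⟨p, (le_max_left _ _).trans hp, ?_, ?_, ?_⟩
    · exact pre_pfx_of (by omega) fun q hq => (e0 q (by omega)).symm
    · rw [length_pre]; omega
    · rw [(hkey _ _ _ (Nat.lt_succ_self p)).1]
      have e1 : stt (cer (γ l) K (K - (k + 1))) (cmf k)
          (XL γ K l (k + 1) (put n K l (k + 1) p 0 G)) p =
          stt (cer (γ l) K (K - (k + 1))) (cmf k) (XL γ K l (k + 1) G) p := by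
        refine ((lay_facts _ _).loc _ _ p fun i hi => ?_).1
        apply XL_loc
        intro q hq j _
        rw [e0 q (by omega)]
      rw [e1, h1]
    · rw [(hkey _ _ _ (Nat.lt_succ_self p)).2, cmf_XL γ hk, ent_put hl (by omega)]

end Pool.Agent.Lib.MP_d48993_lc.Ind2
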