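import Pool.Agent.Lib.MP_d48993_lc.AE.Ind2.Cmp
import Pool.Agent.Lib.MP_d48993_lc.AE.Ind2.Lay

/-!
# Module IND2: the tower of the layers
-/

set_option autoImplicit false

namespace Pool.Agent.Lib.MP_d48993_lc.Ind2

open MP_8c048d_lc (pre join RecF Cop UR length_pre pre_take pre_congr join_even join_odd)
open Encodable (encode)
open Denumerable (ofNat)

/-! ## Entries -/

theorem ent_mk {n K : ℕ} {f : ℕ → ℕ → ℕ} {l j : ℕ} (hl : l < n) (hj : j ≤ K) :
    ent (mk n K f) l j = f l j := by
  unfold ent mk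
  rw [Denumerable.ofNat_encode]
  have h1 : ((List.range n).map fun l => (List.range (K + 1)).map fun j => f l j).getD l [] =
      (List.range (K + 1)).map fun j => f l j := by
    rw [List.getD_eq_getElem _ _ (by rw [List.length_map, List.length_range]; exact hl),
      List.getElem_map, List.getElem_range]
  rw [h1, List.getD_eq_getElem _ _ (by rw [List.length_map, List.length_range]; omega),
      List.getElem_map, List.getElem_range]

/-- The visible list of the layer `k`. -/
def vw (k : ℕ) (z : ℕ → ℕ) (l y : ℕ) : List ℕ :=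
  ent y l 0 :: (List.range k).map fun j => Nat.pair (z (j + 1)) (ent y l (j + 1))

theorem top_eq (K : ℕ) (z : ℕ → ℕ) (l y : ℕ) : top K z l y = Nat.pair (encode (vw K z l y)) 0 := rfl

theorem vw_take {k K : ℕ} (h : k ≤ K) (z : ℕ → ℕ) (l y : ℕ) :
    (vw K z l y).take (k + 1) = vw k z l y := by
  unfold vw
  rw [List.take_succ_cons, ← List.map_take, List.take_range, min_eq_left h]

theorem vw_congr {k : ℕ} {z z' : ℕ → ℕ} {l y y' : ℕ} (hz : ∀ j < k, z (j + 1) = z' (j + 1))
    (hy : ∀ j ≤ k, ent y l j = ent y' l j) : vw k z l y = vw k z' l y' := by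
  unfold vw
  rw [hy 0 (Nat.zero_le _)]
  congr 1
  apply List.map_congr_left
  intro j hj
  rw [List.mem_range] at hj
  rw [hz j hj, hy (j + 1) hj]

theorem vw_zero (k : ℕ) (z : ℕ → ℕ) (l y : ℕ) : (vw k z l y).getD 0 0 = ent y l 0 := rfl

theorem vw_succ {k : ℕ} (z : ℕ → ℕ) (l y : ℕ) {j : ℕ} (hj : j < k) :
    (vw k z l y).getD (j + 1) 0 = Nat.pair (z (j + 1)) (ent y l (j + 1)) := by
  unfold vw
  rw [List.getD_cons_succ, List.getD_eq_getElem _ _ (by simpa using hj)]
  simp

/-- Equal visible lists have equal entries. -/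
theorem vw_ent {k : ℕ} {z z' : ℕ → ℕ} {l y y' : ℕ} (h : vw k z l y = vw k z' l y') {j : ℕ}
    (hj : j ≤ k) : ent y l j = ent y' l j := by
  cases j with
  | zero => rw [← vw_zero k z, h, vw_zero]
  | succ j =>
    have h1 := vw_succ z l y (k := k) (j := j) hj
    rw [h, vw_succ z' l y' (k := k) (j := j) hj] at h1
    have h2 := congrArg (fun x => (Nat.unpair x).2) h1
    simpa using h2.symm

theorem vl_pair (L : List ℕ) (m : ℕ) : vl (Nat.pair (encode L) m) = L := by
  unfold vl
  rw [Nat.unpair_pair, Denumerable.ofNat_encode]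

/-! ## The layers -/

section tower

variable (γ : List ℕ → ℕ) (K : ℕ)

theorem lay_zero (F : ℕ → ℕ) : lay γ K 0 F = F := rfl

theorem lay_succ (j : ℕ) (F : ℕ → ℕ) : lay γ K (j + 1) F =
    XX (cer γ K j) (vsf (K - (j + 1))) (cmf (K - (j + 1))) (lay γ K j F) := rfl

theorem lay_loc (j : ℕ) {F F' : ℕ → ℕ} {p : ℕ} (h : ∀ q ≤ p, F q = F' q) :
    lay γ K j F p = lay γ K j F' p := by
  induction j generalizing p with
  | zero => exact h p le_rfl
  | succ j ih =>
    rw [lay_succ, lay_succ]
    unfold XX rr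
    rw [ih h, ((lay_facts _ _).loc (lay γ K j F) (lay γ K j F') (p + 1) fun i hi =>
      ih fun q hq => h q (by omega)).2]

theorem vl_lay {z : ℕ → ℕ → ℕ} {l : ℕ} {G : ℕ → ℕ} (j : ℕ) (hj : j ≤ K) (p : ℕ) :
    vl (lay γ K j (fun p => top K (fun i => z i p) l (G p)) p) =
      vw (K - j) (fun i => z i p) l (G p) := by
  induction j with
  | zero =>
    rw [lay_zero, top_eq, vl_pair, Nat.sub_zero]
  | succ j ih =>
    rw [lay_succ]
    unfold XX vsf
    rw [vl_pair, ih (by omega), vw_take (by omega)]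

end tower

theorem vl_XL (γ : ℕ → List ℕ → ℕ) {K l k : ℕ} (hk : k ≤ K) (G : ℕ → ℕ) (p : ℕ) :
    vl (XL γ K l k G p) = vw k (fun i => Z i p) l (G p) := by
  unfold XL TT
  rw [vl_lay (γ l) K (z := fun i p => Z i p) (K - k) (by omega) p]
  congr 1
  omega

theorem XL_top (γ : ℕ → List ℕ → ℕ) (K l : ℕ) (G : ℕ → ℕ) : XL γ K l K G = TT K l G := by
  unfold XL
  rw [Nat.sub_self]
  rfl

/-- The layer `k` is constructed over the layer `k + 1`. -/
theorem XL_succ (γ : ℕ → List ℕ → ℕ) {K l k : ℕ} (hk : k < K) (G : ℕ → ℕ) :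
    XL γ K l k G = XX (cer (γ l) K (K - (k + 1))) (vsf k) (cmf k) (XL γ K l (k + 1) G) := by
  unfold XL
  have h : K - k = (K - (k + 1)) + 1 := by omega
  rw [h, lay_succ]
  have h2 : K - ((K - (k + 1)) + 1) = k := by omega
  rw [h2]

theorem XL_loc (γ : ℕ → List ℕ → ℕ) {K l k : ℕ} {G G' : ℕ → ℕ} {p : ℕ}
    (h : ∀ q ≤ p, ∀ j ≤ K, ent (G q) l j = ent (G' q) l j) :
    XL γ K l k G p = XL γ K l k G' p := by
  unfold XL
  apply lay_loc
  intro q hq
  unfold TT
  rw [top_eq, top_eq, vw_congr (fun _ _ => rfl) (h q hq)]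

theorem cmf_XL (γ : ℕ → List ℕ → ℕ) {K l k : ℕ} (hk : k < K) (G : ℕ → ℕ) (p : ℕ) :
    cmf k (XL γ K l (k + 1) G p) = ent (G p) l (k + 1) := by
  unfold cmf
  rw [vl_XL γ (by omega : k + 1 ≤ K), vw_succ _ _ _ (Nat.lt_succ_self k), Nat.unpair_pair]

theorem vsf_XL (γ : ℕ → List ℕ → ℕ) {K l k : ℕ} (hk : k < K) (G : ℕ → ℕ) (p : ℕ) :
    vsf k (XL γ K l (k + 1) G p) = encode (vw k (fun i => Z i p) l (G p)) := by
  unfold vsf
  rw [vl_XL γ (by omega : k + 1 ≤ K), vw_take (by omega)]

/-! ## All jumps at once -/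

/-- The jumps up to `K`. -/
noncomputable def WK (K : ℕ) : ℕ → ℕ :=
  fun x => if x.unpair.1 ≤ K then Z x.unpair.1 x.unpair.2 else 0

theorem WK_pair {K j : ℕ} (h : j ≤ K) (p : ℕ) : WK K (Nat.pair j p) = Z j p := by
  unfold WK
  rw [Nat.unpair_pair]
  exact if_pos h

theorem red_WK (K : ℕ) : Red (WK K) (Z K) := by
  induction K with
  | zero =>
    have h : RecF (fun (_ : ℕ) (_ : ℕ → ℕ) => 0) := RecF.of_computable (Computable.const 0)
    have h1 := red1 _ h (Z 0)
    have h2 : WK 0 = fun _ => 0 := by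
      funext x
      unfold WK
      split_ifs with h3
      · have : x.unpair.1 = 0 := by omega
        rw [this]
        rfl
      · rfl
    rw [h2]
    exact h1
  | succ K ih =>
    have h : RecF (fun (x : ℕ) (H : ℕ → ℕ) => (bif decide (x.unpair.1 ≤ K) then H (2 * x) else
        (bif decide (x.unpair.1 = K + 1) then H (2 * x.unpair.2 + 1) else 0))) := by
      have e1 : Computable (fun x : ℕ => x.unpair.1) := Computable.fst.comp Computable.unpair
      have e2 : Computable (fun x : ℕ => x.unpair.2) := Computable.snd.comp Computable.unpair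
      refine RecF.cond (RecF.of_computable ?_) (RecF.at ?_) (RecF.cond (RecF.of_computable ?_)
        (RecF.at ?_) (RecF.of_computable (Computable.const 0)))
      · exact (PrimrecRel.decide Primrec.nat_le).to_comp.comp e1 (Computable.const K)
      · exact Primrec.nat_double.to_comp
      · exact (PrimrecRel.decide Primrec.eq).to_comp.comp e1 (Computable.const (K + 1))
      · exact Primrec.nat_double_succ.to_comp.comp e2
    have h1 := red1_join h (ih.trans (red_Z_succ K)) (Red.rfl (f := Z (K + 1)))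
    have h2 : WK (K + 1) = fun x => (bif decide (x.unpair.1 ≤ K) then
        join (WK K) (Z (K + 1)) (2 * x) else (bif decide (x.unpair.1 = K + 1) then
          join (WK K) (Z (K + 1)) (2 * x.unpair.2 + 1) else 0)) := by
      funext x
      rw [join_even, join_odd]
      unfold WK
      by_cases h3 : x.unpair.1 ≤ K
      · rw [if_pos (by omega), if_pos h3, decide_eq_true h3]; rfl
      · by_cases h4 : x.unpair.1 = K + 1
        · rw [if_pos (by omega), if_neg h3, decide_eq_false h3, decide_eq_true h4, h4]; rfl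
        · rw [if_neg (by omega), decide_eq_false h3, decide_eq_false h4]; rfl
    rw [h2]
    exact h1

/-- The top layer computed from the jumps. -/
def TW (K l : ℕ) (W G : ℕ → ℕ) : ℕ → ℕ := fun p => top K (fun j => W (Nat.pair j p)) l (G p)

theorem TW_WK (K l : ℕ) (G : ℕ → ℕ) : TW K l (WK K) G = TT K l G := by
  funext p
  unfold TW TT
  have h : vw K (fun j => WK K (Nat.pair j p)) l (G p) = vw K (fun j => Z j p) l (G p) :=
    vw_congr (fun j hj => WK_pair (Nat.succ_le_of_lt hj) p) (fun _ _ => rfl)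
  rw [top_eq, top_eq, h]

/-! ## Computability -/

section comp

variable {α : Type} [Primcodable α]

theorem comp_ent : Computable (fun x : ℕ × ℕ × ℕ => ent x.1 x.2.1 x.2.2) := by
  have h1 : Computable (fun x : ℕ × ℕ × ℕ => (ofNat (List (List ℕ)) x.1).getD x.2.1 []) :=
    (Primrec.list_getD ([] : List ℕ)).to_comp.comp
      ((Primrec.ofNat (List (List ℕ))).to_comp.comp Computable.fst)
      (Computable.fst.comp Computable.snd)
  exact (Primrec.list_getD 0).to_comp.comp h1 (Computable.snd.comp Computable.snd)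

/-- Lists over a range, computed by a functional. -/
theorem recF_list {z : α → ℕ → (ℕ → ℕ) → ℕ} (hz : RecF (fun (x : α × ℕ) H => z x.1 x.2 H))
    {k : α → ℕ} (hk : Computable k) :
    RecF (fun (a : α) H => (List.range (k a)).map fun j => z a j H) :=
  (RecF.pre' (Ψ := fun a H j => z a j H) hz).comp₁ (f := fun a : α => (a, k a))
    (Computable.id.pair hk)

/-- Visible lists, computed by a functional. -/
theorem recF_vw (k l : ℕ) {z : α → ℕ → (ℕ → ℕ) → ℕ}
    (hz : RecF (fun (x : α × ℕ) H => z x.1 x.2 H)) {y : α → (ℕ → ℕ) → ℕ} (hy : RecF y) :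
    RecF (fun (a : α) H => vw k (fun j => z a j H) l (y a H)) := by
  have h1 : RecF (fun (a : α) H => ent (y a H) l 0) := by
    have e1 : Computable (fun y : ℕ => ent y l 0) := by
      have e2 := comp_ent.comp ((Computable.id (α := ℕ)).pair ((Computable.const l).pair
        (Computable.const 0)))
      exact e2
    exact RecF.comp e1 hy
  have h2 : RecF (fun (x : α × ℕ) H => Nat.pair (z x.1 (x.2 + 1) H) (ent (y x.1 H) l (x.2 + 1))) := by
    have e1 : RecF (fun (x : α × ℕ) H => z x.1 (x.2 + 1) H) :=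
      hz.comp₁ (f := fun x : α × ℕ => (x.1, x.2 + 1))
        (Computable.fst.pair (Computable.succ.comp Computable.snd))
    have e2 : RecF (fun (x : α × ℕ) H => y x.1 H) := hy.comp₁ Computable.fst
    have e3 : RecF (fun (x : α × ℕ) H => ((y x.1 H, x.2), z x.1 (x.2 + 1) H)) :=
      (e2.pair (RecF.of_computable Computable.snd)).pair e1
    have e4 : Computable (fun x : (ℕ × ℕ) × ℕ => (x.1.1, l, x.1.2 + 1)) :=
      (Computable.fst.comp Computable.fst).pair ((Computable.const l).pair
        (Computable.succ.comp (Computable.snd.comp Computable.fst)))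
    have e7 : Computable (fun x : (ℕ × ℕ) × ℕ => ent x.1.1 l (x.1.2 + 1)) := by
      have e8 := comp_ent.comp e4
      exact e8
    have e5 : Computable (fun x : (ℕ × ℕ) × ℕ => Nat.pair x.2 (ent x.1.1 l (x.1.2 + 1))) :=
      Primrec₂.natPair.to_comp.comp Computable.snd e7
    have e6 := RecF.comp e5 e3
    exact e6
  have h3 := recF_list (z := fun a j H => Nat.pair (z a (j + 1) H) (ent (y a H) l (j + 1))) h2
    (k := fun _ => k) (Computable.const k)
  have h4 : Computable (fun x : ℕ × List ℕ => x.1 :: x.2) :=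
    Primrec.list_cons.to_comp.comp Computable.fst Computable.snd
  have h5 := RecF.comp h4 (h1.pair h3)
  exact h5

/-- The layers, computed by a functional. -/
theorem recF_XW {γ : List ℕ → ℕ} (hγ : Computable γ) (K l j : ℕ) {g : α → ℕ → (ℕ → ℕ) → ℕ}
    (hg : RecF (fun (x : α × ℕ) W => g x.1 x.2 W)) :
    RecF (fun (x : α × ℕ) W => lay γ K j (TW K l W (fun p => g x.1 p W)) x.2) := by
  have h1 : RecF (fun (x : α × ℕ) W => TW K l W (fun p => g x.1 p W) x.2) := by
    have e1 := recF_vw (α := α × ℕ) K l (z := fun x j W => W (Nat.pair j x.2))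
      (RecF.at (Primrec₂.natPair.to_comp.comp Computable.snd (Computable.snd.comp Computable.fst)))
      hg
    have e2 : Computable (fun L : List ℕ => Nat.pair (encode L) 0) :=
      Primrec₂.natPair.to_comp.comp Computable.encode (Computable.const 0)
    have e3 := RecF.comp e2 e1
    exact e3
  exact (recF_lay hγ K j).subst (α := α × ℕ) (ψ := fun x _ => x.2)
    (RecF.of_computable Computable.snd) (Ψ := fun x W => TW K l W (fun p => g x.1 p W))
    (h1.comp₁ (f := fun x : (α × ℕ) × ℕ => (x.1.1, x.2))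
      ((Computable.fst.comp Computable.fst).pair Computable.snd))

/-- Lists over a fixed list. -/
theorem recF_I {φ : ℕ → α → (ℕ → ℕ) → ℕ} (h : ∀ l, RecF (φ l)) (I : List ℕ) :
    RecF (fun (a : α) H => I.map fun l => φ l a H) := by
  induction I with
  | nil => exact RecF.of_computable (Computable.const [])
  | cons l I ih =>
    exact RecF.comp (g := fun x : ℕ × List ℕ => x.1 :: x.2)
      (Primrec.list_cons.to_comp.comp Computable.fst Computable.snd) ((h l).pair ih)

theorem cop_I {P : ℕ → α → (ℕ → ℕ) → Prop} (h : ∀ l, Cop (P l)) (I : List ℕ) :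
    Cop (fun (a : α) H => ∀ l ∈ I, P l a H) := by
  induction I with
  | nil => exact (Cop.of_computable (P := fun _ : α => True)
      ⟨fun _ => isTrue trivial, Computable.const true⟩).congr fun a F => by simp
  | cons l I ih =>
    refine (Cop.and (h l) ih).congr fun a F => ?_
    simp

end comp

/-! ## Reductions between the layers -/

theorem red_XL_succ {γ : ℕ → List ℕ → ℕ} (hγ : ∀ l, Computable (γ l)) {K l k : ℕ} (hk : k < K)
    (G : ℕ → ℕ) : Red (XL γ K l k G) (XL γ K l (k + 1) G) := by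
  rw [XL_succ γ hk]
  exact red1 _ (recF_XX (comp_cer (hγ l) K _) (comp_vsf k) (comp_cmf k)) _

theorem red_Z_XL (γ : ℕ → List ℕ → ℕ) {K l k : ℕ} (hk : k ≤ K) (G : ℕ → ℕ) :
    Red (Z k) (XL γ K l k G) := by
  cases k with
  | zero =>
    have h : RecF (fun (_ : ℕ) (_ : ℕ → ℕ) => 0) := RecF.of_computable (Computable.const 0)
    exact red1 _ h _
  | succ k =>
    have h : RecF (fun (p : ℕ) (F : ℕ → ℕ) => ((vl (F p)).getD (k + 1) 0).unpair.1) := by
      have e1 : Computable (fun y : ℕ => ((vl y).getD (k + 1) 0).unpair.1) :=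
        Computable.fst.comp (Computable.unpair.comp
          ((Primrec.list_getD 0).to_comp.comp comp_vl (Computable.const (k + 1))))
      have e2 := RecF.comp e1 (RecF.at (α := ℕ) Computable.id)
      exact e2
    have h1 := red1 _ h (XL γ K l (k + 1) G)
    have h2 : Z (k + 1) = fun p => ((vl (XL γ K l (k + 1) G p)).getD (k + 1) 0).unpair.1 := by
      funext p
      rw [vl_XL γ hk, vw_succ _ _ _ (Nat.lt_succ_self k), Nat.unpair_pair]
    rw [h2]
    exact h1

/-- `UR` is monotone. -/
theorem UR_mono {e n : ℕ} {σ τ : List ℕ} (h : σ <+: τ) (h1 : UR e n σ) : UR e n τ := by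
  obtain ⟨j, hj, h2⟩ := h1
  refine ⟨j, hj.trans h.length_le, ?_⟩
  have h3 : τ.take j = σ.take j := by
    obtain ⟨t, rfl⟩ := h
    rw [List.take_append_of_le_length hj]
  rw [h3]
  exact MP_8c048d_lc.evaln_mono' h.length_le h2

theorem pre_pfx (F : ℕ → ℕ) {m n : ℕ} (h : m ≤ n) : pre F m <+: pre F n := by
  rw [List.prefix_iff_eq_take, length_pre, pre_take, min_eq_left h]

end Pool.Agent.Lib.MP_d48993_lc.Ind2
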